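import Pool.Agent.Run7.h742.SZ.Fh2

/-!
# Weil restrictions with good reduction outside `N` (helper742)
-/

set_option autoImplicit false
set_option linter.unusedSectionVars false

namespace Run7.h742.WS

open NumberField IsDedekindDomain Height MvPolynomial
open Pool.Agent.TH876.FH (IsPeriod arch GoodAt)
open Pool.Agent.TH910.Voj Run7.h742.VI Run7.h742.SZ
open Pool.Agent.Y733.FF Pool.Agent.H691R3 Pool.Agent.Y733.LS Pool.Agent.N365.FH

/-- a prime pole divides `N` -/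
theorem pole_dvd {L : Type} [Field L] [NumberField L] (E : WeierstrassCurve L) (hE0 : E.Δ ≠ 0)
    {x y : ℤ} (hy0 : y ≠ 0) (hj : E.c₄ ^ 3 / E.Δ = (x : L) / y) {p : ℕ} (hp : p.Prime)
    (hy : (p : ℤ) ∣ y) (hx : ¬ (p : ℤ) ∣ x) {N : ℕ}
    (hN : ∀ v : HeightOneSpectrum (𝓞 L), (N : 𝓞 L) ∉ v.asIdeal → GoodAt v E) : p ∣ N := by
  by_contra hcon
  obtain ⟨v, hv⟩ := exists_above (K := L) hp
  have h1 : (N : 𝓞 L) ∉ v.asIdeal := by
    have h2 : ¬ (p : ℤ) ∣ (N : ℤ) := by exact_mod_cast hcon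
    have := not_mem_of hp hv h2
    exact_mod_cast this
  have h1 := good_int v E hE0 (hN v h1)
  rw [hj, fv_le_one_iff, map_div₀, val_int hp hv hx] at h1
  have h2 := val_lt hv hy
  have h3 : v.valuation L (y : L) ≠ 0 := (v.valuation L).ne_zero_iff.2 (by exact_mod_cast hy0)
  have h4 : (1 : WithZero (Multiplicative ℤ)) ≤ v.valuation L (y : L) := by
    rw [div_le_iff₀ (zero_lt_iff.2 h3), one_mul] at h1
    exact h1
  exact absurd h2 (not_lt.2 h4)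

theorem sum_log_le {N : ℕ} (hN : N ≠ 0) (A : Finset ℕ) (hA : ∀ p ∈ A, p.Prime ∧ p ∣ N) :
    ∑ p ∈ A, Real.log (p : ℝ) ≤ Real.log N := by
  have h1 : ∏ p ∈ A, p ∣ N := by
    refine Finset.prod_primes_dvd N (fun p hp => (hA p hp).1.prime) fun p hp => (hA p hp).2
  have h2 : ∏ p ∈ A, p ≤ N := Nat.le_of_dvd (Nat.pos_of_ne_zero hN) h1
  have h3 : 0 < ∏ p ∈ A, p := Finset.prod_pos fun p hp => (hA p hp).1.pos
  rw [← Real.log_prod (fun p hp => by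
    have := (hA p hp).1.pos
    positivity)]
  refine Real.log_le_log ?_ ?_
  · have : (0 : ℝ) < ((∏ p ∈ A, p : ℕ) : ℝ) := by exact_mod_cast h3
    rwa [Nat.cast_prod] at this
  · have : ((∏ p ∈ A, p : ℕ) : ℝ) ≤ N := by exact_mod_cast h2
    rwa [Nat.cast_prod] at this

/-- twelve times the stable height -/
noncomputable def sh {L : Type} [Field L] [NumberField L] (j : L)
    (τ : InfinitePlace L → UpperHalfPlane) : ℝ :=
  ∑ᶠ v : HeightOneSpectrum (𝓞 L), Real.log (max (FinitePlace.mk v j) 1) +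
    ∑ w : InfinitePlace L, (w.mult : ℝ) * arch (τ w)

/-- a curve of the family with good reduction outside `N` -/
def Adm {n : ℕ} (F G : MvPolynomial (Fin (n + 1)) ℤ) (x : Fin (n + 1) → ℤ) {L : Type}
    [Field L] [NumberField L] (E : WeierstrassCurve L) (τ : InfinitePlace L → UpperHalfPlane)
    (N : ℕ) : Prop :=
  eval x G ≠ 0 ∧ E.Δ ≠ 0 ∧ E.c₄ ^ 3 / E.Δ = ((eval x F : ℤ) : L) / ((eval x G : ℤ) : L) ∧
    IsPeriod (E.c₄ ^ 3 / E.Δ) τ ∧
      ∀ v : HeightOneSpectrum (𝓞 L), (N : 𝓞 L) ∉ v.asIdeal → GoodAt v E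

variable {n D : ℕ} {F G : MvPolynomial (Fin (n + 1)) ℤ}

/-- the bound at one point -/
theorem point (hF : F.IsHomogeneous D) (hG : G.IsHomogeneous D) : ∃ C : ℝ, 0 ≤ C ∧
    ∀ x : Fin (n + 1) → ℤ, x 0 ≠ 0 → ∀ (L : Type) [Field L] [NumberField L]
      (E : WeierstrassCurve L) (τ : InfinitePlace L → UpperHalfPlane) (N : ℕ), N ≠ 0 →
      Adm F G x E τ N → sh (E.c₄ ^ 3 / E.Δ) τ ≤ Module.finrank ℚ L * (D * Real.log (Ht x) + C) ∧
        ∀ θ : ℝ, ManyP F G θ x → θ * Real.log (Ht x) ≤ Real.log N := by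
  obtain ⟨C, hC, h⟩ := stab_le hF hG
  refine ⟨C, hC, fun x hx L _ _ E τ N hN hA => ⟨h x hx hA.1 L E τ hA.2.1 hA.2.2.1 hA.2.2.2.1,
    fun θ hM => ?_⟩⟩
  obtain ⟨A, hA1, hbig⟩ := hM
  refine hbig.trans (sum_log_le hN A fun p hp => ?_)
  obtain ⟨h1, -, h3, h4⟩ := hA1 p hp
  exact ⟨h1, pole_dvd E hA.2.1 hA.1 hA.2.2.1 h1 h3 h4 hA.2.2.2.2⟩

/-- the failures -/
def Fail (F G : MvPolynomial (Fin (n + 1)) ℤ) (κ c₀ : ℝ) : Set (Fin (n + 1) → ℤ) :=
  {x | x 0 ≠ 0 ∧ ∃ (L : Type) (_ : Field L) (_ : NumberField L) (E : WeierstrassCurve L)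
    (τ : InfinitePlace L → UpperHalfPlane) (N : ℕ), N ≠ 0 ∧ Adm F G x E τ N ∧
      12 * (κ * Module.finrank ℚ L * Real.log N) <
        sh (E.c₄ ^ 3 / E.Δ) τ + 12 * (c₀ * Module.finrank ℚ L)}

theorem choose_theta {q : ℕ} {k : Fin q → ℕ} {κ : ℝ}
    (hκ : (D : ℝ) < 12 * κ * ∑ j, ((min (k j) 2 : ℕ) : ℝ)) :
    0 < κ ∧ ∃ θ : ℝ, θ < ∑ j, ((min (k j) 2 : ℕ) : ℝ) ∧ (D : ℝ) < 12 * κ * θ := by
  obtain ⟨ω, hω⟩ : ∃ ω : ℝ, ω = ∑ j, ((min (k j) 2 : ℕ) : ℝ) := ⟨_, rfl⟩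
  rw [← hω] at hκ ⊢
  have hω0 : 0 ≤ ω := by rw [hω]; exact Finset.sum_nonneg fun j _ => Nat.cast_nonneg _
  have hD0 : (0 : ℝ) ≤ D := Nat.cast_nonneg _
  have hκ0 : 0 < κ := by
    by_contra hcon
    have : 12 * κ * ω ≤ 0 := mul_nonpos_of_nonpos_of_nonneg (by linarith [not_lt.1 hcon]) hω0
    linarith
  refine ⟨hκ0, (ω + D / (12 * κ)) / 2, ?_, ?_⟩
  · have : D / (12 * κ) < ω := by
      rw [div_lt_iff₀ (by positivity)]
      linarith
    linarith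
  · have e : 12 * κ * ((ω + D / (12 * κ)) / 2) = (12 * κ * ω + D) / 2 := by
      field_simp
    rw [e]
    linarith

/-- power saving -/
theorem fail_ps (hn : 1 ≤ n) {q : ℕ} {P : Fin q → MvPolynomial (Fin (n + 1)) ℤ} {k : Fin q → ℕ}
    (h : Inv D F G P k) {κ : ℝ} (hκ : (D : ℝ) < 12 * κ * ∑ j, ((min (k j) 2 : ℕ) : ℝ))
    (c₀ : ℝ) : PS n (Fail F G κ c₀) := by
  obtain ⟨hκ0, θ, h1, h2⟩ := choose_theta hκ
  obtain ⟨C, hC, hpt⟩ := point h.hF h.hG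
  have hlim : Filter.Tendsto (fun B : ℕ => (12 * κ * θ - D) * Real.log (B : ℝ)) Filter.atTop
      Filter.atTop :=
    (Real.tendsto_log_atTop.comp tendsto_natCast_atTop_atTop).const_mul_atTop (by linarith)
  obtain ⟨T, hT⟩ := Filter.eventually_atTop.mp (hlim.eventually_gt_atTop (C + 12 * c₀))
  refine (PS.union (many_ps hn h h1) (PS.small hn T)).mono ?_
  rintro x ⟨hx, L, _, _, E, τ, N, hN, hA, hlt⟩
  by_cases hTx : T < Ht x
  · left
    refine ⟨hx, fun hM => ?_⟩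
    obtain ⟨h3, h4⟩ := hpt x hx L E τ N hN hA
    have h5 := h4 θ hM
    have h6 := hT _ hTx.le
    have hd : (0 : ℝ) < Module.finrank ℚ L := by exact_mod_cast Module.finrank_pos
    have h7 : D * Real.log (Ht x) + C + 12 * c₀ < 12 * κ * (θ * Real.log (Ht x)) := by linarith
    have h8 : 12 * κ * (θ * Real.log (Ht x)) ≤ 12 * κ * Real.log N :=
      mul_le_mul_of_nonneg_left h5 (by positivity)
    have h9 : (Module.finrank ℚ L : ℝ) * (D * Real.log (Ht x) + C + 12 * c₀) <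
        Module.finrank ℚ L * (12 * κ * Real.log N) :=
      mul_lt_mul_of_pos_left (h7.trans_le h8) hd
    linarith
  · exact Or.inr (show ((Ht x : ℕ) : ℝ) ≤ (T : ℝ) by exact_mod_cast not_lt.1 hTx)

/-- **one set** -/
theorem univ (hn : 1 ≤ n) :
    ∃ E₀ : Set (Fin (n + 1) → ℤ), (∀ ε : ℝ, 0 < ε → ∃ B₀ : ℕ, ∀ B : ℕ, B₀ ≤ B → ∀ M : Set ℕ,
        (Set.ncard {x | x ∈ Pts n M B ∧ x ∈ E₀} : ℝ) ≤ ε * (Pts n M B).ncard) ∧
      ∀ (D q : ℕ) (F G : MvPolynomial (Fin (n + 1)) ℤ)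
        (P : Fin q → MvPolynomial (Fin (n + 1)) ℤ) (k : Fin q → ℕ), Inv D F G P k →
        ∀ κ : ℝ, (D : ℝ) < 12 * κ * ∑ j, ((min (k j) 2 : ℕ) : ℝ) → ∃ C : ℝ, 0 ≤ C ∧
          ∀ x : Fin (n + 1) → ℤ, x 0 ≠ 0 → x ∉ E₀ → ∀ (L : Type) [Field L] [NumberField L]
            (E : WeierstrassCurve L) (τ : InfinitePlace L → UpperHalfPlane) (N : ℕ), N ≠ 0 →
            Adm F G x E τ N → sh (E.c₄ ^ 3 / E.Δ) τ ≤
              12 * (κ * Module.finrank ℚ L * Real.log N + C * Module.finrank ℚ L) := by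
  obtain ⟨E₀, hE₀, hall⟩ := many_univ hn
  refine ⟨E₀, hE₀, fun D q F G P k h κ hκ => ?_⟩
  obtain ⟨hκ0, θ, h1, h2⟩ := choose_theta hκ
  obtain ⟨C, hC, hpt⟩ := point h.hF h.hG
  obtain ⟨T, hT⟩ := hall D q F G P k h θ h1
  have hT0 : 0 ≤ Real.log ((T : ℝ) + 1) :=
    Real.log_nonneg (by have : (0 : ℝ) ≤ T := Nat.cast_nonneg _; linarith)
  refine ⟨C + D * Real.log ((T : ℝ) + 1), by positivity, fun x hx hxE L _ _ E τ N hN hA => ?_⟩
  obtain ⟨h3, h4⟩ := hpt x hx L E τ N hN hA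
  have hd : (0 : ℝ) ≤ Module.finrank ℚ L := Nat.cast_nonneg _
  have hHt : (1 : ℝ) ≤ Ht x := by exact_mod_cast Ht_pos hx
  have hN0 : 0 ≤ Real.log (N : ℝ) := Real.log_natCast_nonneg _
  have hD0 : (0 : ℝ) ≤ D := Nat.cast_nonneg _
  have key : D * Real.log (Ht x) ≤ 12 * κ * Real.log N + D * Real.log ((T : ℝ) + 1) := by
    by_cases hTx : T < Ht x
    · have h5 := h4 θ (hT x hx hxE hTx)
      have hlog : 0 ≤ Real.log (Ht x) := Real.log_nonneg hHt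
      have h6 : D * Real.log (Ht x) ≤ 12 * κ * θ * Real.log (Ht x) :=
        mul_le_mul_of_nonneg_right h2.le hlog
      have h7 : 12 * κ * (θ * Real.log (Ht x)) ≤ 12 * κ * Real.log N :=
        mul_le_mul_of_nonneg_left h5 (by positivity)
      have h8 : 0 ≤ D * Real.log ((T : ℝ) + 1) := by positivity
      linarith
    · have h5 : Real.log (Ht x) ≤ Real.log ((T : ℝ) + 1) := by
        refine Real.log_le_log (by linarith) ?_
        have : (Ht x : ℝ) ≤ T := by exact_mod_cast not_lt.1 hTx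
        linarith
      have h6 : D * Real.log (Ht x) ≤ D * Real.log ((T : ℝ) + 1) :=
        mul_le_mul_of_nonneg_left h5 hD0
      have h7 : 0 ≤ 12 * κ * Real.log N := by positivity
      linarith
  have h9 : (Module.finrank ℚ L : ℝ) * (D * Real.log (Ht x) + C) ≤
      Module.finrank ℚ L * (12 * κ * Real.log N + (C + D * Real.log ((T : ℝ) + 1))) :=
    mul_le_mul_of_nonneg_left (by linarith) hd
  have h10 : 0 ≤ Module.finrank ℚ L * (C + D * Real.log ((T : ℝ) + 1)) := by positivity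
  linarith

end Run7.h742.WS
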