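import Pool.Agent.Run7.h742.SZ.Fin2
import Pool.Agent.Run7.h742.UN.Fin

/-!
# Campana points (helper742)
-/

set_option autoImplicit false

namespace Run7.h742.CP

open Pool.Agent.TH910.Voj Run7.h742.VI Run7.h742.SZ

/-- all primes outside `S` which divide `v` divide it at least `m` times; none divides it if `m = 0` -/
def Full (m : ℕ) (S : Finset ℕ) (v : ℤ) : Prop :=
  ∀ p : ℕ, p.Prime → p ∉ S → (p : ℤ) ∣ v → m ≠ 0 ∧ (p : ℤ) ^ m ∣ v

theorem full_rad {m : ℕ} {S : Finset ℕ} {v : ℤ} (hv : v ≠ 0) (h : Full m S v) :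
    logRad S v ≤ (1 / (m : ℝ)) * Real.log |(v : ℝ)| := by
  classical
  have hv1 : (1 : ℝ) ≤ |(v : ℝ)| := by
    have : (1 : ℤ) ≤ |v| := Int.one_le_abs hv
    exact_mod_cast this
  have hmem : ∀ p ∈ v.natAbs.primeFactors \ S, p.Prime ∧ p ∉ S ∧ (p : ℤ) ∣ v := by
    intro p hp
    rw [Finset.mem_sdiff, Nat.mem_primeFactors] at hp
    exact ⟨hp.1.1, hp.2, Int.natCast_dvd.2 hp.1.2.1⟩
  rcases Nat.eq_zero_or_pos m with h0 | h0
  · have hemp : v.natAbs.primeFactors \ S = ∅ := by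
      rw [Finset.eq_empty_iff_forall_notMem]
      intro p hp
      obtain ⟨h1, h2, h3⟩ := hmem p hp
      exact (h p h1 h2 h3).1 h0
    unfold logRad
    rw [hemp, Finset.sum_empty, h0]
    simp
  · have hdvd : ∏ p ∈ v.natAbs.primeFactors \ S, p ^ m ∣ v.natAbs := by
      refine Finset.prod_dvd_of_isRelPrime ?_ fun p hp => ?_
      · intro p hp q hq hpq
        have h1 := (hmem p hp).1
        have h2 := (hmem q hq).1
        exact Nat.coprime_iff_isRelPrime.1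
          (Nat.Coprime.pow _ _ ((Nat.coprime_primes h1 h2).2 hpq))
      · obtain ⟨h1, h2, h3⟩ := hmem p hp
        have h4 := (h p h1 h2 h3).2
        have h5 : ((p ^ m : ℕ) : ℤ) ∣ v := by exact_mod_cast h4
        exact Int.natCast_dvd.1 h5
    have hle : ∏ p ∈ v.natAbs.primeFactors \ S, p ^ m ≤ v.natAbs :=
      Nat.le_of_dvd (Int.natAbs_pos.2 hv) hdvd
    have hpos : 0 < ∏ p ∈ v.natAbs.primeFactors \ S, p ^ m :=
      Finset.prod_pos fun p hp => pow_pos (hmem p hp).1.pos _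
    have hlog : (m : ℝ) * logRad S v ≤ Real.log |(v : ℝ)| := by
      have h1 : ((∏ p ∈ v.natAbs.primeFactors \ S, p ^ m : ℕ) : ℝ) ≤ |(v : ℝ)| := by
        have : ((∏ p ∈ v.natAbs.primeFactors \ S, p ^ m : ℕ) : ℝ) ≤ (v.natAbs : ℝ) := by
          exact_mod_cast hle
        rwa [Nat.cast_natAbs, Int.cast_abs] at this
      have h2 := Real.log_le_log (by exact_mod_cast hpos) h1
      rw [Nat.cast_prod, Real.log_prod (s := v.natAbs.primeFactors \ S)
        (f := fun p => ((p ^ m : ℕ) : ℝ)) (fun p hp => by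
          have := (hmem p hp).1.pos
          positivity)] at h2
      refine le_trans (le_of_eq ?_) h2
      unfold logRad
      rw [Finset.mul_sum]
      refine Finset.sum_congr rfl fun p _ => ?_
      rw [Nat.cast_pow, Real.log_pow]
    have hm : (0 : ℝ) < m := by exact_mod_cast h0
    rw [one_div, ← div_eq_inv_mul, le_div_iff₀ hm]
    linarith

theorem logRad_prod_le {r : ℕ} (S : Finset ℕ) (a : Fin r → ℤ) (ha : ∀ j, a j ≠ 0) :
    logRad S (∏ j, a j) ≤ ∑ j, logRad S (a j) := by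
  classical
  have h1 : ∀ p ∈ (∏ j, a j).natAbs.primeFactors \ S,
      ∃ j, p ∈ (a j).natAbs.primeFactors \ S := by
    intro p hp
    rw [Finset.mem_sdiff, Nat.mem_primeFactors] at hp
    obtain ⟨⟨hp1, hp2, -⟩, hp3⟩ := hp
    have h2 : (p : ℤ) ∣ ∏ j, a j := Int.natCast_dvd.2 hp2
    obtain ⟨j, -, hj⟩ := (Prime.dvd_finset_prod_iff (Nat.prime_iff_prime_int.mp hp1) _).1 h2
    refine ⟨j, Finset.mem_sdiff.2 ⟨?_, hp3⟩⟩
    exact Nat.mem_primeFactors.2 ⟨hp1, Int.natCast_dvd.1 hj, Int.natAbs_ne_zero.2 (ha j)⟩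
  unfold logRad
  calc ∑ p ∈ (∏ j, a j).natAbs.primeFactors \ S, Real.log (p : ℝ) ≤
      ∑ p ∈ (∏ j, a j).natAbs.primeFactors \ S, ∑ j : Fin r,
        (if p ∈ (a j).natAbs.primeFactors \ S then Real.log (p : ℝ) else 0) := by
        refine Finset.sum_le_sum fun p hp => ?_
        obtain ⟨j, hj⟩ := h1 p hp
        calc Real.log (p : ℝ) = (if p ∈ (a j).natAbs.primeFactors \ S then
              Real.log (p : ℝ) else 0) := by rw [if_pos hj]
          _ ≤ _ := Finset.single_le_sum (f := fun j : Fin r =>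
              (if p ∈ (a j).natAbs.primeFactors \ S then Real.log (p : ℝ) else 0))
              (fun i _ => by
                show (0 : ℝ) ≤ if _ then _ else _
                split_ifs
                · exact Real.log_natCast_nonneg _
                · exact le_rfl) (Finset.mem_univ j)
    _ = ∑ j : Fin r, ∑ p ∈ (∏ j, a j).natAbs.primeFactors \ S,
        (if p ∈ (a j).natAbs.primeFactors \ S then Real.log (p : ℝ) else 0) :=
        Finset.sum_comm
    _ ≤ _ := by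
        refine Finset.sum_le_sum fun j _ => ?_
        rw [← Finset.sum_filter]
        exact Finset.sum_le_sum_of_subset_of_nonneg
          (fun p hp => (Finset.mem_filter.1 hp).2) fun p _ _ => Real.log_natCast_nonneg p

theorem logRad_S (S : Finset ℕ) (a : ℤ) :
    logRad ∅ a ≤ logRad S a + ∑ p ∈ S, Real.log (p : ℝ) := by
  classical
  unfold logRad
  rw [Finset.sdiff_empty]
  have h7 : a.natAbs.primeFactors ⊆ (a.natAbs.primeFactors \ S) ∪ S := by
    intro p hp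
    by_cases hpS : p ∈ S
    · exact Finset.mem_union_right _ hpS
    · exact Finset.mem_union_left _ (Finset.mem_sdiff.mpr ⟨hp, hpS⟩)
  have h8 := Finset.sum_le_sum_of_subset_of_nonneg h7 (f := fun p : ℕ => Real.log (p : ℝ))
    fun p _ _ => Real.log_natCast_nonneg p
  have h9 : ∑ p ∈ (a.natAbs.primeFactors \ S) ∪ S, Real.log (p : ℝ) ≤
      ∑ p ∈ (a.natAbs.primeFactors \ S), Real.log (p : ℝ) + ∑ p ∈ S, Real.log (p : ℝ) := by
    rw [← Finset.sum_union_inter]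
    have : 0 ≤ ∑ p ∈ (a.natAbs.primeFactors \ S) ∩ S, Real.log (p : ℝ) :=
      Finset.sum_nonneg fun p _ => Real.log_natCast_nonneg p
    linarith
  linarith

section Affine

open MvPolynomial

/-- the Campana points of the pair with the components `P j` and the multiplicities `m j` -/
def Camp {n q : ℕ} (P : Fin q → MvPolynomial (Fin (n + 1)) ℤ) (m : Fin q → ℕ) (η : ℝ) :
    Set (Fin (n + 1) → ℤ) :=
  {x | x 0 ≠ 0 ∧ ∃ S : Finset ℕ, ∑ p ∈ S, Real.log (p : ℝ) ≤ η * Real.log (Ht x) ∧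
    ∀ j, eval x (P j) ≠ 0 ∧ Full (m j) S (eval x (P j))}

theorem camp_bad {n q : ℕ} (P : Fin q → MvPolynomial (Fin (n + 1)) ℤ) (k m : Fin q → ℕ)
    (hP : ∀ j, (P j).IsHomogeneous (k j)) {η θ : ℝ}
    (hθ : ∑ j, (k j : ℝ) / (m j : ℝ) + η < θ) :
    ∃ T : ℕ, ∀ x ∈ Camp P m η, T < Ht x → x ∈ Bad P ∅ θ := by
  choose c hc hval using fun j => val_le (P j) (hP j)
  obtain ⟨C, hC⟩ : ∃ C : ℝ, C = ∑ j, (1 / (m j : ℝ)) * Real.log (c j) := ⟨_, rfl⟩
  obtain ⟨δ, hδ⟩ : ∃ δ : ℝ, δ = θ - (∑ j, (k j : ℝ) / (m j : ℝ) + η) := ⟨_, rfl⟩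
  have hδ0 : 0 < δ := by rw [hδ]; linarith
  have hlim : Filter.Tendsto (fun B : ℕ => δ * Real.log (B : ℝ)) Filter.atTop Filter.atTop :=
    (Real.tendsto_log_atTop.comp tendsto_natCast_atTop_atTop).const_mul_atTop hδ0
  obtain ⟨T, hT⟩ := Filter.eventually_atTop.mp (hlim.eventually_gt_atTop C)
  refine ⟨T, fun x hxC hTx => ?_⟩
  obtain ⟨hx, S, hS, hfull⟩ := hxC
  have hTx := hT _ hTx.le
  have hHt : (1 : ℝ) ≤ Ht x := by exact_mod_cast Ht_pos hx
  right
  have h1 := logRad_S S (∏ j, eval x (P j))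
  have h2 := logRad_prod_le S (fun j => eval x (P j)) fun j => (hfull j).1
  have h3 : ∀ j, logRad S (eval x (P j)) ≤
      (1 / (m j : ℝ)) * Real.log (c j) + (k j : ℝ) / (m j : ℝ) * Real.log (Ht x) := by
    intro j
    refine (full_rad (hfull j).1 (hfull j).2).trans ?_
    have h4 := hval j x hx
    have h5 : (0 : ℝ) < |((eval x (P j) : ℤ) : ℝ)| := by
      rw [abs_pos]
      exact_mod_cast (hfull j).1
    have h6 := Real.log_le_log h5 h4
    have hc0 : 0 < c j := by linarith [hc j]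
    rw [Real.log_mul hc0.ne' (by positivity), Real.log_pow] at h6
    calc (1 / (m j : ℝ)) * Real.log |((eval x (P j) : ℤ) : ℝ)| ≤
        (1 / (m j : ℝ)) * (Real.log (c j) + k j * Real.log (Ht x)) :=
          mul_le_mul_of_nonneg_left h6 (by positivity)
      _ = _ := by ring
  have h4 : ∑ j, logRad S (eval x (P j)) ≤
      C + (∑ j, (k j : ℝ) / (m j : ℝ)) * Real.log (Ht x) := by
    refine (Finset.sum_le_sum fun j _ => h3 j).trans (le_of_eq ?_)
    rw [Finset.sum_add_distrib, Finset.sum_mul, hC]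
  have h5 : δ * Real.log (Ht x) = θ * Real.log (Ht x) -
      (∑ j, (k j : ℝ) / (m j : ℝ)) * Real.log (Ht x) - η * Real.log (Ht x) := by
    rw [hδ]; ring
  linarith

/-- power saving -/
theorem camp_ps {n q : ℕ} (hn : 1 ≤ n) (P : Fin q → MvPolynomial (Fin (n + 1)) ℤ)
    (k m : Fin q → ℕ) (h : Comps P k) {η : ℝ}
    (hη : ∑ j, (k j : ℝ) / (m j : ℝ) + η < ∑ j, ((min (k j) 2 : ℕ) : ℝ)) :
    PS n (Camp P m η) := by
  obtain ⟨θ, h1, h2⟩ := exists_between hη
  obtain ⟨T, hT⟩ := camp_bad P k m h.1 h1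
  refine (PS.union (bad_single hn P k h ∅ θ h2) (PS.small hn T)).mono ?_
  intro x hx
  by_cases hTx : T < Ht x
  · exact Or.inl (hT x hx hTx)
  · exact Or.inr (show ((Ht x : ℕ) : ℝ) ≤ (T : ℝ) by exact_mod_cast not_lt.1 hTx)

/-- **one set** -/
theorem camp_univ {n : ℕ} (hn : 1 ≤ n) :
    ∃ E₀ : Set (Fin (n + 1) → ℤ), (∀ ε : ℝ, 0 < ε → ∃ B₀ : ℕ, ∀ B : ℕ, B₀ ≤ B → ∀ M : Set ℕ,
        (Set.ncard {x | x ∈ Pts n M B ∧ x ∈ E₀} : ℝ) ≤ ε * (Pts n M B).ncard) ∧
      ∀ (q : ℕ) (P : Fin q → MvPolynomial (Fin (n + 1)) ℤ) (k m : Fin q → ℕ), Comps P k →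
        ∀ η : ℝ, ∑ j, (k j : ℝ) / (m j : ℝ) + η < ∑ j, ((min (k j) 2 : ℕ) : ℝ) → ∃ T : ℕ,
          ∀ x ∈ Camp P m η, T < Ht x → x ∈ E₀ := by
  obtain ⟨E₀, hE₀, hall⟩ := universal hn
  refine ⟨E₀, hE₀, fun q P k m h η hη => ?_⟩
  obtain ⟨θ, h1, h2⟩ := exists_between hη
  obtain ⟨T1, hT1⟩ := camp_bad P k m h.1 h1
  obtain ⟨T2, hT2⟩ := hall q P k h ∅ θ h2
  exact ⟨max T1 T2, fun x hx hTx => hT2 x (hT1 x hx ((le_max_left _ _).trans_lt hTx))
    ((le_max_right _ _).trans_lt hTx)⟩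

end Affine

section Line

open Polynomial Run7.h742.UN

/-- the size of a value -/
theorem value_le {k : ℕ} {f : ℤ[X]} {H : ℝ} (hH : 0 ≤ H) (hf : ∀ i, |(f.coeff i : ℝ)| ≤ H)
    {B : ℕ} (hB : 1 ≤ B) {t m : ℤ} (ht : |t| ≤ B) (hm : |m| ≤ B) :
    |(((scale k m f).eval t : ℤ) : ℝ)| ≤ (k + 1) * (H * (B : ℝ) ^ k) := by
  rw [scale_eval, Int.cast_sum]
  refine (Finset.abs_sum_le_sum_abs _ _).trans ?_
  have h1 : ∀ i ∈ Finset.range (k + 1),
      |((f.coeff i * t ^ i * m ^ (k - i) : ℤ) : ℝ)| ≤ H * (B : ℝ) ^ k := by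
    intro i hi
    rw [Finset.mem_range] at hi
    have hB0 : (0 : ℝ) ≤ B := Nat.cast_nonneg _
    have ht' : |(t : ℝ)| ≤ B := by exact_mod_cast ht
    have hm' : |(m : ℝ)| ≤ B := by exact_mod_cast hm
    rw [Int.cast_mul, Int.cast_mul, abs_mul, abs_mul, Int.cast_pow, Int.cast_pow, abs_pow,
      abs_pow, mul_assoc]
    refine mul_le_mul (hf i) ?_ (by positivity) hH
    calc |(t : ℝ)| ^ i * |(m : ℝ)| ^ (k - i) ≤ (B : ℝ) ^ i * (B : ℝ) ^ (k - i) :=
          mul_le_mul (pow_le_pow_left₀ (abs_nonneg _) ht' _)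
            (pow_le_pow_left₀ (abs_nonneg _) hm' _) (by positivity) (by positivity)
      _ = (B : ℝ) ^ k := by rw [← pow_add]; congr 1; omega
  refine (Finset.sum_le_sum h1).trans (le_of_eq ?_)
  rw [Finset.sum_const, Finset.card_range, nsmul_eq_mul]
  push_cast
  ring

/-- the Campana points `t / m` of height at most `B` of a pair on the line -/
def CampL {r : ℕ} (k : Fin r → ℕ) (f : Fin r → ℤ[X]) (mu : Fin r → ℕ) (m : ℤ) (η : ℝ) (B : ℕ) :
    Set ℤ :=
  {t | |t| ≤ B ∧ ∃ S : Finset ℕ, ∑ p ∈ S, Real.log (p : ℝ) ≤ η * Real.log B ∧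
    ∀ j, (scale (k j) m (f j)).eval t ≠ 0 ∧ Full (mu j) S ((scale (k j) m (f j)).eval t)}

/-- **the Campana points of the pairs on the line, uniformly** -/
theorem line {r : ℕ} (k mu : Fin r → ℕ) (hk : ∀ j, 1 ≤ k j) {α η : ℝ}
    (hη : ∑ j, ((k j : ℝ) + α) / (mu j : ℝ) + η < ∑ j, ((min (k j) 2 : ℕ) : ℝ)) :
    ∃ c : ℝ, 0 < c ∧ ∃ C : ℝ, 0 < C ∧ ∀ B : ℕ, 1 ≤ B → ∀ f : Fin r → ℤ[X],
      (∀ j, (f j).natDegree = k j) → (∀ j i, |((f j).coeff i : ℝ)| ≤ (B : ℝ) ^ α) →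
      Squarefree ((∏ j, f j).map (Int.castRingHom ℚ)) → ∀ m : ℤ, m ≠ 0 → |m| ≤ B →
        ((CampL k f mu m η B).ncard : ℝ) ≤ C * (B : ℝ) ^ (1 - c) := by
  obtain ⟨θ', h1, h2⟩ := exists_between hη
  obtain ⟨θ, hθ⟩ : ∃ θ : ℝ, θ = θ' - η := ⟨_, rfl⟩
  obtain ⟨A, hA⟩ := exists_nat_ge α
  obtain ⟨c, hc, C, hC, hmain⟩ := final_den k hk (A + 1) θ η (by rw [hθ]; linarith)
  obtain ⟨D, hD⟩ : ∃ D : ℝ, D = ∑ j, (1 / (mu j : ℝ)) * Real.log ((k j : ℝ) + 1) := ⟨_, rfl⟩
  obtain ⟨δ, hδ⟩ : ∃ δ : ℝ, δ = θ - ∑ j, ((k j : ℝ) + α) / (mu j : ℝ) := ⟨_, rfl⟩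
  have hδ0 : 0 < δ := by rw [hδ, hθ]; linarith
  have hlim : Filter.Tendsto (fun B : ℕ => δ * Real.log (B : ℝ)) Filter.atTop Filter.atTop :=
    (Real.tendsto_log_atTop.comp tendsto_natCast_atTop_atTop).const_mul_atTop hδ0
  obtain ⟨T, hT⟩ := Filter.eventually_atTop.mp (hlim.eventually_gt_atTop D)
  have hc1 : min c 1 ≤ c := min_le_left _ _
  refine ⟨min c 1, lt_min hc one_pos, C + (2 * T + 1), by positivity,
    fun B hB f hf1 hf2 hf3 m hm hmB => ?_⟩
  have hB1 : (1 : ℝ) ≤ B := by exact_mod_cast hB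
  have hpw : (1 : ℝ) ≤ (B : ℝ) ^ (1 - min c 1) := by
    refine Real.one_le_rpow hB1 ?_
    linarith [min_le_right c 1]
  have hBZ : (1 : ℤ) ≤ (B : ℤ) := by exact_mod_cast hB
  have hpos : (0 : ℝ) ≤ (B : ℝ) ^ (1 - min c 1) := by linarith
  rcases le_or_gt T B with hTB | hTB
  · have hsub : CampL k f mu m η B ⊆ Exc (fun j => scale (k j) m (f j)) η θ B := by
      rintro t ⟨ht, S, hS, hfull⟩
      refine ⟨ht, Or.inr ⟨S, hS, ?_⟩⟩
      have h3 := logRad_prod_le S (fun j => (scale (k j) m (f j)).eval t) fun j => (hfull j).1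
      have h4 : ∀ j, logRad S ((scale (k j) m (f j)).eval t) ≤
          (1 / (mu j : ℝ)) * Real.log ((k j : ℝ) + 1) +
            ((k j : ℝ) + α) / (mu j : ℝ) * Real.log B := by
        intro j
        refine (full_rad (hfull j).1 (hfull j).2).trans ?_
        have h5 := value_le (k := k j) (H := (B : ℝ) ^ α) (by positivity) (hf2 j) hB ht hmB
        have h6 : (0 : ℝ) < |(((scale (k j) m (f j)).eval t : ℤ) : ℝ)| := by
          rw [abs_pos]
          exact_mod_cast (hfull j).1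
        have h7 := Real.log_le_log h6 h5
        rw [Real.log_mul (by positivity) (by positivity), Real.log_mul (by positivity)
          (by positivity), Real.log_rpow (by linarith), Real.log_pow] at h7
        calc (1 / (mu j : ℝ)) * Real.log |(((scale (k j) m (f j)).eval t : ℤ) : ℝ)| ≤
            (1 / (mu j : ℝ)) * (Real.log ((k j : ℝ) + 1) +
              (α * Real.log B + k j * Real.log B)) :=
              mul_le_mul_of_nonneg_left h7 (by positivity)
          _ = _ := by ring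
      have h5 : ∑ j, logRad S ((scale (k j) m (f j)).eval t) ≤
          D + (∑ j, ((k j : ℝ) + α) / (mu j : ℝ)) * Real.log B := by
        refine (Finset.sum_le_sum fun j _ => h4 j).trans (le_of_eq ?_)
        rw [Finset.sum_add_distrib, Finset.sum_mul, hD]
      have h6 := hT B hTB
      have h7 : δ * Real.log B = θ * Real.log B -
          (∑ j, ((k j : ℝ) + α) / (mu j : ℝ)) * Real.log B := by rw [hδ]; ring
      linarith
    have h3 : ((CampL k f mu m η B).ncard : ℝ) ≤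
        ((Exc (fun j => scale (k j) m (f j)) η θ B).ncard : ℝ) := by
      exact_mod_cast Set.ncard_le_ncard hsub (Exc_finite _ _ _ _)
    have h4 := hmain B hB f hf1 (fun j i => by
      have h5 : |((f j).coeff i : ℝ)| ≤ (B : ℝ) ^ (A + 1) := by
        refine (hf2 j i).trans ?_
        rw [← Real.rpow_natCast]
        refine Real.rpow_le_rpow_of_exponent_le hB1 ?_
        push_cast
        linarith
      exact_mod_cast h5) hf3 m hm (hmB.trans (by
        calc (B : ℤ) = (B : ℤ) ^ 1 := (pow_one _).symm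
          _ ≤ _ := pow_le_pow_right₀ hBZ (by omega)))
    have h5 : (B : ℝ) ^ (1 - c) ≤ (B : ℝ) ^ (1 - min c 1) :=
      Real.rpow_le_rpow_of_exponent_le hB1 (by linarith)
    have h6 : C * (B : ℝ) ^ (1 - c) ≤ C * (B : ℝ) ^ (1 - min c 1) :=
      mul_le_mul_of_nonneg_left h5 hC.le
    have h7 : 0 ≤ (2 * (T : ℝ) + 1) * (B : ℝ) ^ (1 - min c 1) := by positivity
    rw [add_mul]
    linarith
  · have h4 : (CampL k f mu m η B).ncard ≤ (Finset.Icc (-(B : ℤ)) B).card := by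
      rw [← Set.ncard_coe_finset]
      refine Set.ncard_le_ncard (fun t ht => ?_) (Finset.finite_toSet _)
      rw [Finset.mem_coe, Finset.mem_Icc, ← abs_le]
      exact ht.1
    have h5 : (Finset.Icc (-(B : ℤ)) B).card ≤ 2 * T + 1 := by
      rw [Int.card_Icc]
      omega
    have h6 : ((CampL k f mu m η B).ncard : ℝ) ≤ 2 * T + 1 := by exact_mod_cast h4.trans h5
    have h7 : (2 * (T : ℝ) + 1) * 1 ≤ (2 * T + 1) * (B : ℝ) ^ (1 - min c 1) :=
      mul_le_mul_of_nonneg_left hpw (by positivity)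
    have h8 : 0 ≤ C * (B : ℝ) ^ (1 - min c 1) := mul_nonneg hC.le hpos
    rw [add_mul]
    linarith

end Line

end Run7.h742.CP
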