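import Pool.Agent.Run7.h742.SZ.Fin

/-!
# The modified Szpiro inequality at integral points: power saving and one exceptional set (helper742)
-/

set_option autoImplicit false

namespace Run7.h742.SZ

open MvPolynomial Pool.Agent.TH910.Voj Pool.Agent.H813R3.Voj Run7.h742.VI

/-- the points at which the inequality with exponent `K` and constant `c` fails for some global
minimal equation with the property `A` -/
def Viol {n : ℕ} (F G : MvPolynomial (Fin (n + 1)) ℤ) (A : WeierstrassCurve ℤ → Prop) (K c : ℝ) :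
    Set (Fin (n + 1) → ℤ) :=
  {x | x 0 ≠ 0 ∧ ∃ W : WeierstrassCurve ℤ, GMin W ∧ A W ∧
    (eval x G ≠ 0 ∧ W.c₄ ^ 3 * eval x G = eval x F * W.Δ) ∧ c * (condW W : ℝ) ^ K < ht W}

theorem condW_one (W : WeierstrassCurve ℤ) : 1 ≤ condW W := by
  unfold condW
  refine Finset.one_le_prod' fun p hp => ?_
  have hpp := Nat.prime_of_mem_primeFactors (Finset.mem_filter.1 hp).1
  split_ifs
  · exact Nat.one_le_pow _ _ hpp.pos
  · exact hpp.one_le

theorem PS.small {n : ℕ} (hn : 1 ≤ n) (T : ℝ) : PS n {x | ((Ht x : ℕ) : ℝ) ≤ T} := by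
  refine PS.of_sparse hn (P := fun _ x => ((Ht x : ℕ) : ℝ) ≤ T)
    ((small_sparse hn).of_eventually (⌈T ^ 2⌉₊ + 1) ?_) _ fun B x _ _ _ hx => hx
  intro B x hB hB1 _ _ hx
  refine hx.trans ?_
  have h1 : T ^ 2 ≤ B := by
    have h2 : T ^ 2 ≤ (⌈T ^ 2⌉₊ : ℝ) := Nat.le_ceil _
    have h3 : ((⌈T ^ 2⌉₊ + 1 : ℕ) : ℝ) ≤ B := by exact_mod_cast hB
    push_cast at h3
    linarith
  rw [← Real.sqrt_eq_rpow]
  exact Real.le_sqrt_of_sq_le h1

/-- absorbing the constant -/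
theorem ps_of {n : ℕ} (hn : 1 ≤ n) (F G : MvPolynomial (Fin (n + 1)) ℤ) {Ex : Set (Fin (n + 1) → ℤ)}
    (hEx : PS n Ex) (A : WeierstrassCurve ℤ → Prop) {K C ρ : ℝ} (hρ : 0 < ρ)
    (H : ∀ x : Fin (n + 1) → ℤ, x 0 ≠ 0 → x ∉ Ex → ∀ W : WeierstrassCurve ℤ, GMin W → A W →
      (eval x G ≠ 0 ∧ W.c₄ ^ 3 * eval x G = eval x F * W.Δ) →
      Real.log (ht W) ≤ C + K * Real.log (condW W) ∧
        ρ * Real.log (Ht x) ≤ Real.log (condW W))
    {K' c : ℝ} (hK : K < K') (hc : 0 < c) : PS n (Viol F G A K' c) := by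
  refine (hEx.union (PS.small hn (Real.exp ((C - Real.log c) / (K' - K) / ρ)))).mono ?_
  rintro x ⟨hx, W, hW, hA, hj, hlt⟩
  by_cases hxE : x ∈ Ex
  · exact Or.inl hxE
  · right
    obtain ⟨h1, h2⟩ := H x hx hxE W hW hA hj
    have hN : (0 : ℝ) < condW W := by exact_mod_cast condW_one W
    have h3 := Real.log_lt_log (by positivity) hlt
    rw [Real.log_mul hc.ne' (by positivity), Real.log_rpow hN] at h3
    have h4 : (K' - K) * Real.log (condW W) < C - Real.log c := by linarith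
    have hKK : 0 < K' - K := by linarith
    have h5 : Real.log (condW W) < (C - Real.log c) / (K' - K) := by
      rw [lt_div_iff₀ hKK]
      linarith
    have h6 : Real.log (Ht x) < (C - Real.log c) / (K' - K) / ρ := by
      rw [lt_div_iff₀ hρ]
      linarith
    have hHt : (0 : ℝ) < Ht x := by exact_mod_cast Ht_pos hx
    show ((Ht x : ℕ) : ℝ) ≤ _
    rw [← Real.log_le_iff_le_exp hHt]
    exact h6.le

theorem weight_nonneg {q : ℕ} (k : Fin q → ℕ) : 0 ≤ ∑ j, ((min (k j) 2 : ℕ) : ℝ) :=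
  Finset.sum_nonneg fun _ _ => Nat.cast_nonneg _

/-- the pointwise bounds off a sparse set -/
theorem off {n q D : ℕ} (hn : 1 ≤ n) {F G : MvPolynomial (Fin (n + 1)) ℤ}
    {P : Fin q → MvPolynomial (Fin (n + 1)) ℤ} {k : Fin q → ℕ} (h : Inv D F G P k) {κ : ℝ}
    (hω : (D : ℝ) < κ * ∑ j, ((min (k j) 2 : ℕ) : ℝ)) :
    ∃ Ex : Set (Fin (n + 1) → ℤ), PS n Ex ∧ ∃ C ρ : ℝ, 0 < ρ ∧
      ∀ x : Fin (n + 1) → ℤ, x 0 ≠ 0 → x ∉ Ex → ∀ W : WeierstrassCurve ℤ, GMin W →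
      (eval x G ≠ 0 ∧ W.c₄ ^ 3 * eval x G = eval x F * W.Δ) →
      (IsCoprime W.c₄ W.Δ → Real.log (ht W) ≤ C + κ * Real.log (condW W)) ∧
      (∀ K : ℝ, κ ≤ K → 5 ≤ K → 3 + κ / 2 ≤ K →
        Real.log (ht W) ≤ C + K * Real.log (condW W)) ∧
        ρ * Real.log (Ht x) ≤ Real.log (condW W) := by
  obtain ⟨ω, hωd⟩ : ∃ ω : ℝ, ω = ∑ j, ((min (k j) 2 : ℕ) : ℝ) := ⟨_, rfl⟩
  have hω0 : 0 ≤ ω := by rw [hωd]; exact weight_nonneg k
  rw [← hωd] at hω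
  have hD : (0 : ℝ) ≤ D := Nat.cast_nonneg D
  have hκ : 0 < κ := by
    by_contra hcon
    push Not at hcon
    have := mul_nonpos_of_nonpos_of_nonneg hcon hω0
    linarith
  have h1 : (D : ℝ) / κ < ω := by
    rw [div_lt_iff₀ hκ]
    linarith
  have hq : (0 : ℝ) < (q : ℝ) + 2 := by positivity
  obtain ⟨δ, hδ⟩ : ∃ δ : ℝ, δ = (ω - D / κ) / ((q : ℝ) + 2) := ⟨_, rfl⟩
  have hδ0 : 0 < δ := by
    rw [hδ]
    exact div_pos (by linarith) hq
  have hδe : ω - δ - q * δ = D / κ + δ := by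
    have : ((q : ℝ) + 2) * δ = ω - D / κ := by rw [hδ]; field_simp
    linarith
  obtain ⟨S, C₀, hC₀, hp⟩ := point h
  obtain ⟨hc1, hc2, hc3, hc4⟩ := h.comps
  refine ⟨Bad P S (ω - δ) ∪ ⋃ j, GB (P j) F δ, ?_, C₀, D / κ + δ, by positivity, ?_⟩
  · refine PS.union (bad_single hn P k h.comps S (ω - δ) (by rw [← hωd]; linarith)) ?_
    exact PS.iUnion fun j => gcd_single hn (P j) F (hc1 j) h.hF (hc2 j) (hc4 j) (h.ndvd j) hδ0
  · intro x hx hxE W hW hj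
    rw [Set.mem_union, not_or, Set.mem_iUnion] at hxE
    push Not at hxE
    obtain ⟨r, m, a, hr, hm, ha, e1, e2, e3, e4⟩ := hp x hx W hW hj.1 hj.2
    have e5 := e4 (ω - δ) δ hxE.1 hxE.2
    rw [hδe] at e5
    have hlog : 0 ≤ Real.log (Ht x) := Real.log_natCast_nonneg _
    have e6 : D * Real.log (Ht x) ≤ κ * (r + m) := by
      have e7 : D / κ * Real.log (Ht x) ≤ r + m := by nlinarith
      calc D * Real.log (Ht x) = κ * (D / κ * Real.log (Ht x)) := by field_simp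
        _ ≤ κ * (r + m) := mul_le_mul_of_nonneg_left e7 hκ.le
    refine ⟨fun hs => ?_, fun K hK1 hK2 hK3 => ?_, by linarith⟩
    · obtain ⟨rfl, rfl⟩ := e3 hs
      have e7 : κ * r ≤ κ * Real.log (condW W) :=
        mul_le_mul_of_nonneg_left (by linarith) hκ.le
      linarith
    · have e7 : K * (r + 2 * m + 2 * a) ≤ K * Real.log (condW W) :=
        mul_le_mul_of_nonneg_left e2 (by linarith)
      have e8 : 0 ≤ (K - κ) * r := mul_nonneg (by linarith) hr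
      have e9 : 0 ≤ (2 * K - 6 - κ) * m := mul_nonneg (by linarith) hm
      have e10 : 0 ≤ (2 * K - 10) * a := mul_nonneg (by linarith) ha
      nlinarith

/-- semistable curves: power saving -/
theorem semi_ps {n q D : ℕ} (hn : 1 ≤ n) {F G : MvPolynomial (Fin (n + 1)) ℤ}
    {P : Fin q → MvPolynomial (Fin (n + 1)) ℤ} {k : Fin q → ℕ} (h : Inv D F G P k) {κ c : ℝ}
    (hω : (D : ℝ) < κ * ∑ j, ((min (k j) 2 : ℕ) : ℝ)) (hc : 0 < c) :
    PS n (Viol F G (fun W => IsCoprime W.c₄ W.Δ) κ c) := by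
  obtain ⟨κ', hκ', hω'⟩ : ∃ κ' : ℝ, κ' < κ ∧ (D : ℝ) < κ' * ∑ j, ((min (k j) 2 : ℕ) : ℝ) := by
    obtain ⟨ω, hωd⟩ : ∃ ω : ℝ, ω = ∑ j, ((min (k j) 2 : ℕ) : ℝ) := ⟨_, rfl⟩
    have hω0 : 0 ≤ ω := by rw [hωd]; exact weight_nonneg k
    rw [← hωd] at hω ⊢
    have hD : (0 : ℝ) ≤ D := Nat.cast_nonneg D
    have hω1 : 0 < ω := lt_of_le_of_ne hω0 (by rintro rfl; simp at hω; linarith)
    refine ⟨(D / ω + κ) / 2, ?_, ?_⟩
    · have : D / ω < κ := by rw [div_lt_iff₀ hω1]; exact hω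
      linarith
    · have : D / ω < κ := by rw [div_lt_iff₀ hω1]; exact hω
      have h2 : D / ω * ω = D := by field_simp
      nlinarith
  obtain ⟨Ex, hEx, C, ρ, hρ, H⟩ := off hn h hω'
  refine ps_of hn F G hEx _ (K := κ') (C := C) hρ (fun x hx hxE W hW hA hj => ?_) hκ' hc
  obtain ⟨h1, -, h3⟩ := H x hx hxE W hW hj
  exact ⟨h1 hA, h3⟩

/-- all curves: power saving -/
theorem all_ps {n q D : ℕ} (hn : 1 ≤ n) {F G : MvPolynomial (Fin (n + 1)) ℤ}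
    {P : Fin q → MvPolynomial (Fin (n + 1)) ℤ} {k : Fin q → ℕ} (h : Inv D F G P k) {K c : ℝ}
    (hK5 : 5 < K) (hK1 : (D : ℝ) < K * ∑ j, ((min (k j) 2 : ℕ) : ℝ))
    (hK2 : (D : ℝ) < (2 * K - 6) * ∑ j, ((min (k j) 2 : ℕ) : ℝ)) (hc : 0 < c) :
    PS n (Viol F G (fun _ => True) K c) := by
  obtain ⟨ω, hωd⟩ : ∃ ω : ℝ, ω = ∑ j, ((min (k j) 2 : ℕ) : ℝ) := ⟨_, rfl⟩
  have hω0 : 0 ≤ ω := by rw [hωd]; exact weight_nonneg k
  rw [← hωd] at hK1 hK2
  have hD : (0 : ℝ) ≤ D := Nat.cast_nonneg D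
  have hω1 : 0 < ω := lt_of_le_of_ne hω0 (by rintro rfl; simp at hK1; linarith)
  have h1 : D / ω < K := by rw [div_lt_iff₀ hω1]; exact hK1
  have h2 : D / ω < 2 * K - 6 := by rw [div_lt_iff₀ hω1]; exact hK2
  have h3 : D / ω * ω = D := by field_simp
  -- a smaller exponent
  obtain ⟨K', hK'5, hK'1, hK'2, hK'⟩ : ∃ K' : ℝ, 5 ≤ K' ∧ D / ω < K' ∧ D / ω < 2 * K' - 6 ∧
      K' < K := by
    refine ⟨(K + max 5 (max (D / ω) (3 + D / ω / 2))) / 2, ?_, ?_, ?_, ?_⟩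
    · have := le_max_left (5 : ℝ) (max (D / ω) (3 + D / ω / 2))
      linarith
    · have := (le_max_left (D / ω) (3 + D / ω / 2)).trans
        (le_max_right (5 : ℝ) (max (D / ω) (3 + D / ω / 2)))
      linarith
    · have := (le_max_right (D / ω) (3 + D / ω / 2)).trans
        (le_max_right (5 : ℝ) (max (D / ω) (3 + D / ω / 2)))
      linarith
    · have : max 5 (max (D / ω) (3 + D / ω / 2)) < K :=
        max_lt hK5 (max_lt h1 (by linarith))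
      linarith
  obtain ⟨Ex, hEx, C, ρ, hρ, H⟩ := off hn h (κ := min K' (2 * K' - 6)) (by
    rw [← hωd]
    have h4 : D / ω < min K' (2 * K' - 6) := lt_min hK'1 hK'2
    nlinarith)
  refine ps_of hn F G hEx _ (K := K') (C := C) hρ (fun x hx hxE W hW hA hj => ?_) hK' hc
  obtain ⟨-, h4, h5⟩ := H x hx hxE W hW hj
  refine ⟨h4 K' (min_le_left _ _) hK'5 ?_, h5⟩
  have := min_le_right K' (2 * K' - 6)
  linarith

/-- the points of small height -/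
theorem small_ht {n q D : ℕ} {F G : MvPolynomial (Fin (n + 1)) ℤ}
    {P : Fin q → MvPolynomial (Fin (n + 1)) ℤ} {k : Fin q → ℕ} (h : Inv D F G P k) (T : ℕ) :
    ∃ C : ℝ, 0 < C ∧ ∀ x : Fin (n + 1) → ℤ, x 0 ≠ 0 → Ht x ≤ T →
      ∀ W : WeierstrassCurve ℤ, GMin W →
      (eval x G ≠ 0 ∧ W.c₄ ^ 3 * eval x G = eval x F * W.Δ) →
      (IsCoprime W.c₄ W.Δ → ∀ K : ℝ, 0 ≤ K → ht W ≤ C * (condW W : ℝ) ^ K) ∧
      ∀ K : ℝ, 5 ≤ K → ht W ≤ C * (condW W : ℝ) ^ K := by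
  obtain ⟨S, C₀, hC₀, hp⟩ := point h
  refine ⟨Real.exp (C₀ + D * Real.log T), Real.exp_pos _, fun x hx hT W hW hj => ?_⟩
  obtain ⟨r, m, a, hr, hm, ha, e1, e2, e3, -⟩ := hp x hx W hW hj.1 hj.2
  have hN : (1 : ℝ) ≤ condW W := by exact_mod_cast condW_one W
  have hN0 : (0 : ℝ) < condW W := by linarith
  have hHt : (0 : ℝ) < Ht x := by exact_mod_cast Ht_pos hx
  have hlogN : 0 ≤ Real.log (condW W) := Real.log_nonneg hN
  have e5 : D * Real.log (Ht x) ≤ D * Real.log T :=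
    mul_le_mul_of_nonneg_left (Real.log_le_log hHt (by exact_mod_cast hT)) (Nat.cast_nonneg D)
  have key : ∀ K : ℝ, Real.log (ht W) ≤ C₀ + D * Real.log T + K * Real.log (condW W) →
      ht W ≤ Real.exp (C₀ + D * Real.log T) * (condW W : ℝ) ^ K := by
    intro K hK
    rw [← Real.log_le_log_iff (ht_pos hW) (by positivity), Real.log_mul (by positivity)
      (by positivity), Real.log_exp, Real.log_rpow hN0]
    exact hK
  refine ⟨fun hs K hK => key K ?_, fun K hK => key K ?_⟩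
  · obtain ⟨rfl, rfl⟩ := e3 hs
    have := mul_nonneg hK hlogN
    linarith
  · have e6 : K * (r + 2 * m + 2 * a) ≤ K * Real.log (condW W) :=
      mul_le_mul_of_nonneg_left e2 (by linarith)
    have e8 : 0 ≤ K * r := mul_nonneg (by linarith) hr
    have e9 : 0 ≤ (2 * K - 6) * m := mul_nonneg (by linarith) hm
    have e10 : 0 ≤ (2 * K - 10) * a := mul_nonneg (by linarith) ha
    nlinarith

/-- **one exceptional set** -/
theorem univ_main {n : ℕ} (hn : 1 ≤ n) :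
    ∃ E : Set (Fin (n + 1) → ℤ), (∀ ε : ℝ, 0 < ε → ∃ B₀ : ℕ, ∀ B : ℕ, B₀ ≤ B → ∀ M : Set ℕ,
        (Set.ncard {x | x ∈ Pts n M B ∧ x ∈ E} : ℝ) ≤ ε * (Pts n M B).ncard) ∧
      ∀ (D q : ℕ) (F G : MvPolynomial (Fin (n + 1)) ℤ)
        (P : Fin q → MvPolynomial (Fin (n + 1)) ℤ) (k : Fin q → ℕ), Inv D F G P k →
        (∀ κ : ℝ, (D : ℝ) < κ * ∑ j, ((min (k j) 2 : ℕ) : ℝ) → ∃ C : ℝ, 0 < C ∧
          ∀ x : Fin (n + 1) → ℤ, x 0 ≠ 0 → x ∉ E → ∀ W : WeierstrassCurve ℤ, GMin W →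
            IsCoprime W.c₄ W.Δ → (eval x G ≠ 0 ∧ W.c₄ ^ 3 * eval x G = eval x F * W.Δ) →
              ht W ≤ C * (condW W : ℝ) ^ κ) ∧
        (∀ K : ℝ, 5 < K → (D : ℝ) < K * ∑ j, ((min (k j) 2 : ℕ) : ℝ) →
          (D : ℝ) < (2 * K - 6) * ∑ j, ((min (k j) 2 : ℕ) : ℝ) → ∃ C : ℝ, 0 < C ∧
          ∀ x : Fin (n + 1) → ℤ, x 0 ≠ 0 → x ∉ E → ∀ W : WeierstrassCurve ℤ, GMin W →
            (eval x G ≠ 0 ∧ W.c₄ ^ 3 * eval x G = eval x F * W.Δ) →
              ht W ≤ C * (condW W : ℝ) ^ K) := by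
  classical
  have hcount : Countable (MvPolynomial (Fin (n + 1)) ℤ) := countable_polyZ (n + 1)
  let J := ((q : ℕ) × ((Fin q → MvPolynomial (Fin (n + 1)) ℤ) × (Fin q → ℕ))) ×
    (ℕ × MvPolynomial (Fin (n + 1)) ℤ × MvPolynomial (Fin (n + 1)) ℤ) × ℚ
  have hJ : Countable J := by infer_instance
  have hJne : Nonempty J := ⟨(⟨0, Fin.elim0, Fin.elim0⟩, (0, 0, 0), 0)⟩
  let om : J → ℝ := fun d => ∑ j, ((min (d.1.2.2 j) 2 : ℕ) : ℝ)
  let Es : J → Set (Fin (n + 1) → ℤ) := fun d =>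
    (if Inv d.2.1.1 d.2.1.2.1 d.2.1.2.2 d.1.2.1 d.1.2.2 ∧ (d.2.1.1 : ℝ) < (d.2.2 : ℝ) * om d then
      Viol d.2.1.2.1 d.2.1.2.2 (fun W => IsCoprime W.c₄ W.Δ) (d.2.2 : ℝ) 1 else ∅) ∪
    (if Inv d.2.1.1 d.2.1.2.1 d.2.1.2.2 d.1.2.1 d.1.2.2 ∧ 5 < (d.2.2 : ℝ) ∧
        (d.2.1.1 : ℝ) < (d.2.2 : ℝ) * om d ∧ (d.2.1.1 : ℝ) < (2 * (d.2.2 : ℝ) - 6) * om d then
      Viol d.2.1.2.1 d.2.1.2.2 (fun _ => True) (d.2.2 : ℝ) 1 else ∅)
  obtain ⟨E, hE1, hE2⟩ := universal_of_countable Es (by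
    intro d
    refine PS.union ?_ ?_
    · split_ifs with hd
      · exact semi_ps hn hd.1 hd.2 one_pos
      · exact PS.empty n
    · split_ifs with hd
      · exact all_ps hn hd.1 hd.2.1 hd.2.2.1 hd.2.2.2 one_pos
      · exact PS.empty n)
  refine ⟨E, hE1, fun D q F G P k h => ⟨fun κ hκ => ?_, fun K hK5 hK1 hK2 => ?_⟩⟩
  · obtain ⟨ω, hωd⟩ : ∃ ω : ℝ, ω = ∑ j, ((min (k j) 2 : ℕ) : ℝ) := ⟨_, rfl⟩
    have hω0 : 0 ≤ ω := by rw [hωd]; exact weight_nonneg k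
    have hD : (0 : ℝ) ≤ D := Nat.cast_nonneg D
    rw [← hωd] at hκ
    have hω1 : 0 < ω := lt_of_le_of_ne hω0 (by rintro rfl; simp at hκ; linarith)
    have h1 : D / ω < κ := by rw [div_lt_iff₀ hω1]; exact hκ
    obtain ⟨κ', hκ'1, hκ'2⟩ := exists_rat_btwn h1
    have h2 : (D : ℝ) < (κ' : ℝ) * ω := by rwa [div_lt_iff₀ hω1] at hκ'1
    have hκ0 : 0 ≤ κ := le_trans (by positivity) h1.le
    obtain ⟨T, hT⟩ := hE2 (⟨q, P, k⟩, (D, F, G), κ')
    obtain ⟨C, hC, hsm⟩ := small_ht h T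
    refine ⟨max C 1, by positivity, fun x hx hxE W hW hs hj => ?_⟩
    have hN : (1 : ℝ) ≤ condW W := by exact_mod_cast condW_one W
    by_cases hTx : Ht x ≤ T
    · refine (((hsm x hx hTx W hW hj).1 hs) κ hκ0).trans ?_
      exact mul_le_mul_of_nonneg_right (le_max_left _ _) (by positivity)
    · push Not at hTx
      by_contra hcon
      push Not at hcon
      refine hxE (hT x (Or.inl ?_) hTx)
      have hcond : Inv D F G P k ∧ (D : ℝ) < (κ' : ℝ) * om (⟨q, P, k⟩, (D, F, G), κ') := by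
        refine ⟨h, ?_⟩
        show (D : ℝ) < (κ' : ℝ) * ∑ j, ((min (k j) 2 : ℕ) : ℝ)
        rw [← hωd]
        exact h2
      have he : (if Inv D F G P k ∧ (D : ℝ) < (κ' : ℝ) * om (⟨q, P, k⟩, (D, F, G), κ') then
          Viol F G (fun W => IsCoprime W.c₄ W.Δ) (κ' : ℝ) 1 else ∅) =
          Viol F G (fun W => IsCoprime W.c₄ W.Δ) (κ' : ℝ) 1 := if_pos hcond
      show x ∈ (if Inv D F G P k ∧ (D : ℝ) < (κ' : ℝ) * om (⟨q, P, k⟩, (D, F, G), κ') then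
          Viol F G (fun W => IsCoprime W.c₄ W.Δ) (κ' : ℝ) 1 else ∅)
      rw [he]
      refine ⟨hx, W, hW, hs, hj, lt_of_le_of_lt ?_ hcon⟩
      exact mul_le_mul (le_max_right _ _) (Real.rpow_le_rpow_of_exponent_le hN hκ'2.le)
        (by positivity) (by positivity)
  · obtain ⟨ω, hωd⟩ : ∃ ω : ℝ, ω = ∑ j, ((min (k j) 2 : ℕ) : ℝ) := ⟨_, rfl⟩
    have hω0 : 0 ≤ ω := by rw [hωd]; exact weight_nonneg k
    have hD : (0 : ℝ) ≤ D := Nat.cast_nonneg D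
    rw [← hωd] at hK1 hK2
    have hω1 : 0 < ω := lt_of_le_of_ne hω0 (by rintro rfl; simp at hK1; linarith)
    have h1 : D / ω < K := by rw [div_lt_iff₀ hω1]; exact hK1
    have h2 : D / ω < 2 * K - 6 := by rw [div_lt_iff₀ hω1]; exact hK2
    obtain ⟨K', hK'1, hK'2⟩ := exists_rat_btwn
      (max_lt hK5 (max_lt h1 (by linarith : 3 + D / ω / 2 < K)))
    have k1 : 5 < (K' : ℝ) := lt_of_le_of_lt (le_max_left _ _) hK'1
    have k2 : D / ω < (K' : ℝ) := lt_of_le_of_lt ((le_max_left (D / ω) (3 + D / ω / 2)).trans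
        (le_max_right (5 : ℝ) _)) hK'1
    have k3 : 3 + D / ω / 2 < (K' : ℝ) := lt_of_le_of_lt
      ((le_max_right (D / ω) (3 + D / ω / 2)).trans (le_max_right (5 : ℝ) _)) hK'1
    have k4 : (D : ℝ) < (K' : ℝ) * ω := by rwa [div_lt_iff₀ hω1] at k2
    have k5 : (D : ℝ) < (2 * (K' : ℝ) - 6) * ω := by
      rw [← div_lt_iff₀ hω1]
      linarith
    obtain ⟨T, hT⟩ := hE2 (⟨q, P, k⟩, (D, F, G), K')
    obtain ⟨C, hC, hsm⟩ := small_ht h T
    refine ⟨max C 1, by positivity, fun x hx hxE W hW hj => ?_⟩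
    have hN : (1 : ℝ) ≤ condW W := by exact_mod_cast condW_one W
    by_cases hTx : Ht x ≤ T
    · refine ((hsm x hx hTx W hW hj).2 K hK5.le).trans ?_
      exact mul_le_mul_of_nonneg_right (le_max_left _ _) (by positivity)
    · push Not at hTx
      by_contra hcon
      push Not at hcon
      refine hxE (hT x (Or.inr ?_) hTx)
      have hcond : Inv D F G P k ∧ 5 < (K' : ℝ) ∧
          (D : ℝ) < (K' : ℝ) * om (⟨q, P, k⟩, (D, F, G), K') ∧
          (D : ℝ) < (2 * (K' : ℝ) - 6) * om (⟨q, P, k⟩, (D, F, G), K') := by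
        refine ⟨h, k1, ?_, ?_⟩
        · show (D : ℝ) < (K' : ℝ) * ∑ j, ((min (k j) 2 : ℕ) : ℝ)
          rw [← hωd]
          exact k4
        · show (D : ℝ) < (2 * (K' : ℝ) - 6) * ∑ j, ((min (k j) 2 : ℕ) : ℝ)
          rw [← hωd]
          exact k5
      have he : (if Inv D F G P k ∧ 5 < (K' : ℝ) ∧
          (D : ℝ) < (K' : ℝ) * om (⟨q, P, k⟩, (D, F, G), K') ∧
          (D : ℝ) < (2 * (K' : ℝ) - 6) * om (⟨q, P, k⟩, (D, F, G), K') then
          Viol F G (fun _ => True) (K' : ℝ) 1 else ∅) =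
          Viol F G (fun _ => True) (K' : ℝ) 1 := if_pos hcond
      show x ∈ (if Inv D F G P k ∧ 5 < (K' : ℝ) ∧
          (D : ℝ) < (K' : ℝ) * om (⟨q, P, k⟩, (D, F, G), K') ∧
          (D : ℝ) < (2 * (K' : ℝ) - 6) * om (⟨q, P, k⟩, (D, F, G), K') then
          Viol F G (fun _ => True) (K' : ℝ) 1 else ∅)
      rw [he]
      refine ⟨hx, W, hW, trivial, hj, lt_of_le_of_lt ?_ hcon⟩
      exact mul_le_mul (le_max_right _ _) (Real.rpow_le_rpow_of_exponent_le hN hK'2.le)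
        (by positivity) (by positivity)

end Run7.h742.SZ
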