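import Pool.Agent.Run7.h742.SZ.Fh3

/-!
# Frey's inequality: power saving and one exceptional set (helper742)
-/

set_option autoImplicit false
set_option linter.unusedSectionVars false

namespace Run7.h742.SZ

open NumberField IsDedekindDomain Height MvPolynomial Run7.h742.VI
open Pool.Agent.TH876.FH (GoodAt IsPeriod arch)
open Pool.Agent.Y733.FF Pool.Agent.H691R3 Pool.Agent.W223.AK Pool.Agent.Y733.LS
open Pool.Agent.N365.FH

/-- a good `θ` for finitely many strict conditions -/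
theorem exists_th {D ω c : ℝ} (hD : 0 ≤ D) (h : D < c * ω) (hω : 0 ≤ ω) :
    ∃ θ : ℝ, 0 < θ ∧ θ < ω ∧ D < c * θ := by
  have hω0 : 0 < ω := by
    rcases hω.eq_or_lt with h0 | h0
    · rw [← h0] at h
      linarith
    · exact h0
  have hc : 0 < c := by
    by_contra hcon
    rw [not_lt] at hcon
    nlinarith
  refine ⟨(D / c + ω) / 2, by positivity, ?_, ?_⟩
  · have : D / c < ω := by rw [div_lt_iff₀ hc]; linarith
    linarith
  · have h1 : c * ((D / c + ω) / 2) = (D + c * ω) / 2 := by field_simp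
    rw [h1]
    linarith

/-- power saving: the stable height -/
theorem stab_ps {n q D : ℕ} (hn : 1 ≤ n) {F G : MvPolynomial (Fin (n + 1)) ℤ}
    {P : Fin q → MvPolynomial (Fin (n + 1)) ℤ} {k : Fin q → ℕ} (h : Inv D F G P k) {κ : ℝ}
    (hκ : (D : ℝ) < 12 * κ * ∑ j, ((min (k j) 2 : ℕ) : ℝ)) (c₀ : ℝ) :
    PS n {x | x 0 ≠ 0 ∧ ∃ (L : Type) (_ : Field L) (_ : NumberField L) (E : WeierstrassCurve L)
      (τ : InfinitePlace L → UpperHalfPlane), Has F G x E τ ∧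
      κ * lc ℚ E < stab E τ / 12 + c₀ * Module.finrank ℚ L} := by
  have hω : 0 ≤ ∑ j, ((min (k j) 2 : ℕ) : ℝ) := Finset.sum_nonneg fun j _ => Nat.cast_nonneg _
  obtain ⟨θ, h1, h2, h3⟩ := exists_th (Nat.cast_nonneg D) hκ hω
  obtain ⟨T, hT⟩ := stab_point h.hF h.hG h3 h1 c₀
  refine (PS.union (many_ps hn h h2) (PS.small hn T)).mono ?_
  rintro x ⟨hx, L, iF, iN, E, τ, hE, hlt⟩
  by_contra hcon
  rw [Set.mem_union, not_or] at hcon
  obtain ⟨c1, c2⟩ := hcon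
  have hM : ManyP F G θ x := by
    by_contra hM
    exact c1 ⟨hx, hM⟩
  have hTx : T < Ht x := by
    by_contra hT'
    exact c2 (show ((Ht x : ℕ) : ℝ) ≤ (T : ℝ) by exact_mod_cast not_lt.1 hT')
  exact absurd (hT x hx hTx hM L E τ hE) (not_le.2 hlt)

/-- power saving: the unstable height -/
theorem unst_ps {n q D : ℕ} (hn : 1 ≤ n) {F G : MvPolynomial (Fin (n + 1)) ℤ}
    {P : Fin q → MvPolynomial (Fin (n + 1)) ℤ} {k : Fin q → ℕ} (h : Inv D F G P k) {κ : ℝ}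
    (hκ : (D : ℝ) < 12 * κ * ∑ j, ((min (k j) 2 : ℕ) : ℝ))
    (hκ' : (D : ℝ) < (24 * κ - 6) * ∑ j, ((min (k j) 2 : ℕ) : ℝ)) (hκ5 : 5 ≤ 12 * κ) (c₀ : ℝ) :
    PS n {x | x 0 ≠ 0 ∧ ∃ (K L : Type) (_ : Field K) (_ : NumberField K) (_ : Field L)
      (_ : NumberField L) (_ : Algebra K L) (E : WeierstrassCurve L)
      (τ : InfinitePlace L → UpperHalfPlane), Has F G x E τ ∧
      κ * lc K E < (discSum E + ∑ w : InfinitePlace L, (w.mult : ℝ) * arch (τ w) + 6 * rd K L) /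
          (12 * Module.finrank ℚ K) + c₀ * Module.finrank K L} := by
  have hω : 0 ≤ ∑ j, ((min (k j) 2 : ℕ) : ℝ) := Finset.sum_nonneg fun j _ => Nat.cast_nonneg _
  obtain ⟨θ1, a1, a2, a3⟩ := exists_th (Nat.cast_nonneg D) hκ hω
  obtain ⟨θ2, b1, b2, b3⟩ := exists_th (Nat.cast_nonneg D) hκ' hω
  have hc1 : 0 ≤ 12 * κ := by linarith
  have hc2 : 0 ≤ 24 * κ - 6 := by
    by_contra hcon
    rw [not_le] at hcon
    have hD : (0 : ℝ) ≤ D := Nat.cast_nonneg _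
    nlinarith
  obtain ⟨T, hT⟩ := unst_point h.hF h.hG (κ := κ) (θ := max θ1 θ2)
    (a3.trans_le (mul_le_mul_of_nonneg_left (le_max_left _ _) hc1))
    (b3.trans_le (mul_le_mul_of_nonneg_left (le_max_right _ _) hc2)) hκ5
    (a1.trans_le (le_max_left _ _)) c₀
  refine (PS.union (many_ps hn h (max_lt a2 b2)) (PS.small hn T)).mono ?_
  rintro x ⟨hx, K, L, iK, iNK, iL, iNL, iA, E, τ, hE, hlt⟩
  by_contra hcon
  rw [Set.mem_union, not_or] at hcon
  obtain ⟨c1, c2⟩ := hcon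
  have hM : ManyP F G (max θ1 θ2) x := by
    by_contra hM
    exact c1 ⟨hx, hM⟩
  have hTx : T < Ht x := by
    by_contra hT'
    exact c2 (show ((Ht x : ℕ) : ℝ) ≤ (T : ℝ) by exact_mod_cast not_lt.1 hT')
  exact absurd (hT x hx hTx hM K L E τ hE) (not_le.2 hlt)

/-- **one exceptional set** -/
theorem frey_univ {n : ℕ} (hn : 1 ≤ n) :
    ∃ E₀ : Set (Fin (n + 1) → ℤ), (∀ ε : ℝ, 0 < ε → ∃ B₀ : ℕ, ∀ B : ℕ, B₀ ≤ B → ∀ M : Set ℕ,
        (Set.ncard {x | x ∈ Pts n M B ∧ x ∈ E₀} : ℝ) ≤ ε * (Pts n M B).ncard) ∧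
      ∀ (D q : ℕ) (F G : MvPolynomial (Fin (n + 1)) ℤ)
        (P : Fin q → MvPolynomial (Fin (n + 1)) ℤ) (k : Fin q → ℕ), Inv D F G P k →
        (∀ κ : ℝ, (D : ℝ) < 12 * κ * (∑ j, ((min (k j) 2 : ℕ) : ℝ)) → ∃ C : ℝ, 0 ≤ C ∧
          ∀ x : Fin (n + 1) → ℤ, x 0 ≠ 0 → x ∉ E₀ →
          ∀ (L : Type) [Field L] [NumberField L] (E : WeierstrassCurve L)
            (τ : InfinitePlace L → UpperHalfPlane), Has F G x E τ →
            stab E τ / 12 ≤ κ * lc ℚ E + C * Module.finrank ℚ L) ∧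
        (∀ κ : ℝ, (D : ℝ) < 12 * κ * (∑ j, ((min (k j) 2 : ℕ) : ℝ)) →
          (D : ℝ) < (24 * κ - 6) * (∑ j, ((min (k j) 2 : ℕ) : ℝ)) → 5 ≤ 12 * κ →
          ∃ C : ℝ, 0 ≤ C ∧ ∀ x : Fin (n + 1) → ℤ, x 0 ≠ 0 → x ∉ E₀ →
          ∀ (K L : Type) [Field K] [NumberField K] [Field L] [NumberField L] [Algebra K L]
            (E : WeierstrassCurve L) (τ : InfinitePlace L → UpperHalfPlane), Has F G x E τ →
            (discSum E + ∑ w : InfinitePlace L, (w.mult : ℝ) * arch (τ w) + 6 * rd K L) /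
              (12 * Module.finrank ℚ K) ≤ κ * lc K E + C * Module.finrank K L) := by
  obtain ⟨E₀, hE₀, hall⟩ := many_univ hn
  refine ⟨E₀, hE₀, fun D q F G P k h => ?_⟩
  have hω : 0 ≤ ∑ j, ((min (k j) 2 : ℕ) : ℝ) := Finset.sum_nonneg fun j _ => Nat.cast_nonneg _
  have hD : (0 : ℝ) ≤ D := Nat.cast_nonneg _
  refine ⟨fun κ hκ => ?_, fun κ hκ hκ' hκ5 => ?_⟩
  · obtain ⟨θ, h1, h2, h3⟩ := exists_th hD hκ hω
    have hκ0 : 0 ≤ κ := by
      by_contra hcon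
      rw [not_le] at hcon
      nlinarith
    obtain ⟨T1, hT1⟩ := hall D q F G P k h θ h2
    obtain ⟨T2, hT2⟩ := stab_point h.hF h.hG h3 h1 0
    obtain ⟨C, hC, hsm⟩ := stab_small h.hF h.hG hκ0 (max T1 T2)
    refine ⟨C, hC, fun x hx hxE L _ _ E τ hE => ?_⟩
    rcases le_or_gt (Ht x) (max T1 T2) with h4 | h4
    · exact hsm x hx h4 L E τ hE
    · have h5 := hT2 x hx ((le_max_right _ _).trans_lt h4)
        (hT1 x hx hxE ((le_max_left _ _).trans_lt h4)) L E τ hE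
      have h6 : 0 ≤ C * Module.finrank ℚ L := mul_nonneg hC (Nat.cast_nonneg _)
      linarith
  · obtain ⟨θ1, a1, a2, a3⟩ := exists_th hD hκ hω
    obtain ⟨θ2, b1, b2, b3⟩ := exists_th hD hκ' hω
    have hc1 : 0 ≤ 12 * κ := by linarith
    have hc2 : 0 ≤ 24 * κ - 6 := by
      by_contra hcon
      rw [not_le] at hcon
      nlinarith
    obtain ⟨T1, hT1⟩ := hall D q F G P k h (max θ1 θ2) (max_lt a2 b2)
    obtain ⟨T2, hT2⟩ := unst_point h.hF h.hG (κ := κ) (θ := max θ1 θ2)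
      (a3.trans_le (mul_le_mul_of_nonneg_left (le_max_left _ _) hc1))
      (b3.trans_le (mul_le_mul_of_nonneg_left (le_max_right _ _) hc2)) hκ5
      (a1.trans_le (le_max_left _ _)) 0
    obtain ⟨C, hC, hsm⟩ := unst_small h.hF h.hG hκ5 (max T1 T2)
    refine ⟨C, hC, fun x hx hxE K L _ _ _ _ _ E τ hE => ?_⟩
    rcases le_or_gt (Ht x) (max T1 T2) with h4 | h4
    · exact hsm x hx h4 K L E τ hE
    · have h5 := hT2 x hx ((le_max_right _ _).trans_lt h4)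
        (hT1 x hx hxE ((le_max_left _ _).trans_lt h4)) K L E τ hE
      have h6 : 0 ≤ C * Module.finrank K L := mul_nonneg hC (Nat.cast_nonneg _)
      linarith

end Run7.h742.SZ
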