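import Pool.Agent.Run7.h742.SZ.St
import Pool.Agent.Y557.OE.SetW

/-!
# Points of curves over the values of rational functions at integral points (helper742)
-/

set_option autoImplicit false
set_option linter.unusedSectionVars false

namespace Run7.h742.CU

open NumberField IsDedekindDomain Height MvPolynomial
open Pool.Agent.TH910.Voj Run7.h742.VI Run7.h742.SZ Run7.h742.CP Run7.h742.ST
open Pool.Agent.N365.FH (le_norm not_mem_of sum_le_fs)
open Pool.Agent.Y729.RV (Nr cnt)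
open Pool.Agent.Y557.OE (prx)

/-- a rational function `F / G` on affine space and hypersurfaces `P i` on which it takes the
value `a (j i)` -/
structure Data {n q r : ℕ} (D : ℕ) (F G : MvPolynomial (Fin (n + 1)) ℤ) (a : Fin q → ℚ)
    (P : Fin r → MvPolynomial (Fin (n + 1)) ℤ) (k : Fin r → ℕ) (j : Fin r → Fin q) : Prop where
  hF : F.IsHomogeneous D
  hG : G.IsHomogeneous D
  comps : Comps P k
  dvd : ∀ i, map (Int.castRingHom ℚ) (P i) ∣
    map (Int.castRingHom ℚ) F - C (a (j i)) * map (Int.castRingHom ℚ) G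
  ndvd : ∀ i, ¬ map (Int.castRingHom ℚ) (P i) ∣ map (Int.castRingHom ℚ) G

/-- the form `den (a) F - num (a) G` -/
noncomputable def lf {n : ℕ} (F G : MvPolynomial (Fin (n + 1)) ℤ) (a : ℚ) :
    MvPolynomial (Fin (n + 1)) ℤ := C ((a.den : ℕ) : ℤ) * F - C a.num * G

variable {n q r D : ℕ} {F G : MvPolynomial (Fin (n + 1)) ℤ} {a : Fin q → ℚ}
    {P : Fin r → MvPolynomial (Fin (n + 1)) ℤ} {k : Fin r → ℕ} {j : Fin r → Fin q}

theorem eval_lf (x : Fin (n + 1) → ℤ) (b : ℚ) :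
    eval x (lf F G b) = (b.den : ℤ) * eval x F - b.num * eval x G := by
  unfold lf
  simp

theorem map_lf (b : ℚ) : map (Int.castRingHom ℚ) (lf F G b) =
    C (b.den : ℚ) * (map (Int.castRingHom ℚ) F - C b * map (Int.castRingHom ℚ) G) := by
  unfold lf
  have h : (b.den : ℚ) * b = b.num := Rat.den_mul_eq_num b
  rw [map_sub, map_mul, map_mul, map_C, map_C, mul_sub, ← mul_assoc, ← C_mul, h]
  simp

theorem Data.inv (h : Data D F G a P k j) :
    Inv (D * q) (G ^ q) (∏ l, lf F G (a l)) P k := by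
  have hlf : ∀ b : ℚ, (lf F G b).IsHomogeneous D := by
    intro b
    unfold lf
    refine IsHomogeneous.sub ?_ ?_
    · have := (isHomogeneous_C (Fin (n + 1)) ((b.den : ℕ) : ℤ)).mul h.hF
      rwa [zero_add] at this
    · have := (isHomogeneous_C (Fin (n + 1)) b.num).mul h.hG
      rwa [zero_add] at this
  refine ⟨h.hG.pow q, ?_, h.comps, fun i => ?_, fun i hi => ?_⟩
  · have := IsHomogeneous.prod Finset.univ (fun l => lf F G (a l)) (fun _ => D)
      fun l _ => hlf (a l)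
    have e : ∑ _l : Fin q, D = D * q := by simp [mul_comm]
    rwa [e] at this
  · rw [map_prod]
    refine Dvd.dvd.trans ?_ (Finset.dvd_prod_of_mem _ (Finset.mem_univ (j i)))
    rw [map_lf]
    exact (h.dvd i).mul_left _
  · rw [map_pow] at hi
    exact h.ndvd i ((h.comps.2.1 i).prime.dvd_of_dvd_pow hi)

/-- the value of the rational function -/
noncomputable def R (F G : MvPolynomial (Fin (n + 1)) ℤ) (x : Fin (n + 1) → ℤ) : ℚ :=
  ((eval x F : ℤ) : ℚ) / ((eval x G : ℤ) : ℚ)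

theorem val_nat_le {L : Type} [Field L] [NumberField L] (w : HeightOneSpectrum (𝓞 L)) (z : ℤ) :
    w.valuation L (z : L) ≤ 1 := by
  have h1 : (z : L) = algebraMap (𝓞 L) L (z : 𝓞 L) := by simp
  rw [h1]
  exact HeightOneSpectrum.valuation_le_one w _

theorem val_one {L : Type} [Field L] [NumberField L] {w : HeightOneSpectrum (𝓞 L)} {p : ℕ}
    (hp : p.Prime) (hw : (p : 𝓞 L) ∈ w.asIdeal) {z : ℤ} (hz : ¬ (p : ℤ) ∣ z) :
    w.valuation L (z : L) = 1 := by
  refine le_antisymm (val_nat_le w z) (not_lt.1 fun h => ?_)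
  have h1 : (z : L) = algebraMap (𝓞 L) L (z : 𝓞 L) := by simp
  rw [h1, HeightOneSpectrum.valuation_lt_one_iff_mem] at h
  exact not_mem_of hp hw hz h

/-- near primes of the value -/
theorem near_lower (hq : 1 ≤ q) (F G : MvPolynomial (Fin (n + 1)) ℤ) (a : Fin q → ℚ) (M : ℕ) :
    ∃ C : ℝ, 0 ≤ C ∧ ∀ x : Fin (n + 1) → ℤ, (∀ l, R F G x ≠ a l) → ∀ θ : ℝ,
      ManyP (G ^ q) (∏ l, lf F G (a l)) θ x → ∀ (L : Type) [Field L] [NumberField L]
        (S : Finset ℕ), (∀ p ∈ S, p.Prime) →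
        Module.finrank ℚ L * (θ * Real.log (Ht x) - C - ∑ p ∈ S, Real.log (p : ℝ)) ≤
          cnt (M.primeFactors ∪ S) a (algebraMap ℚ L (R F G x)) +
            Real.log |(discr L : ℝ)| := by
  classical
  obtain ⟨Z, hZ⟩ : ∃ Z : Finset ℕ, Z = M.primeFactors ∪
    Finset.univ.biUnion fun l => (a l).den.primeFactors := ⟨_, rfl⟩
  refine ⟨∑ p ∈ Z, Real.log (p : ℝ), Finset.sum_nonneg fun p _ => Real.log_natCast_nonneg _,
    fun x hxa θ hM L _ _ S hS => ?_⟩
  obtain ⟨A, hA, hbig⟩ := hM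
  obtain ⟨B, hB⟩ : ∃ B : Finset ℕ, B = A \ (Z ∪ S) := ⟨_, rfl⟩
  have hBmem : ∀ p ∈ B, p ∈ A ∧ p ∉ Z ∧ p ∉ S := by
    intro p hp
    rw [hB, Finset.mem_sdiff, Finset.mem_union, not_or] at hp
    exact hp
  obtain ⟨T, hT, hle⟩ := cover_rat L B fun p hp => (hA p (hBmem p hp).1).1
  have hxa' : ∀ l, algebraMap ℚ L (R F G x) ≠ algebraMap ℚ L (a l) := fun l h =>
    hxa l ((algebraMap ℚ L).injective h)
  have hsub : T ⊆ (Pool.Agent.Y729.RV.nr_fin (M.primeFactors ∪ S) hxa').toFinset := by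
    intro w hw
    rw [Set.Finite.mem_toFinset]
    obtain ⟨p, hp, hpw⟩ := hT w hw
    obtain ⟨hpA, hpZ, hpS⟩ := hBmem p hp
    obtain ⟨hpp, -, hd, hnd⟩ := hA p hpA
    have hG1 : ¬ (p : ℤ) ∣ eval x G := by
      intro h
      apply hnd
      rw [map_pow]
      exact h.pow (by omega)
    rw [hZ, Finset.mem_union, not_or] at hpZ
    have hvG := val_one hpp hpw hG1
    have hvF := val_nat_le w (eval x F)
    have e1 : algebraMap ℚ L (R F G x) = ((eval x F : ℤ) : L) / ((eval x G : ℤ) : L) := by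
      unfold R
      rw [map_div₀, map_intCast, map_intCast]
    have hG0 : ((eval x G : ℤ) : L) ≠ 0 := by
      intro h
      rw [h, map_zero] at hvG
      exact absurd hvG (by simp)
    refine ⟨?_, ?_, ?_⟩
    · intro s hs hsw
      have hsp : s.Prime := by
        rcases Finset.mem_union.1 hs with h | h
        · exact Nat.prime_of_mem_primeFactors h
        · exact hS s h
      have hne : ¬ (p : ℤ) ∣ (s : ℤ) := by
        intro hd
        have := (Nat.prime_dvd_prime_iff_eq hpp hsp).mp (by exact_mod_cast hd)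
        rw [← this] at hs
        rcases Finset.mem_union.1 hs with h | h
        · exact hpZ.1 h
        · exact hpS h
      apply not_mem_of hpp hpw hne
      exact_mod_cast hsw
    · rw [e1, map_div₀, hvG, div_one]
      exact hvF
    · rw [map_prod] at hd
      obtain ⟨l, -, hl⟩ := (Prime.dvd_finsetProd_iff (Nat.prime_iff_prime_int.mp hpp) _).1 hd
      refine ⟨l, ?_⟩
      have hden : ¬ (p : ℤ) ∣ (((a l).den : ℕ) : ℤ) := by
        intro h
        apply hpZ.2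
        refine Finset.mem_biUnion.2 ⟨l, Finset.mem_univ _, Nat.mem_primeFactors.2
          ⟨hpp, by exact_mod_cast h, (a l).den_nz⟩⟩
      have hvd := val_one hpp hpw hden
      have hd0 : ((((a l).den : ℕ) : ℤ) : L) ≠ 0 := by
        intro h
        rw [h, map_zero] at hvd
        exact absurd hvd (by simp)
      have e2 : algebraMap ℚ L (R F G x) - algebraMap ℚ L (a l) =
          ((eval x (lf F G (a l)) : ℤ) : L) /
            (((((a l).den : ℕ) : ℤ) : L) * ((eval x G : ℤ) : L)) := by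
        have e3 : algebraMap ℚ L (a l) = ((a l).num : L) / ((((a l).den : ℕ) : ℤ) : L) := by
          conv_lhs => rw [← Rat.num_div_den (a l)]
          rw [map_div₀, map_intCast, map_natCast]
          push_cast
          rfl
        rw [e1, e3, eval_lf]
        push_cast at hd0 ⊢
        field_simp
      rw [e2, map_div₀, map_mul, hvG, hvd, mul_one, div_one]
      exact val_lt_one hpw hl
  have h1 : ∑ w ∈ T, Real.log (Ideal.absNorm w.asIdeal : ℝ) ≤
      cnt (M.primeFactors ∪ S) a (algebraMap ℚ L (R F G x)) := by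
    rw [Pool.Agent.Y729.RV.cnt_eq _ hxa']
    exact Finset.sum_le_sum_of_subset_of_nonneg hsub fun w _ _ => Real.log_natCast_nonneg _
  have h2 : ∑ p ∈ A, Real.log (p : ℝ) ≤ ∑ p ∈ B, Real.log (p : ℝ) +
      (∑ p ∈ Z, Real.log (p : ℝ) + ∑ p ∈ S, Real.log (p : ℝ)) := by
    have h3 : A ⊆ B ∪ (Z ∪ S) := by
      intro p hp
      by_cases h : p ∈ Z ∪ S
      · exact Finset.mem_union_right _ h
      · refine Finset.mem_union_left _ ?_
        rw [hB]
        exact Finset.mem_sdiff.2 ⟨hp, h⟩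
    have hun : ∀ U V : Finset ℕ, ∑ p ∈ U ∪ V, Real.log (p : ℝ) ≤
        ∑ p ∈ U, Real.log (p : ℝ) + ∑ p ∈ V, Real.log (p : ℝ) := by
      intro U V
      rw [← Finset.sum_union_inter]
      have : 0 ≤ ∑ p ∈ U ∩ V, Real.log (p : ℝ) :=
        Finset.sum_nonneg fun p _ => Real.log_natCast_nonneg _
      linarith
    have h4 := Finset.sum_le_sum_of_subset_of_nonneg h3 (f := fun p : ℕ => Real.log (p : ℝ))
      fun p _ _ => Real.log_natCast_nonneg _
    have h5 := hun B (Z ∪ S)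
    have h6 := hun Z S
    linarith
  have h3 : (0 : ℝ) ≤ Module.finrank ℚ L := Nat.cast_nonneg _
  have h4 : θ * Real.log (Ht x) - ∑ p ∈ Z, Real.log (p : ℝ) - ∑ p ∈ S, Real.log (p : ℝ) ≤
      ∑ p ∈ B, Real.log (p : ℝ) := by linarith
  have h5 := mul_le_mul_of_nonneg_left h4 h3
  linarith

/-- the height of the value is large -/
theorem ht_lower (hq : 1 ≤ q) (F G : MvPolynomial (Fin (n + 1)) ℤ) (a : Fin q → ℚ) :
    ∃ C : ℝ, 0 ≤ C ∧ ∀ x : Fin (n + 1) → ℤ, (∀ l, R F G x ≠ a l) → ∀ θ : ℝ,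
      ManyP (G ^ q) (∏ l, lf F G (a l)) θ x →
        θ * Real.log (Ht x) ≤ q * logHeight₁ (R F G x) + C := by
  obtain ⟨C, hC, h⟩ := near_lower hq F G a 1
  have hl2 := Real.log_nonneg (one_le_two : (1 : ℝ) ≤ 2)
  refine ⟨C + ∑ j, (logHeight₁ (a j) + Real.log 2), add_nonneg hC (Finset.sum_nonneg fun j _ =>
    add_nonneg (zero_le_logHeight₁ _) hl2), fun x hxa θ hM => ?_⟩
  have h1 := h x hxa θ hM ℚ ∅ (by simp)
  have h2 := @Pool.Agent.Y557.OE.cnt_le_ht ℚ ℚ _ _ _ _ DivisionRing.toRatAlgebra q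
    (Nat.primeFactors 1 ∪ ∅) a _ hxa
  have h3 : Real.log |((discr ℚ : ℤ) : ℝ)| = 0 := by simp
  rw [h3] at h1
  simp only [Module.finrank_self, Nat.cast_one, one_mul, Finset.sum_empty, sub_zero] at h1 h2
  have h4 : ∑ j, (logHeight₁ (R F G x) + logHeight₁ (a j) + Real.log 2) =
      q * logHeight₁ (R F G x) + ∑ j, (logHeight₁ (a j) + Real.log 2) := by
    simp only [add_assoc]
    rw [Finset.sum_add_distrib, Finset.sum_const, Finset.card_univ, Fintype.card_fin,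
      nsmul_eq_mul]
  rw [h4] at h2
  linarith

section curve

open Polynomial (X)

variable {K : Type} [Field K] [NumberField K] {A : Type} [CommRing A] [IsDedekindDomain A]
  [Algebra K A] [Algebra (Polynomial K) A] [IsScalarTower K (Polynomial K) A]
  [Module.Finite (Polynomial K) A] [FaithfulSMul (Polynomial K) A]

/-- the degree of the divisor on the curve, divided by the degree of the map -/
noncomputable def dg (K : Type) [Field K] {A : Type} [CommRing A] [Algebra K A]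
    [Algebra (Polynomial K) A] {q : ℕ} {s : Fin q → ℕ} (y : ∀ l, Fin (s l + 1) → A) : ℝ :=
  (∑ l, (Module.finrank K (A ⧸ Ideal.span (Set.range (y l))) : ℝ)) /
    Module.finrank (Polynomial K) A

theorem dg_nonneg {q : ℕ} {s : Fin q → ℕ} (y : ∀ l, Fin (s l + 1) → A) : 0 ≤ dg K y := by
  unfold dg
  positivity

/-- **the inequality for one curve** -/
theorem curve (hq : 1 ≤ q) (F G : MvPolynomial (Fin (n + 1)) ℤ) (a : Fin q → ℚ)
    (s : Fin q → ℕ) (y : ∀ l, Fin (s l + 1) → A)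
    (hy0 : ∀ l, y l 0 = algebraMap (Polynomial K) A Polynomial.X -
      algebraMap K A (algebraMap ℚ K (a l)))
    (hyr : ∀ l i, y l i ∈ (Ideal.span {algebraMap (Polynomial K) A Polynomial.X -
      algebraMap K A (algebraMap ℚ K (a l))}).radical) (ε : ℝ) (hε : 0 < ε) :
    ∃ C : ℝ, 0 ≤ C ∧ ∀ x : Fin (n + 1) → ℤ, (∀ l, R F G x ≠ a l) →
      ∀ (L : Type) [Field L] [NumberField L] [Algebra K L] (φ : A →ₐ[K] L),
        φ (algebraMap (Polynomial K) A Polynomial.X) = algebraMap ℚ L (R F G x) →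
        (∀ l, {v : HeightOneSpectrum (𝓞 L) |
          Pool.Agent.W223.AC.lamF (y l) (φ : A →+* L) v ≠ 0}.Finite) ∧
        ∀ S : Finset ℕ, (∀ p ∈ S, p.Prime) →
          prx S y (φ : A →+* L) ≤ Module.finrank ℚ L *
            ((dg K y + ε) * logHeight₁ (R F G x) + C) ∧
          ∀ θ : ℝ, ManyP (G ^ q) (∏ l, lf F G (a l)) θ x →
            Module.finrank ℚ L * (θ * Real.log (Ht x)) + prx S y (φ : A →+* L) ≤
              Real.log |(discr L : ℝ)| + Module.finrank ℚ L *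
                ((dg K y + ε) * logHeight₁ (R F G x) + ∑ p ∈ S, Real.log (p : ℝ) + C) := by
  obtain ⟨M, C₁, hM, hC₁, h₁⟩ := Pool.Agent.Y557.OE.proxAll3 ℚ ℚ K A hq a s y hy0 hyr ε hε
  obtain ⟨C₂, hC₂, h₂⟩ := near_lower hq F G a M
  refine ⟨C₁ + C₂, add_nonneg hC₁ hC₂, fun x hxa L _ _ _ φ hφ => ?_⟩
  obtain ⟨hfin, h3⟩ := h₁ L φ (R F G x) hφ hxa
  refine ⟨hfin, fun S hS => ?_⟩
  have h4 := h3 S hS
  have hn0 : (0 : ℝ) ≤ Module.finrank ℚ L := Nat.cast_nonneg _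
  have e : (dg K y + ε) * ((Module.finrank ℚ L : ℝ) * logHeight₁ (R F G x)) =
      Module.finrank ℚ L * ((dg K y + ε) * logHeight₁ (R F G x)) := by ring
  have h4' : cnt (M.primeFactors ∪ S) a (algebraMap ℚ L (R F G x)) +
      prx S y (φ : A →+* L) ≤ (dg K y + ε) * ((Module.finrank ℚ L : ℝ) *
        logHeight₁ (R F G x)) + Module.finrank ℚ L * C₁ := h4
  rw [e] at h4'
  have hn2 : (0 : ℝ) ≤ Module.finrank ℚ L * C₂ := mul_nonneg hn0 hC₂
  refine ⟨?_, fun θ hMx => ?_⟩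
  · have h5 := Pool.Agent.Y729.RV.cnt_nonneg (M.primeFactors ∪ S) a (algebraMap ℚ L (R F G x))
    rw [mul_add, mul_add]
    linarith
  · have h5 := h₂ x hxa θ hMx L S hS
    rw [mul_sub, mul_sub] at h5
    rw [mul_add, mul_add, mul_add]
    linarith

/-- the points of the curve above `x` over `L` -/
def Over (K : Type) [Field K] [NumberField K] {A : Type} [CommRing A] [Algebra K A]
    [Algebra (Polynomial K) A] (F G : MvPolynomial (Fin (n + 1)) ℤ) (x : Fin (n + 1) → ℤ)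
    {L : Type} [Field L] [NumberField L] [Algebra K L] (φ : A →ₐ[K] L) : Prop :=
  φ (algebraMap (Polynomial K) A Polynomial.X) = algebraMap ℚ L (R F G x)

/-- the first inequality -/
def Ineq1 (K : Type) [Field K] [NumberField K] {A : Type} [CommRing A] [Algebra K A]
    [Algebra (Polynomial K) A] {q : ℕ} {s : Fin q → ℕ} (y : ∀ l, Fin (s l + 1) → A)
    (F G : MvPolynomial (Fin (n + 1)) ℤ) (θ c : ℝ) (x : Fin (n + 1) → ℤ)
    {L : Type} [Field L] [NumberField L] [Algebra K L] (φ : A →ₐ[K] L) (S : Finset ℕ) : Prop :=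
  Module.finrank ℚ L * (θ * Real.log (Ht x)) + prx S y (φ : A →+* L) ≤
    Real.log |(discr L : ℝ)| + Module.finrank ℚ L *
      (dg K y * logHeight₁ (R F G x) + ∑ p ∈ S, Real.log (p : ℝ) + c)

/-- the second inequality -/
def Ineq2 (K : Type) [Field K] [NumberField K] {A : Type} [CommRing A] [Algebra K A]
    [Algebra (Polynomial K) A] {q : ℕ} {s : Fin q → ℕ} (y : ∀ l, Fin (s l + 1) → A)
    (F G : MvPolynomial (Fin (n + 1)) ℤ) (ε c : ℝ) (x : Fin (n + 1) → ℤ)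
    {L : Type} [Field L] [NumberField L] [Algebra K L] (φ : A →ₐ[K] L) (S : Finset ℕ) : Prop :=
  prx S y (φ : A →+* L) + Module.finrank ℚ L * (((q : ℝ) - 2 - dg K y) * logHeight₁ (R F G x)) ≤
    Real.log |(discr L : ℝ)| + Module.finrank ℚ L *
      (ε * logHeight₁ (R F G x) + ∑ p ∈ S, Real.log (p : ℝ) + c)

theorem disc_log_nonneg (L : Type) [Field L] [NumberField L] :
    0 ≤ Real.log |(discr L : ℝ)| := by
  refine Real.log_nonneg ?_
  have h5 : (1 : ℤ) ≤ |discr L| := Int.one_le_abs (discr_ne_zero L)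
  have h6 : |(discr L : ℝ)| = ((|discr L| : ℤ) : ℝ) := by push_cast; rfl
  rw [h6]
  exact_mod_cast h5

theorem ht_upper (hF : F.IsHomogeneous D) (hG : G.IsHomogeneous D) : ∃ C : ℝ, 0 ≤ C ∧
    ∀ x : Fin (n + 1) → ℤ, x 0 ≠ 0 → eval x G ≠ 0 →
      logHeight₁ (R F G x) ≤ D * Real.log (Ht x) + C := by
  obtain ⟨C, hC, h⟩ := lh_le hF hG
  refine ⟨C, hC, fun x hx hGx => ?_⟩
  have := h x hx hGx ℚ
  rwa [Module.finrank_self, Nat.cast_one, one_mul] at this

theorem step1 (hq : 1 ≤ q) (hF : F.IsHomogeneous D) (hG : G.IsHomogeneous D) (a : Fin q → ℚ)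
    (s : Fin q → ℕ) (y : ∀ l, Fin (s l + 1) → A)
    (hy0 : ∀ l, y l 0 = algebraMap (Polynomial K) A Polynomial.X -
      algebraMap K A (algebraMap ℚ K (a l)))
    (hyr : ∀ l i, y l i ∈ (Ideal.span {algebraMap (Polynomial K) A Polynomial.X -
      algebraMap K A (algebraMap ℚ K (a l))}).radical) {θ ω : ℝ} (hθ : θ < ω) (c : ℝ) :
    ∃ θ' : ℝ, θ' < ω ∧ ∃ T : ℕ, ∀ x : Fin (n + 1) → ℤ, x 0 ≠ 0 → eval x G ≠ 0 →
      (∀ l, R F G x ≠ a l) → ManyP (G ^ q) (∏ l, lf F G (a l)) θ' x → T < Ht x →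
      ∀ (L : Type) [Field L] [NumberField L] [Algebra K L] (φ : A →ₐ[K] L), Over K F G x φ →
        ∀ S : Finset ℕ, (∀ p ∈ S, p.Prime) → Ineq1 K y F G θ c x φ S := by
  obtain ⟨θ', h1, h2⟩ := exists_between hθ
  obtain ⟨C₁, hC₁, hht⟩ := ht_upper hF hG
  obtain ⟨ε, hε⟩ : ∃ ε : ℝ, ε = (θ' - θ) / (2 * ((D : ℝ) + 1)) := ⟨_, rfl⟩
  have hD1 : (0 : ℝ) < (D : ℝ) + 1 := by positivity
  have hε0 : 0 < ε := by rw [hε]; exact div_pos (by linarith) (by positivity)
  have hεD : ε * D ≤ (θ' - θ) / 2 := by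
    have e : ε * ((D : ℝ) + 1) = (θ' - θ) / 2 := by rw [hε]; field_simp
    linarith
  obtain ⟨C₂, hC₂, hc⟩ := curve hq F G a s y hy0 hyr ε hε0
  have hlim : Filter.Tendsto (fun B : ℕ => ((θ' - θ) / 2) * Real.log (B : ℝ)) Filter.atTop
      Filter.atTop :=
    (Real.tendsto_log_atTop.comp tendsto_natCast_atTop_atTop).const_mul_atTop (by linarith)
  obtain ⟨T, hT⟩ := Filter.eventually_atTop.mp
    (hlim.eventually_ge_atTop (ε * C₁ + C₂ - c))
  refine ⟨θ', h2, T, fun x hx hGx hxa hM hTx L _ _ _ φ hφ S hS => ?_⟩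
  obtain ⟨-, h3⟩ := hc x hxa L φ hφ
  have h4 := (h3 S hS).2 θ' hM
  have h5 := hht x hx hGx
  have h6 := hT _ hTx.le
  have hn0 : (0 : ℝ) ≤ Module.finrank ℚ L := Nat.cast_nonneg _
  have hHt : (1 : ℝ) ≤ Ht x := by exact_mod_cast Ht_pos hx
  have hlog : 0 ≤ Real.log (Ht x) := Real.log_nonneg hHt
  have h7 : ε * logHeight₁ (R F G x) ≤ (θ' - θ) / 2 * Real.log (Ht x) + ε * C₁ := by
    have h8 := mul_le_mul_of_nonneg_left h5 hε0.le
    have h9 := mul_le_mul_of_nonneg_right hεD hlog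
    linarith
  have h8 : θ * Real.log (Ht x) + ((dg K y + ε) * logHeight₁ (R F G x) +
      ∑ p ∈ S, Real.log (p : ℝ) + C₂) ≤ θ' * Real.log (Ht x) +
        (dg K y * logHeight₁ (R F G x) + ∑ p ∈ S, Real.log (p : ℝ) + c) := by linarith
  have h9 := mul_le_mul_of_nonneg_left h8 hn0
  rw [mul_add, mul_add _ (θ' * _)] at h9
  unfold Ineq1
  linarith

theorem step2 (hq : 1 ≤ q) (hF : F.IsHomogeneous D) (hG : G.IsHomogeneous D) (a : Fin q → ℚ)
    (s : Fin q → ℕ) (y : ∀ l, Fin (s l + 1) → A)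
    (hy0 : ∀ l, y l 0 = algebraMap (Polynomial K) A Polynomial.X -
      algebraMap K A (algebraMap ℚ K (a l)))
    (hyr : ∀ l i, y l i ∈ (Ideal.span {algebraMap (Polynomial K) A Polynomial.X -
      algebraMap K A (algebraMap ℚ K (a l))}).radical) {ω : ℝ} (hω : 0 < ω)
    (hqD : ((q : ℝ) - 2) * D ≤ ω) {ε : ℝ} (hε : 0 < ε) (c : ℝ) :
    ∃ θ' : ℝ, θ' < ω ∧ ∃ T : ℕ, ∀ x : Fin (n + 1) → ℤ, x 0 ≠ 0 → eval x G ≠ 0 →
      (∀ l, R F G x ≠ a l) → ManyP (G ^ q) (∏ l, lf F G (a l)) θ' x → T < Ht x →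
      ∀ (L : Type) [Field L] [NumberField L] [Algebra K L] (φ : A →ₐ[K] L), Over K F G x φ →
        ∀ S : Finset ℕ, (∀ p ∈ S, p.Prime) → Ineq2 K y F G ε c x φ S := by
  have hq0 : (0 : ℝ) < q := by exact_mod_cast hq
  obtain ⟨C₁, hC₁, hht⟩ := ht_upper hF hG
  obtain ⟨C₃, hC₃, hlow⟩ := ht_lower hq F G a
  obtain ⟨C₂, hC₂, hc⟩ := curve hq F G a s y hy0 hyr (ε / 2) (by positivity)
  -- `θ' = ω - δ` with `δ = min (ω / 2) (ε ω / (8 q))`
  obtain ⟨δ, hδ⟩ : ∃ δ : ℝ, δ = min (ω / 2) (ε * ω / (8 * q)) := ⟨_, rfl⟩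
  have hδ0 : 0 < δ := by rw [hδ]; exact lt_min (by positivity) (by positivity)
  have hδ1 : δ ≤ ω / 2 := by rw [hδ]; exact min_le_left _ _
  have hδ2 : δ ≤ ε * ω / (8 * q) := by rw [hδ]; exact min_le_right _ _
  have hlim : Filter.Tendsto (fun B : ℕ => δ * Real.log (B : ℝ)) Filter.atTop
      Filter.atTop :=
    (Real.tendsto_log_atTop.comp tendsto_natCast_atTop_atTop).const_mul_atTop hδ0
  obtain ⟨T, hT⟩ := Filter.eventually_atTop.mp
    (hlim.eventually_ge_atTop (q * C₁ + C₂ + ε * C₃ / (2 * q) - c))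
  refine ⟨ω - δ, by linarith, T, fun x hx hGx hxa hM hTx L _ _ _ φ hφ S hS => ?_⟩
  obtain ⟨-, h3⟩ := hc x hxa L φ hφ
  have h4 := (h3 S hS).2 _ hM
  have h5 := hht x hx hGx
  have h6 := hT _ hTx.le
  have h7 := hlow x hxa _ hM
  have hn0 : (0 : ℝ) ≤ Module.finrank ℚ L := Nat.cast_nonneg _
  have hHt : (1 : ℝ) ≤ Ht x := by exact_mod_cast Ht_pos hx
  obtain ⟨l, hl⟩ : ∃ l : ℝ, l = Real.log (Ht x) := ⟨_, rfl⟩
  have hl0 : 0 ≤ l := by rw [hl]; exact Real.log_nonneg hHt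
  obtain ⟨h, hh⟩ : ∃ h : ℝ, h = logHeight₁ (R F G x) := ⟨_, rfl⟩
  have hh0 : 0 ≤ h := by rw [hh]; exact zero_le_logHeight₁ _
  rw [← hl] at h4 h5 h6 h7
  rw [← hh] at h4 h5 h7
  -- `(q - 2) h ≤ ω l + q C₁`
  have h8 : ((q : ℝ) - 2) * h ≤ ω * l + q * C₁ := by
    rcases le_or_gt 0 ((q : ℝ) - 2) with h2 | h2
    · have h9 := mul_le_mul_of_nonneg_left h5 h2
      have h10 := mul_le_mul_of_nonneg_right hqD hl0
      have h11 : ((q : ℝ) - 2) * C₁ ≤ q * C₁ := mul_le_mul_of_nonneg_right (by linarith) hC₁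
      linarith
    · have h9 : ((q : ℝ) - 2) * h ≤ 0 := mul_nonpos_of_nonpos_of_nonneg h2.le hh0
      have h10 : 0 ≤ ω * l := by positivity
      have h11 : 0 ≤ q * C₁ := by positivity
      linarith
  -- `2 δ l ≤ (ε / 2) h + …`
  have h9 : 2 * δ * l ≤ ε / 2 * h + ε * C₃ / (2 * q) := by
    have h10 : ω / 2 * l ≤ q * h + C₃ := by
      have : ω / 2 * l ≤ (ω - δ) * l := mul_le_mul_of_nonneg_right (by linarith) hl0
      linarith
    have h11 : 2 * δ * l ≤ 2 * (ε * ω / (8 * q)) * l :=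
      mul_le_mul_of_nonneg_right (by linarith) hl0
    have h12 : 2 * (ε * ω / (8 * q)) * l = ε / (2 * q) * (ω / 2 * l) := by
      field_simp
      ring
    have h13 : ε / (2 * q) * (ω / 2 * l) ≤ ε / (2 * q) * (q * h + C₃) :=
      mul_le_mul_of_nonneg_left h10 (by positivity)
    have h14 : ε / (2 * q) * (q * h + C₃) = ε / 2 * h + ε * C₃ / (2 * q) := by
      field_simp
    linarith
  have h10 : ((q : ℝ) - 2 - dg K y) * h + ((dg K y + ε / 2) * h +
      ∑ p ∈ S, Real.log (p : ℝ) + C₂) ≤ (ω - δ) * l +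
        (ε * h + ∑ p ∈ S, Real.log (p : ℝ) + c) := by
    have e1 : ((q : ℝ) - 2 - dg K y) * h + (dg K y + ε / 2) * h = (q - 2) * h + ε / 2 * h := by
      ring
    have e2 : (ω - δ) * l = ω * l - δ * l := by ring
    have e3 : 2 * δ * l = δ * l + δ * l := by ring
    rw [e2]
    rw [e3] at h9
    linarith
  have h11 := mul_le_mul_of_nonneg_left h10 hn0
  rw [mul_add, mul_add _ ((ω - δ) * l)] at h11
  unfold Ineq2
  rw [← hh]
  linarith

/-- generators of the radicals of the fibres over the `a l` -/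
def Gens (K : Type) [Field K] [NumberField K] {A : Type} [CommRing A] [Algebra K A]
    [Algebra (Polynomial K) A] {q : ℕ} (a : Fin q → ℚ) {s : Fin q → ℕ}
    (y : ∀ l, Fin (s l + 1) → A) : Prop :=
  (∀ l, y l 0 = algebraMap (Polynomial K) A Polynomial.X -
    algebraMap K A (algebraMap ℚ K (a l))) ∧
  ∀ l i, y l i ∈ (Ideal.span {algebraMap (Polynomial K) A Polynomial.X -
    algebraMap K A (algebraMap ℚ K (a l))}).radical

/-- the failures of an inequality -/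
def FailC (K : Type) [Field K] [NumberField K] (A : Type) [CommRing A] [Algebra K A]
    [Algebra (Polynomial K) A] {q : ℕ} (F G : MvPolynomial (Fin (n + 1)) ℤ) (a : Fin q → ℚ)
    (I : ∀ (x : Fin (n + 1) → ℤ) (L : Type) [Field L] [NumberField L] [Algebra K L]
      (_ : A →ₐ[K] L) (_ : Finset ℕ), Prop) : Set (Fin (n + 1) → ℤ) :=
  {x | x 0 ≠ 0 ∧ eval x G ≠ 0 ∧ (∀ l, R F G x ≠ a l) ∧ ∃ (L : Type) (_ : Field L)
    (_ : NumberField L) (_ : Algebra K L) (φ : A →ₐ[K] L) (S : Finset ℕ), Over K F G x φ ∧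
      (∀ p ∈ S, p.Prime) ∧ ¬ I x L φ S}

theorem fail1_ps (hn : 1 ≤ n) (hq : 1 ≤ q) (h : Data D F G a P k j) {s : Fin q → ℕ}
    {y : ∀ l, Fin (s l + 1) → A} (hy : Gens K a y) {θ : ℝ}
    (hθ : θ < ∑ i, ((min (k i) 2 : ℕ) : ℝ)) (c : ℝ) :
    PS n (FailC K A F G a fun x _ _ _ _ φ S => Ineq1 K y F G θ c x φ S) := by
  obtain ⟨θ', h1, T, h2⟩ := step1 hq h.hF h.hG a s y hy.1 hy.2 hθ c
  refine (PS.union (many_ps hn h.inv h1) (PS.small hn T)).mono ?_
  rintro x ⟨hx, hGx, hxa, L, _, _, _, φ, S, hφ, hS, hfail⟩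
  by_cases hTx : T < Ht x
  · exact Or.inl ⟨hx, fun hM => hfail (h2 x hx hGx hxa hM hTx L φ hφ S hS)⟩
  · exact Or.inr (show ((Ht x : ℕ) : ℝ) ≤ (T : ℝ) by exact_mod_cast not_lt.1 hTx)

theorem fail2_ps (hn : 1 ≤ n) (hq : 1 ≤ q) (h : Data D F G a P k j) {s : Fin q → ℕ}
    {y : ∀ l, Fin (s l + 1) → A} (hy : Gens K a y)
    (hω : 0 < ∑ i, ((min (k i) 2 : ℕ) : ℝ))
    (hqD : ((q : ℝ) - 2) * D ≤ ∑ i, ((min (k i) 2 : ℕ) : ℝ)) {ε : ℝ} (hε : 0 < ε) (c : ℝ) :
    PS n (FailC K A F G a fun x _ _ _ _ φ S => Ineq2 K y F G ε c x φ S) := by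
  obtain ⟨θ', h1, T, h2⟩ := step2 hq h.hF h.hG a s y hy.1 hy.2 hω hqD hε c
  refine (PS.union (many_ps hn h.inv h1) (PS.small hn T)).mono ?_
  rintro x ⟨hx, hGx, hxa, L, _, _, _, φ, S, hφ, hS, hfail⟩
  by_cases hTx : T < Ht x
  · exact Or.inl ⟨hx, fun hM => hfail (h2 x hx hGx hxa hM hTx L φ hφ S hS)⟩
  · exact Or.inr (show ((Ht x : ℕ) : ℝ) ≤ (T : ℝ) by exact_mod_cast not_lt.1 hTx)

/-- the points of small height -/
theorem small (hq : 1 ≤ q) (hF : F.IsHomogeneous D) (hG : G.IsHomogeneous D) (a : Fin q → ℚ)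
    {s : Fin q → ℕ} {y : ∀ l, Fin (s l + 1) → A} (hy : Gens K a y) (T : ℕ) :
    ∃ C : ℝ, 0 ≤ C ∧ ∀ x : Fin (n + 1) → ℤ, x 0 ≠ 0 → eval x G ≠ 0 → (∀ l, R F G x ≠ a l) →
      Ht x ≤ T → ∀ (L : Type) [Field L] [NumberField L] [Algebra K L] (φ : A →ₐ[K] L),
        Over K F G x φ → ∀ S : Finset ℕ, (∀ p ∈ S, p.Prime) →
          Real.log (Ht x) ≤ C ∧ prx S y (φ : A →+* L) ≤ Module.finrank ℚ L *
            (dg K y * logHeight₁ (R F G x) + C) ∧ logHeight₁ (R F G x) ≤ C := by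
  obtain ⟨C₁, hC₁, hht⟩ := ht_upper hF hG
  obtain ⟨C₂, hC₂, hc⟩ := curve hq F G a s y hy.1 hy.2 1 one_pos
  have hT0 : 0 ≤ Real.log ((T : ℝ) + 1) :=
    Real.log_nonneg (by have : (0 : ℝ) ≤ T := Nat.cast_nonneg _; linarith)
  refine ⟨(D + 1) * Real.log ((T : ℝ) + 1) + C₁ + C₂, by positivity,
    fun x hx hGx hxa hTx L _ _ _ φ hφ S hS => ?_⟩
  have hHt : (1 : ℝ) ≤ Ht x := by exact_mod_cast Ht_pos hx
  have h1 : Real.log (Ht x) ≤ Real.log ((T : ℝ) + 1) := by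
    refine Real.log_le_log (by linarith) ?_
    have : (Ht x : ℝ) ≤ T := by exact_mod_cast hTx
    linarith
  have hD0 : (0 : ℝ) ≤ D := Nat.cast_nonneg _
  have h2 := hht x hx hGx
  have h3 := mul_le_mul_of_nonneg_left h1 hD0
  have h4 : 0 ≤ D * Real.log ((T : ℝ) + 1) := by positivity
  obtain ⟨-, h5⟩ := hc x hxa L φ hφ
  have h6 := (h5 S hS).1
  have hn0 : (0 : ℝ) ≤ Module.finrank ℚ L := Nat.cast_nonneg _
  refine ⟨by linarith, h6.trans (mul_le_mul_of_nonneg_left ?_ hn0), by linarith⟩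
  linarith

end curve

/-- **one set** -/
theorem univ_curve (hn : 1 ≤ n) :
    ∃ E₀ : Set (Fin (n + 1) → ℤ), (∀ ε : ℝ, 0 < ε → ∃ B₀ : ℕ, ∀ B : ℕ, B₀ ≤ B → ∀ M : Set ℕ,
        (Set.ncard {x | x ∈ Pts n M B ∧ x ∈ E₀} : ℝ) ≤ ε * (Pts n M B).ncard) ∧
      ∀ (D q r : ℕ) (F G : MvPolynomial (Fin (n + 1)) ℤ) (a : Fin q → ℚ)
        (P : Fin r → MvPolynomial (Fin (n + 1)) ℤ) (k : Fin r → ℕ) (j : Fin r → Fin q),
        Data D F G a P k j → 1 ≤ q →
        ∀ (K : Type) [Field K] [NumberField K] (A : Type) [CommRing A] [IsDedekindDomain A]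
          [Algebra K A] [Algebra (Polynomial K) A] [IsScalarTower K (Polynomial K) A]
          [Module.Finite (Polynomial K) A] [FaithfulSMul (Polynomial K) A] (s : Fin q → ℕ)
          (y : ∀ l, Fin (s l + 1) → A), Gens K a y →
          (∀ θ : ℝ, θ < ∑ i, ((min (k i) 2 : ℕ) : ℝ) → ∃ c : ℝ, ∀ x : Fin (n + 1) → ℤ,
            x 0 ≠ 0 → x ∉ E₀ → eval x G ≠ 0 → (∀ l, R F G x ≠ a l) →
            ∀ (L : Type) [Field L] [NumberField L] [Algebra K L] (φ : A →ₐ[K] L),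
              Over K F G x φ → ∀ S : Finset ℕ, (∀ p ∈ S, p.Prime) →
                Ineq1 K y F G θ c x φ S) ∧
          (0 < ∑ i, ((min (k i) 2 : ℕ) : ℝ) →
            ((q : ℝ) - 2) * D ≤ ∑ i, ((min (k i) 2 : ℕ) : ℝ) → ∀ ε : ℝ, 0 < ε →
            ∃ c : ℝ, ∀ x : Fin (n + 1) → ℤ,
            x 0 ≠ 0 → x ∉ E₀ → eval x G ≠ 0 → (∀ l, R F G x ≠ a l) →
            ∀ (L : Type) [Field L] [NumberField L] [Algebra K L] (φ : A →ₐ[K] L),
              Over K F G x φ → ∀ S : Finset ℕ, (∀ p ∈ S, p.Prime) →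
                Ineq2 K y F G ε c x φ S) := by
  obtain ⟨E₀, hE₀, hall⟩ := many_univ hn
  refine ⟨E₀, hE₀, fun D q r F G a P k j h hq K _ _ A _ _ _ _ _ _ _ s y hy =>
    ⟨fun θ hθ => ?_, fun hω hqD ε hε => ?_⟩⟩
  · obtain ⟨θ', h1, T, h2⟩ := step1 (K := K) (A := A) hq h.hF h.hG a s y hy.1 hy.2 hθ 0
    obtain ⟨T', hT'⟩ := hall _ _ _ _ P k h.inv θ' h1
    obtain ⟨C, hC, hsm⟩ := small (K := K) (A := A) hq h.hF h.hG a hy (max T T')
    refine ⟨C + |θ| * C, fun x hx hxE hGx hxa L _ _ _ φ hφ S hS => ?_⟩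
    have hn0 : (0 : ℝ) ≤ Module.finrank ℚ L := Nat.cast_nonneg _
    by_cases hTx : max T T' < Ht x
    · have hM := hT' x hx hxE ((le_max_right _ _).trans_lt hTx)
      have h3 := h2 x hx hGx hxa hM ((le_max_left _ _).trans_lt hTx) L φ hφ S hS
      unfold Ineq1 at h3 ⊢
      refine h3.trans (add_le_add le_rfl (mul_le_mul_of_nonneg_left ?_ hn0))
      have : 0 ≤ C + |θ| * C := by positivity
      linarith
    · obtain ⟨h3, h4, h5⟩ := hsm x hx hGx hxa (not_lt.1 hTx) L φ hφ S hS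
      have h6 := disc_log_nonneg L
      have h7 : 0 ≤ ∑ p ∈ S, Real.log (p : ℝ) :=
        Finset.sum_nonneg fun p _ => Real.log_natCast_nonneg p
      have hHt : (1 : ℝ) ≤ Ht x := by exact_mod_cast Ht_pos hx
      have hlog : 0 ≤ Real.log (Ht x) := Real.log_nonneg hHt
      have h8 : θ * Real.log (Ht x) ≤ |θ| * C :=
        (mul_le_mul_of_nonneg_right (le_abs_self θ) hlog).trans
          (mul_le_mul_of_nonneg_left h3 (abs_nonneg _))
      have h9 : θ * Real.log (Ht x) + (dg K y * logHeight₁ (R F G x) + C) ≤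
        dg K y * logHeight₁ (R F G x) + ∑ p ∈ S, Real.log (p : ℝ) + (C + |θ| * C) := by linarith
      have h10 := mul_le_mul_of_nonneg_left h9 hn0
      rw [mul_add] at h10
      unfold Ineq1
      linarith
  · obtain ⟨θ', h1, T, h2⟩ := step2 (K := K) (A := A) hq h.hF h.hG a s y hy.1 hy.2 hω hqD hε 0
    obtain ⟨T', hT'⟩ := hall _ _ _ _ P k h.inv θ' h1
    obtain ⟨C, hC, hsm⟩ := small (K := K) (A := A) hq h.hF h.hG a hy (max T T')
    refine ⟨C + q * C, fun x hx hxE hGx hxa L _ _ _ φ hφ S hS => ?_⟩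
    have hn0 : (0 : ℝ) ≤ Module.finrank ℚ L := Nat.cast_nonneg _
    by_cases hTx : max T T' < Ht x
    · have hM := hT' x hx hxE ((le_max_right _ _).trans_lt hTx)
      have h3 := h2 x hx hGx hxa hM ((le_max_left _ _).trans_lt hTx) L φ hφ S hS
      unfold Ineq2 at h3 ⊢
      refine h3.trans (add_le_add le_rfl (mul_le_mul_of_nonneg_left ?_ hn0))
      have : 0 ≤ C + q * C := by positivity
      linarith
    · obtain ⟨h3, h4, h5⟩ := hsm x hx hGx hxa (not_lt.1 hTx) L φ hφ S hS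
      have h6 := disc_log_nonneg L
      have h7 : 0 ≤ ∑ p ∈ S, Real.log (p : ℝ) :=
        Finset.sum_nonneg fun p _ => Real.log_natCast_nonneg p
      have hh0 : 0 ≤ logHeight₁ (R F G x) := zero_le_logHeight₁ _
      have h8 : (q : ℝ) * logHeight₁ (R F G x) ≤ q * C :=
        mul_le_mul_of_nonneg_left h5 (Nat.cast_nonneg _)
      have h8' : 0 ≤ ε * logHeight₁ (R F G x) := mul_nonneg hε.le hh0
      have h9 : (dg K y * logHeight₁ (R F G x) + C) +
          ((q : ℝ) - 2 - dg K y) * logHeight₁ (R F G x) ≤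
          ε * logHeight₁ (R F G x) + ∑ p ∈ S, Real.log (p : ℝ) + (C + q * C) := by
        have e : dg K y * logHeight₁ (R F G x) + ((q : ℝ) - 2 - dg K y) * logHeight₁ (R F G x) =
            q * logHeight₁ (R F G x) - 2 * logHeight₁ (R F G x) := by ring
        linarith
      have h10 := mul_le_mul_of_nonneg_left h9 hn0
      rw [mul_add] at h10
      unfold Ineq2
      linarith

end Run7.h742.CU
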