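import Pool.Agent.Run7.h742.SZ.Mp
import Pool.Agent.N365.LS.G

/-!
# Many prime poles at integral points: the input of the Lang-Silverman bounds (helper742)
-/

set_option autoImplicit false

namespace Run7.h742.SZ

open MvPolynomial Run7.h742.VI
open Pool.Agent.N365.LS (Enough)

theorem enough_of_many {n D : ℕ} {F G : MvPolynomial (Fin (n + 1)) ℤ} (hF : F.IsHomogeneous D)
    (hG : G.IsHomogeneous D) {σ θ : ℝ} (hσ : 2 * (D : ℝ) < σ * θ) (hθ : 0 < θ) :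
    ∃ T : ℕ, ∀ x : Fin (n + 1) → ℤ, x 0 ≠ 0 → eval x G ≠ 0 → T < Ht x → ManyP F G θ x →
      Enough σ (eval x F) (eval x G) := by
  obtain ⟨c1, h1, hc1⟩ := val_le F hF
  obtain ⟨c2, h2, hc2⟩ := val_le G hG
  obtain ⟨C, hCd⟩ : ∃ C : ℝ, C = 1 + c1 + c2 := ⟨_, rfl⟩
  obtain ⟨δ, hδ⟩ : ∃ δ : ℝ, δ = σ * θ - 2 * D := ⟨_, rfl⟩
  have hδ0 : 0 < δ := by rw [hδ]; linarith
  have hlim : Filter.Tendsto (fun B : ℕ => δ * Real.log (B : ℝ)) Filter.atTop Filter.atTop :=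
    (Real.tendsto_log_atTop.comp tendsto_natCast_atTop_atTop).const_mul_atTop hδ0
  obtain ⟨T, hT⟩ := Filter.eventually_atTop.mp (hlim.eventually_ge_atTop (2 * Real.log C))
  refine ⟨max T 1, fun x hx hGx hTx hM => ?_⟩
  have hTx1 : T ≤ Ht x := (le_max_left _ _).trans hTx.le
  have hTx2 : 1 < Ht x := (le_max_right _ _).trans_lt hTx
  have hHt : (1 : ℝ) < Ht x := by exact_mod_cast hTx2
  have hlog : 0 < Real.log (Ht x) := Real.log_pos hHt
  have hσ0 : 0 < σ := by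
    by_contra hcon
    rw [not_lt] at hcon
    have hD : (0 : ℝ) ≤ D := Nat.cast_nonneg _
    nlinarith
  have hC1 : 1 ≤ C := by linarith
  have hp1 : 1 ≤ (Ht x : ℝ) ^ D := one_le_pow₀ hHt.le
  obtain ⟨A, hA, hbig⟩ := hM
  have hlp : Real.log ((∏ p ∈ A, p : ℕ) : ℝ) = ∑ p ∈ A, Real.log (p : ℝ) := by
    rw [Nat.cast_prod, Real.log_prod (s := A) (f := fun p => ((p : ℕ) : ℝ)) (fun p hp => by
      have := (hA p hp).1.pos
      positivity)]
  refine ⟨hGx, A, fun p hp => ⟨(hA p hp).1, (hA p hp).2.2.1, (hA p hp).2.2.2⟩,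
    C * (Ht x : ℝ) ^ D, ?_, ?_, ?_, ?_, ?_⟩
  · nlinarith
  · exact (hc1 x hx).trans (mul_le_mul_of_nonneg_right (by linarith) (by positivity))
  · exact (hc2 x hx).trans (mul_le_mul_of_nonneg_right (by linarith) (by positivity))
  · intro h0
    have hne : A.Nonempty := by
      rw [Finset.nonempty_iff_ne_empty]
      rintro rfl
      rw [Finset.sum_empty] at hbig
      have := mul_pos hθ hlog
      linarith
    obtain ⟨p, hp⟩ := hne
    apply (hA p hp).2.2.2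
    rw [h0]
    exact dvd_zero _
  · rw [hlp, Real.log_mul (by positivity) (by positivity), Real.log_pow]
    have h3 := hT _ hTx1
    have h4 : σ * (θ * Real.log (Ht x)) ≤ σ * ∑ p ∈ A, Real.log (p : ℝ) :=
      mul_le_mul_of_nonneg_left hbig hσ0.le
    have h5 : δ * Real.log (Ht x) = σ * (θ * Real.log (Ht x)) - 2 * (D * Real.log (Ht x)) := by
      rw [hδ]; ring
    linarith

/-- a good `θ` -/
theorem exists_th' {D ω c : ℝ} (hD : 0 ≤ D) (h : D < c * ω) (hω : 0 ≤ ω) :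
    ∃ θ : ℝ, 0 < θ ∧ θ < ω ∧ D < c * θ := by
  have hω0 : 0 < ω := by
    rcases hω.eq_or_lt with h0 | h0
    · rw [← h0] at h
      linarith
    · exact h0
  have hc : 0 < c := by
    by_contra hcon
    rw [not_lt] at hcon
    nlinarith
  refine ⟨(D / c + ω) / 2, by positivity, ?_, ?_⟩
  · have : D / c < ω := by rw [div_lt_iff₀ hc]; linarith
    linarith
  · have h1 : c * ((D / c + ω) / 2) = (D + c * ω) / 2 := by field_simp
    rw [h1]
    linarith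

/-- power saving -/
theorem enough_ps {n q D : ℕ} (hn : 1 ≤ n) {F G : MvPolynomial (Fin (n + 1)) ℤ}
    {P : Fin q → MvPolynomial (Fin (n + 1)) ℤ} {k : Fin q → ℕ} (h : Inv D F G P k) {σ : ℝ}
    (hσ : 2 * (D : ℝ) < σ * ∑ j, ((min (k j) 2 : ℕ) : ℝ)) :
    PS n {x | x 0 ≠ 0 ∧ eval x G ≠ 0 ∧ ¬ Enough σ (eval x F) (eval x G)} := by
  have hω : 0 ≤ ∑ j, ((min (k j) 2 : ℕ) : ℝ) := Finset.sum_nonneg fun j _ => Nat.cast_nonneg _
  obtain ⟨θ, h1, h2, h3⟩ := exists_th' (by positivity) hσ hω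
  obtain ⟨T, hT⟩ := enough_of_many h.hF h.hG h3 h1
  refine (PS.union (many_ps hn h h2) (PS.small hn T)).mono ?_
  rintro x ⟨hx, hG, hE⟩
  by_contra hcon
  rw [Set.mem_union, not_or] at hcon
  obtain ⟨c1, c2⟩ := hcon
  have hM : ManyP F G θ x := by
    by_contra hM
    exact c1 ⟨hx, hM⟩
  have hTx : T < Ht x := by
    by_contra hT'
    exact c2 (show ((Ht x : ℕ) : ℝ) ≤ (T : ℝ) by exact_mod_cast not_lt.1 hT')
  exact hE (hT x hx hG hTx hM)

/-- **one exceptional set** -/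
theorem enough_univ {n : ℕ} (hn : 1 ≤ n) :
    ∃ E₀ : Set (Fin (n + 1) → ℤ), (∀ ε : ℝ, 0 < ε → ∃ B₀ : ℕ, ∀ B : ℕ, B₀ ≤ B → ∀ M : Set ℕ,
        (Set.ncard {x | x ∈ Pts n M B ∧ x ∈ E₀} : ℝ) ≤ ε * (Pts n M B).ncard) ∧
      ∀ (D q : ℕ) (F G : MvPolynomial (Fin (n + 1)) ℤ)
        (P : Fin q → MvPolynomial (Fin (n + 1)) ℤ) (k : Fin q → ℕ), Inv D F G P k →
        ∀ σ : ℝ, 2 * (D : ℝ) < σ * (∑ j, ((min (k j) 2 : ℕ) : ℝ)) → ∃ T : ℕ,
          ∀ x : Fin (n + 1) → ℤ, x 0 ≠ 0 → x ∉ E₀ → T < Ht x → eval x G ≠ 0 →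
            Enough σ (eval x F) (eval x G) := by
  obtain ⟨E₀, hE₀, hall⟩ := many_univ hn
  refine ⟨E₀, hE₀, fun D q F G P k h σ hσ => ?_⟩
  have hω : 0 ≤ ∑ j, ((min (k j) 2 : ℕ) : ℝ) := Finset.sum_nonneg fun j _ => Nat.cast_nonneg _
  obtain ⟨θ, h1, h2, h3⟩ := exists_th' (by positivity) hσ hω
  obtain ⟨T1, hT1⟩ := hall D q F G P k h θ h2
  obtain ⟨T2, hT2⟩ := enough_of_many h.hF h.hG h3 h1
  refine ⟨max T1 T2, fun x hx hxE hTx hGx => ?_⟩
  exact hT2 x hx hGx ((le_max_right _ _).trans_lt hTx)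
    (hT1 x hx hxE ((le_max_left _ _).trans_lt hTx))

end Run7.h742.SZ
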