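import Pool.Agent.Run7.h742.SZ.Fh

/-!
# The Faltings height and the conductor at the values of a rational function (helper742)
-/

set_option autoImplicit false
set_option linter.unusedSectionVars false

namespace Run7.h742.SZ

open NumberField IsDedekindDomain Height MvPolynomial Run7.h742.VI
open Pool.Agent.TH876.FH (GoodAt IsPeriod arch)
open Pool.Agent.Y733.FF Pool.Agent.H691R3 Pool.Agent.W223.AK Pool.Agent.Y733.LS
open Pool.Agent.N365.FH

section
variable {K : Type} [Field K] [NumberField K]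

open Classical in
/-- additive reduction outside six at a pole of the invariant -/
noncomputable def pw (v : Pr K) (E : WeierstrassCurve K) : ℝ :=
  if (¬ SemiAt v E ∧ v.valuation K 6 = 1) ∧ 1 < fv v (E.c₄ ^ 3 / E.Δ) then Real.log (Nv v) else 0

theorem pw_nonneg (v : Pr K) (E : WeierstrassCurve K) : 0 ≤ pw v E := by
  unfold pw
  split_ifs
  · exact (log_Nv_pos v).le
  · exact le_rfl

theorem pw_le (v : Pr K) (E : WeierstrassCurve K) : pw v E ≤ aw v E := by
  unfold pw
  split_ifs with h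
  · unfold aw
    rw [if_pos (show v ∈ {v : Pr K | ¬ SemiAt v E ∧ v.valuation K 6 = 1} from h.1)]
  · exact aw_nonneg v E

theorem supp_pw (E : WeierstrassCurve K) (hE : E.Δ ≠ 0) :
    (Function.support fun v : Pr K => pw v E).Finite := by
  refine (supp_aw E hE).subset fun v hv => ?_
  rw [Function.mem_support] at hv ⊢
  intro h0
  exact hv (le_antisymm (by rw [← h0]; exact pw_le v E) (pw_nonneg v E))

/-- the local inequality -/
theorem loc0 (v : Pr K) (E : WeierstrassCurve K) (hE : E.Δ ≠ 0) :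
    (discExp v E : ℝ) * Real.log (Nv v) ≤
    Real.log (max (fv v (E.c₄ ^ 3 / E.Δ)) 1) + 10 * aw v E + -4 * pw v E +
      -22 * Real.log (fv v (6 : K)) := by
  have hl := log_Nv_pos v
  obtain ⟨s0, s1⟩ := log_six v
  have ha := aw_nonneg v E
  have hp := pw_le v E
  have hlp : 0 ≤ Real.log (max (fv v (E.c₄ ^ 3 / E.Δ)) 1) := Real.log_nonneg (le_max_right _ _)
  by_cases hg : GoodAt v E
  · rw [disc_good v E hg]
    push_cast
    linarith
  · by_cases hs : SemiAt v E
    · have h4 := semi_disc v E hE hs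
      linarith
    · obtain ⟨b1, b2⟩ := disc_bound v E hE
      by_cases h6 : fv v (6 : K) = 1
      · have h6' := (fv_one_iff v).1 h6
        have h7 : aw v E = Real.log (Nv v) := by
          unfold aw
          exact if_pos ⟨hs, h6'⟩
        have h8 : Real.log (fv v (6 : K)) = 0 := by rw [h6, Real.log_one]
        rw [h7]
        by_cases hsp : 1 < fv v (E.c₄ ^ 3 / E.Δ)
        · have h20 : fv v (2 : K) ≤ 1 := (fv_Na v).ofNat 2
          have h30 : fv v (3 : K) ≤ 1 := (fv_Na v).ofNat 3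
          have h23 : fv v (2 : K) * fv v (3 : K) = 1 := by
            rw [← map_mul]
            norm_num
            exact h6
          have h2p : 0 < fv v (2 : K) := (fv v).pos (by norm_num)
          have h3p : 0 < fv v (3 : K) := (fv v).pos (by norm_num)
          have h2 : fv v (2 : K) = 1 := by nlinarith
          have h3 : fv v (3 : K) = 1 := by nlinarith
          have h9 := b2 h2 h3 hsp
          have h10 : pw v E = Real.log (Nv v) := by
            unfold pw
            exact if_pos ⟨⟨hs, h6'⟩, hsp⟩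
          rw [h10]
          linarith
        · have h10 : pw v E = 0 := by
            unfold pw
            exact if_neg fun h => hsp h.2
          rw [h10]
          linarith
      · have h7 := s1 h6
        linarith

/-- the discriminant is bounded by the height -/
theorem disc_sum0 (E : WeierstrassCurve K) (hE : E.Δ ≠ 0) :
    discSum E ≤ ∑ᶠ v : Pr K, Real.log (max (fv v (E.c₄ ^ 3 / E.Δ)) 1) +
        5 * Real.log (addN E) - 4 * (∑ᶠ v : Pr K, pw v E) +
          22 * (Module.finrank ℚ K * Real.log 6) := by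
  classical
  have s1 := supp_disc E hE
  have s3 : (Function.support fun v : Pr K =>
    Real.log (max (fv v (E.c₄ ^ 3 / E.Δ)) 1)).Finite := Fs_ht _
  have s4 := supp_pw E hE
  have s5 := supp_aw E hE
  have s6 : (Function.support fun v : Pr K => Real.log (fv v (6 : K))).Finite :=
    Fs_log (K := K) (z := (6 : K)) (by norm_num)
  have s4' := supp_mul (-4) s4
  have s5' := supp_mul 10 s5
  have s6' := supp_mul (-22) s6
  have s35 := supp_add s3 s5'
  have s354 := supp_add s35 s4'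
  have key : ∑ᶠ v : Pr K, ((discExp v E : ℝ) * Real.log (Nv v)) ≤
      ∑ᶠ v : Pr K, (Real.log (max (fv v (E.c₄ ^ 3 / E.Δ)) 1) + 10 * aw v E + -4 * pw v E +
        -22 * Real.log (fv v (6 : K))) :=
    finsum_le_finsum' s1 (supp_add s354 s6') fun v => loc0 v E hE
  rw [sum_add s354 s6', sum_add s35 s4', sum_add s3 s5', sum_mul _ s4, sum_mul _ s5,
    sum_mul _ s6] at key
  have h6 := fin_nat (K := K) (n := 6) (by norm_num)
  push_cast at h6
  rw [h6] at key
  rw [log_addN E hE]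
  have e1 : discSum E = ∑ᶠ v : Pr K, (discExp v E : ℝ) * Real.log (Nv v) := rfl
  rw [e1]
  linarith

/-- bad reduction at a pole, with its weight -/
theorem bad_at' (E : WeierstrassCurve K) (hE0 : E.Δ ≠ 0) {x y : ℤ} (hy0 : y ≠ 0)
    (hj : E.c₄ ^ 3 / E.Δ = (x : K) / y) {p : ℕ} (hp : p.Prime) (h5 : 5 ≤ p) (hy : (p : ℤ) ∣ y)
    (hx : ¬ (p : ℤ) ∣ x) {v : HeightOneSpectrum (𝓞 K)} (hv : (p : 𝓞 K) ∈ v.asIdeal) :
    Real.log (Nv v) = mw v E + pw v E := by
  have hpole : 1 < fv v (E.c₄ ^ 3 / E.Δ) := by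
    by_contra hcon
    rw [not_lt, hj, fv_le_one_iff, map_div₀, val_int hp hv hx] at hcon
    have h2 := val_lt hv hy
    have h3 : v.valuation K (y : K) ≠ 0 := (v.valuation K).ne_zero_iff.2 (by exact_mod_cast hy0)
    have h4 : (1 : WithZero (Multiplicative ℤ)) ≤ v.valuation K (y : K) := by
      rw [div_le_iff₀ (zero_lt_iff.2 h3), one_mul] at hcon
      exact hcon
    exact absurd h2 (not_lt.2 h4)
  rw [bad_at E hE0 hy0 hj hp h5 hy hx hv]
  congr 1
  unfold aw pw
  by_cases h : ¬ SemiAt v E ∧ v.valuation K 6 = 1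
  · rw [if_pos (show v ∈ {v : Pr K | ¬ SemiAt v E ∧ v.valuation K 6 = 1} from h),
      if_pos ⟨h, hpole⟩]
  · rw [if_neg (show ¬ v ∈ {v : Pr K | ¬ SemiAt v E ∧ v.valuation K 6 = 1} from h),
      if_neg fun h' => h h'.1]

end

/-- **the conductor is large** -/
theorem cond_ge' (K : Type) [Field K] [NumberField K] {L : Type} [Field L] [NumberField L]
    [Algebra K L] (E : WeierstrassCurve L) (hE : E.Δ ≠ 0) {x y : ℤ} (hy0 : y ≠ 0)
    (hj : E.c₄ ^ 3 / E.Δ = (x : L) / y) (F : Finset ℕ)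
    (hF : ∀ l ∈ F, l.Prime ∧ (l : ℤ) ∣ y ∧ ¬ (l : ℤ) ∣ x ∧ 5 ≤ l) :
    (Module.finrank K L : ℝ) * ∑ l ∈ F, Real.log (l : ℝ) ≤
      Real.log (multN E) + ∑ᶠ v : Pr L, pw v E + rd K L := by
  classical
  obtain ⟨v0, -⟩ := exists_above K Nat.prime_two
  obtain ⟨pl, hpl⟩ : ∃ pl : ℕ → HeightOneSpectrum (𝓞 K), ∀ p : ℕ, p.Prime →
      ((p : ℕ) : 𝓞 K) ∈ (pl p).asIdeal := by
    refine ⟨fun p => if h : p.Prime then (exists_above K h).choose else v0, fun p hp => ?_⟩
    simp only [dif_pos hp]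
    exact (exists_above K hp).choose_spec
  have hinj : Set.InjOn pl (F : Set ℕ) := by
    intro p hp q hq h
    by_contra hne
    have hpp := (hF p hp).1
    have hqp := (hF q hq).1
    have h1 : ¬ (p : ℤ) ∣ (q : ℤ) := by
      intro hd
      exact hne ((Nat.prime_dvd_prime_iff_eq hpp hqp).mp (by exact_mod_cast hd))
    apply not_mem_of hpp (hpl p hpp) h1
    rw [h]
    exact_mod_cast hpl q hqp
  obtain ⟨T, hT, hle⟩ := cover K L (F.image pl)
  have h1 : ∑ l ∈ F, Real.log (l : ℝ) ≤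
      ∑ v ∈ F.image pl, Real.log (Ideal.absNorm v.asIdeal : ℝ) := by
    rw [Finset.sum_image hinj]
    refine Finset.sum_le_sum fun p hp => ?_
    have := (hF p hp).1.pos
    exact Real.log_le_log (by exact_mod_cast this) (le_norm (hF p hp).1 (hpl p (hF p hp).1))
  have h2 : ∑ w ∈ T, Real.log (Ideal.absNorm w.asIdeal : ℝ) ≤
      Real.log (multN E) + ∑ᶠ v : Pr L, pw v E := by
    have h3 : ∑ w ∈ T, Real.log (Ideal.absNorm w.asIdeal : ℝ) =
        ∑ w ∈ T, mw w E + ∑ w ∈ T, pw w E := by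
      rw [← Finset.sum_add_distrib]
      refine Finset.sum_congr rfl fun w hw => ?_
      obtain ⟨v, hv, hvw⟩ := hT w hw
      obtain ⟨l, hl, rfl⟩ := Finset.mem_image.1 hv
      obtain ⟨g1, g2, g3, g4⟩ := hF l hl
      have hw' := hvw _ (hpl l g1)
      rw [map_natCast] at hw'
      exact bad_at' E hE hy0 hj g1 g4 g2 g3 hw'
    have h4 := sum_le_fs (fun w => mw w E) (fun w => mw_nonneg w E) (supp_mw E hE) T
    have h5 := sum_le_fs (fun w => pw w E) (fun w => pw_nonneg w E) (supp_pw E hE) T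
    rw [h3, log_multN E hE]
    linarith
  have h7 : (0 : ℝ) ≤ Module.finrank K L := Nat.cast_nonneg _
  have h8 := mul_le_mul_of_nonneg_left h1 h7
  unfold rd
  linarith

/-- the values of the forms are small -/
theorem vals_le {n D : ℕ} {F G : MvPolynomial (Fin (n + 1)) ℤ} (hF : F.IsHomogeneous D)
    (hG : G.IsHomogeneous D) : ∃ C : ℝ, 0 ≤ C ∧ ∀ x : Fin (n + 1) → ℤ, x 0 ≠ 0 →
      ∃ H : ℝ, Real.log H ≤ D * Real.log (Ht x) + C ∧ |(eval x F : ℝ)| ≤ H ∧
        |(eval x G : ℝ)| ≤ H := by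
  obtain ⟨c1, h1, hc1⟩ := val_le F hF
  obtain ⟨c2, h2, hc2⟩ := val_le G hG
  refine ⟨Real.log (1 + c1 + c2), Real.log_nonneg (by linarith), fun x hx => ?_⟩
  have hHt : (1 : ℝ) ≤ Ht x := by exact_mod_cast Ht_pos hx
  refine ⟨(1 + c1 + c2) * (Ht x : ℝ) ^ D, ?_, ?_, ?_⟩
  · rw [Real.log_mul (by positivity) (by positivity), Real.log_pow]
    linarith
  · refine (hc1 x hx).trans (mul_le_mul_of_nonneg_right (by linarith) (by positivity))
  · refine (hc2 x hx).trans (mul_le_mul_of_nonneg_right (by linarith) (by positivity))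

/-- the height of the invariant -/
theorem lh_le {n D : ℕ} {F G : MvPolynomial (Fin (n + 1)) ℤ} (hF : F.IsHomogeneous D)
    (hG : G.IsHomogeneous D) : ∃ C : ℝ, 0 ≤ C ∧ ∀ x : Fin (n + 1) → ℤ, x 0 ≠ 0 → eval x G ≠ 0 →
      ∀ (L : Type) [Field L] [NumberField L],
        logHeight₁ (((eval x F : ℤ) : L) / ((eval x G : ℤ) : L)) ≤
          Module.finrank ℚ L * (D * Real.log (Ht x) + C) := by
  obtain ⟨C, hC, h⟩ := vals_le hF hG
  refine ⟨C, hC, fun x hx hGx L _ _ => ?_⟩
  obtain ⟨H, h1, h2, h3⟩ := h x hx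
  exact (ht_quot_le L hGx h2 h3).trans (mul_le_mul_of_nonneg_left h1 (Nat.cast_nonneg _))

/-- many prime poles make the conductor large -/
theorem many_cond {n : ℕ} {F G : MvPolynomial (Fin (n + 1)) ℤ} {θ : ℝ} {x : Fin (n + 1) → ℤ}
    (hGx : eval x G ≠ 0) (hM : ManyP F G θ x) (K L : Type) [Field K] [NumberField K] [Field L]
    [NumberField L] [Algebra K L] (E : WeierstrassCurve L) (hE : E.Δ ≠ 0)
    (hj : E.c₄ ^ 3 / E.Δ = ((eval x F : ℤ) : L) / ((eval x G : ℤ) : L)) :
    Module.finrank K L * (θ * Real.log (Ht x)) ≤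
      Real.log (multN E) + ∑ᶠ v : Pr L, pw v E + rd K L := by
  obtain ⟨A, hA, hbig⟩ := hM
  refine (mul_le_mul_of_nonneg_left hbig (Nat.cast_nonneg _)).trans
    (cond_ge' K E hE hGx hj A fun l hl => ?_)
  obtain ⟨h1, h2, h3, h4⟩ := hA l hl
  exact ⟨h1, h3, h4, by omega⟩

/-- the unstable height of all curves of the invariant -/
theorem unst_le {n D : ℕ} {F G : MvPolynomial (Fin (n + 1)) ℤ} (hF : F.IsHomogeneous D)
    (hG : G.IsHomogeneous D) : ∃ C : ℝ, 0 ≤ C ∧ ∀ x : Fin (n + 1) → ℤ, x 0 ≠ 0 → eval x G ≠ 0 →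
      ∀ (L : Type) [Field L] [NumberField L] (E : WeierstrassCurve L)
        (τ : InfinitePlace L → UpperHalfPlane), E.Δ ≠ 0 →
        E.c₄ ^ 3 / E.Δ = ((eval x F : ℤ) : L) / ((eval x G : ℤ) : L) →
        IsPeriod (E.c₄ ^ 3 / E.Δ) τ →
        discSum E + ∑ w : InfinitePlace L, (w.mult : ℝ) * arch (τ w) ≤
          Module.finrank ℚ L * (D * Real.log (Ht x) + C) + 5 * Real.log (addN E) -
            4 * (∑ᶠ v : Pr L, pw v E) := by
  obtain ⟨C1, hC1, h1⟩ := lh_le hF hG
  obtain ⟨C2, hC2, h2⟩ := stable_le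
  have l6 : 0 < Real.log 6 := Real.log_pos (by norm_num)
  refine ⟨C1 + C2 + 22 * Real.log 6, by positivity, fun x hx hGx L _ _ E τ hE hj hτ => ?_⟩
  have h3 := h1 x hx hGx L
  have h4 := h2 L E τ hτ
  have h5 := disc_sum0 E hE
  have e : ∑ᶠ v : Pr L, Real.log (max (fv v (E.c₄ ^ 3 / E.Δ)) 1) =
    ∑ᶠ v : HeightOneSpectrum (𝓞 L), Real.log (max (FinitePlace.mk v (E.c₄ ^ 3 / E.Δ)) 1) := rfl
  rw [e] at h5
  rw [← hj] at h3
  linarith

/-- the stable height of all curves of the invariant -/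
theorem stab_le {n D : ℕ} {F G : MvPolynomial (Fin (n + 1)) ℤ} (hF : F.IsHomogeneous D)
    (hG : G.IsHomogeneous D) : ∃ C : ℝ, 0 ≤ C ∧ ∀ x : Fin (n + 1) → ℤ, x 0 ≠ 0 → eval x G ≠ 0 →
      ∀ (L : Type) [Field L] [NumberField L] (E : WeierstrassCurve L)
        (τ : InfinitePlace L → UpperHalfPlane), E.Δ ≠ 0 →
        E.c₄ ^ 3 / E.Δ = ((eval x F : ℤ) : L) / ((eval x G : ℤ) : L) →
        IsPeriod (E.c₄ ^ 3 / E.Δ) τ →
        ∑ᶠ v : HeightOneSpectrum (𝓞 L), Real.log (max (FinitePlace.mk v (E.c₄ ^ 3 / E.Δ)) 1) +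
          ∑ w : InfinitePlace L, (w.mult : ℝ) * arch (τ w) ≤
          Module.finrank ℚ L * (D * Real.log (Ht x) + C) := by
  obtain ⟨C1, hC1, h1⟩ := lh_le hF hG
  obtain ⟨C2, hC2, h2⟩ := stable_le
  refine ⟨C1 + C2, by positivity, fun x hx hGx L _ _ E τ hE hj hτ => ?_⟩
  have h3 := h1 x hx hGx L
  have h4 := h2 L E τ hτ
  rw [← hj] at h3
  linarith

end Run7.h742.SZ
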