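import Pool.Agent.Run7.h742.SZ.Cp
import Pool.Agent.Run7.h742.SZ.Fh2

/-!
# Points of root stacks over all number fields (helper742)
-/

set_option autoImplicit false
set_option linter.unusedSectionVars false

namespace Run7.h742.ST

open NumberField IsDedekindDomain Height MvPolynomial
open Pool.Agent.TH910.Voj Run7.h742.VI Run7.h742.SZ Run7.h742.CP
open Pool.Agent.Y733.FF Pool.Agent.H691R3 Pool.Agent.Y733.LS Pool.Agent.N365.FH

/-- the primes above the rational primes in `F` -/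
theorem cover_rat (L : Type) [Field L] [NumberField L] (F : Finset ℕ) (hF : ∀ p ∈ F, p.Prime) :
    ∃ T : Finset (HeightOneSpectrum (𝓞 L)), (∀ w ∈ T, ∃ p ∈ F, (p : 𝓞 L) ∈ w.asIdeal) ∧
      (Module.finrank ℚ L : ℝ) * ∑ p ∈ F, Real.log (p : ℝ) ≤
        ∑ w ∈ T, Real.log (Ideal.absNorm w.asIdeal : ℝ) + Real.log |(discr L : ℝ)| := by
  classical
  obtain ⟨v0, -⟩ := exists_above (K := ℚ) Nat.prime_two
  obtain ⟨pl, hpl⟩ : ∃ pl : ℕ → HeightOneSpectrum (𝓞 ℚ), ∀ p : ℕ, p.Prime →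
      ((p : ℕ) : 𝓞 ℚ) ∈ (pl p).asIdeal := by
    refine ⟨fun p => if h : p.Prime then (exists_above (K := ℚ) h).choose else v0,
      fun p hp => ?_⟩
    simp only [dif_pos hp]
    exact (exists_above (K := ℚ) hp).choose_spec
  have hinj : Set.InjOn pl (F : Set ℕ) := by
    intro p hp q hq h
    by_contra hne
    have hpp := hF p hp
    have hqp := hF q hq
    have h1 : ¬ (p : ℤ) ∣ (q : ℤ) := by
      intro hd
      exact hne ((Nat.prime_dvd_prime_iff_eq hpp hqp).mp (by exact_mod_cast hd))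
    apply not_mem_of hpp (hpl p hpp) h1
    rw [h]
    exact_mod_cast hpl q hqp
  obtain ⟨T, hT, hle⟩ := cover ℚ L (F.image pl)
  refine ⟨T, fun w hw => ?_, ?_⟩
  · obtain ⟨v, hv, hvw⟩ := hT w hw
    obtain ⟨l, hl, rfl⟩ := Finset.mem_image.1 hv
    have hw' := hvw _ (hpl l (hF l hl))
    rw [map_natCast] at hw'
    exact ⟨l, hl, hw'⟩
  · have h1 : ∑ l ∈ F, Real.log (l : ℝ) ≤
        ∑ v ∈ F.image pl, Real.log (Ideal.absNorm v.asIdeal : ℝ) := by
      rw [Finset.sum_image hinj]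
      refine Finset.sum_le_sum fun p hp => ?_
      have := (hF p hp).pos
      exact Real.log_le_log (by exact_mod_cast this) (le_norm (hF p hp) (hpl p (hF p hp)))
    have h7 : (0 : ℝ) ≤ Module.finrank ℚ L := Nat.cast_nonneg _
    have h8 := mul_le_mul_of_nonneg_left h1 h7
    have h9 := rd_rat L
    unfold rd at h9
    linarith

variable {L : Type} [Field L] [NumberField L]

theorem sum_val {a : ℤ} (ha : a ≠ 0) (T : Finset (HeightOneSpectrum (𝓞 L))) :
    ∑ w ∈ T, -Real.log (fv w ((a : ℤ) : L)) ≤ Module.finrank ℚ L * Real.log |(a : ℝ)| := by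
  have hn : a.natAbs ≠ 0 := Int.natAbs_ne_zero.2 ha
  have habs : ∀ w : HeightOneSpectrum (𝓞 L), fv w ((a : ℤ) : L) = fv w ((a.natAbs : ℕ) : L) := by
    intro w
    rcases Int.natAbs_eq a with h | h
    · conv_lhs => rw [h]
      rw [Int.cast_natCast]
    · conv_lhs => rw [h]
      rw [Int.cast_neg, Int.cast_natCast, map_neg_eq_map]
  have h1 := fin_nat (K := L) hn
  have h2 : ∑ w ∈ T, -Real.log (fv w ((a.natAbs : ℕ) : L)) ≤
      ∑ᶠ w : HeightOneSpectrum (𝓞 L), -Real.log (fv w ((a.natAbs : ℕ) : L)) := by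
    refine sum_le_fs _ (fun w => ?_) ?_ T
    · have : fv w ((a.natAbs : ℕ) : L) ≤ 1 := (fv_Na (K := L) w).nat _
      have h0 : Real.log (fv w ((a.natAbs : ℕ) : L)) ≤ 0 :=
        Real.log_nonpos (apply_nonneg _ _) this
      linarith
    · have h3 : (Function.support fun w : HeightOneSpectrum (𝓞 L) =>
        Real.log (fv w ((a.natAbs : ℕ) : L))).Finite :=
          Fs_log (K := L) (z := ((a.natAbs : ℕ) : L)) (Nat.cast_ne_zero.2 hn)
      refine h3.subset fun w hw => ?_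
      rw [Function.mem_support] at hw ⊢
      intro h0
      exact hw (by rw [h0, neg_zero])
  have h3 : ∑ᶠ w : HeightOneSpectrum (𝓞 L), -Real.log (fv w ((a.natAbs : ℕ) : L)) =
      Module.finrank ℚ L * Real.log (a.natAbs : ℝ) := by
    rw [finsum_neg_distrib]
    have h4 : ∑ᶠ w : HeightOneSpectrum (𝓞 L), Real.log (fv w ((a.natAbs : ℕ) : L)) =
      -(Module.finrank ℚ L * Real.log (a.natAbs : ℝ)) := h1
    rw [h4, neg_neg]
  have h5 : (a.natAbs : ℝ) = |(a : ℝ)| := by rw [Nat.cast_natAbs, Int.cast_abs]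
  rw [h3, h5] at h2
  refine le_trans (le_of_eq ?_) h2
  exact Finset.sum_congr rfl fun w _ => by rw [habs]

/-- the point is integral on the root stack -/
def Integral {n q : ℕ} (S : Finset ℕ) (P : Fin q → MvPolynomial (Fin (n + 1)) ℤ)
    (e : Fin q → ℕ) (L : Type) [Field L] [NumberField L] (x : Fin (n + 1) → ℤ) : Prop :=
  ∀ w : HeightOneSpectrum (𝓞 L), (∀ p ∈ S, (p : 𝓞 L) ∉ w.asIdeal) → ∀ i, ∃ m : ℕ,
    w.valuation L ((eval x (P i) : ℤ) : L) = WithZero.exp (-((e i * m : ℕ) : ℤ))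

/-- the primes of the truncated counting function -/
def Near {n q : ℕ} (S : Finset ℕ) (P : Fin q → MvPolynomial (Fin (n + 1)) ℤ) (J : Finset (Fin q))
    {L : Type} [Field L] [NumberField L] (x : Fin (n + 1) → ℤ) (w : HeightOneSpectrum (𝓞 L)) :
    Prop :=
  (∀ p ∈ S, (p : 𝓞 L) ∉ w.asIdeal) ∧ ∃ i ∈ J, w.valuation L ((eval x (P i) : ℤ) : L) < 1

open Classical in
/-- the truncated counting function -/
noncomputable def trunc {n q : ℕ} (S : Finset ℕ) (P : Fin q → MvPolynomial (Fin (n + 1)) ℤ)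
    (J : Finset (Fin q)) (L : Type) [Field L] [NumberField L] (x : Fin (n + 1) → ℤ) : ℝ :=
  (∑ᶠ w : HeightOneSpectrum (𝓞 L),
    if Near S P J x w then Real.log (Ideal.absNorm w.asIdeal : ℝ) else 0) / Module.finrank ℚ L

theorem val_lt_one {a : ℤ} {p : ℕ} {w : HeightOneSpectrum (𝓞 L)} (hp : (p : 𝓞 L) ∈ w.asIdeal)
    (h : (p : ℤ) ∣ a) : w.valuation L ((a : ℤ) : L) < 1 := by
  obtain ⟨c, rfl⟩ := h
  have h1 : ((((p : ℤ) * c : ℤ)) : L) = algebraMap (𝓞 L) L (((p : ℤ) * c : ℤ) : 𝓞 L) := by simp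
  rw [h1, HeightOneSpectrum.valuation_lt_one_iff_mem, Int.cast_mul, Int.cast_natCast]
  exact Ideal.mul_mem_right _ _ hp

theorem supp_near {n q : ℕ} (S : Finset ℕ) (P : Fin q → MvPolynomial (Fin (n + 1)) ℤ)
    (J : Finset (Fin q)) (x : Fin (n + 1) → ℤ) (hx : ∀ i, eval x (P i) ≠ 0) :
    {w : HeightOneSpectrum (𝓞 L) | Near S P J x w}.Finite := by
  have h1 : ∀ i : Fin q, {w : HeightOneSpectrum (𝓞 L) |
      w.valuation L ((eval x (P i) : ℤ) : L) < 1}.Finite := by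
    intro i
    have hz : ((eval x (P i) : ℤ) : L) ≠ 0 := by exact_mod_cast hx i
    have h3 : (Function.support fun w : HeightOneSpectrum (𝓞 L) =>
      Real.log (fv w ((eval x (P i) : ℤ) : L))).Finite := Fs_log (K := L) hz
    refine h3.subset fun w hw => ?_
    rw [Function.mem_support]
    intro h0
    have h4 : fv w ((eval x (P i) : ℤ) : L) < 1 := by
      rw [fv_val]
      have h6 : StrictMono (WithZeroMulInt.toNNReal
          (NumberField.HeightOneSpectrum.absNorm_ne_zero w)) :=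
        WithZeroMulInt.toNNReal_strictMono
          (by exact_mod_cast NumberField.HeightOneSpectrum.one_lt_absNorm w)
      have h5 := h6 (show w.valuation L ((eval x (P i) : ℤ) : L) < 1 from hw)
      rw [map_one] at h5
      exact_mod_cast h5
    have h5 : 0 < fv w ((eval x (P i) : ℤ) : L) := AbsoluteValue.pos _ hz
    have := Real.log_neg h5 h4
    linarith
  refine (Set.finite_iUnion h1).subset ?_
  rintro w ⟨-, i, -, hi⟩
  exact Set.mem_iUnion.2 ⟨i, hi⟩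

/-- **the main inequality** -/
theorem main {n q : ℕ} (P : Fin q → MvPolynomial (Fin (n + 1)) ℤ) (x : Fin (n + 1) → ℤ)
    (hx : ∀ i, eval x (P i) ≠ 0) (S : Finset ℕ) (hS : ∀ p ∈ S, p.Prime) (e : Fin q → ℕ)
    (he : ∀ i, 1 ≤ e i) (hint : Integral S P e L x) (J : Finset (Fin q)) :
    logRad S (∏ i, eval x (P i)) ≤ trunc S P J L x +
      ∑ i ∈ Jᶜ, (1 / (e i : ℝ)) * Real.log |((eval x (P i) : ℤ) : ℝ)| +
        Real.log |(discr L : ℝ)| / Module.finrank ℚ L := by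
  classical
  have hd : (0 : ℝ) < Module.finrank ℚ L := by exact_mod_cast Module.finrank_pos
  obtain ⟨F, hF⟩ : ∃ F : Finset ℕ, F = (∏ i, eval x (P i)).natAbs.primeFactors \ S := ⟨_, rfl⟩
  have hFp : ∀ p ∈ F, p.Prime ∧ p ∉ S ∧ ∃ i, (p : ℤ) ∣ eval x (P i) := by
    intro p hp
    rw [hF, Finset.mem_sdiff, Nat.mem_primeFactors] at hp
    obtain ⟨⟨hp1, hp2, -⟩, hp3⟩ := hp
    have h2 : (p : ℤ) ∣ ∏ j, eval x (P j) := Int.natCast_dvd.2 hp2
    obtain ⟨j, -, hj⟩ := (Prime.dvd_finsetProd_iff (Nat.prime_iff_prime_int.mp hp1) _).1 h2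
    exact ⟨hp1, hp3, j, hj⟩
  obtain ⟨T, hT, hle⟩ := cover_rat L F fun p hp => (hFp p hp).1
  have hTout : ∀ w ∈ T, (∀ p ∈ S, (p : 𝓞 L) ∉ w.asIdeal) ∧ ∃ i,
      w.valuation L ((eval x (P i) : ℤ) : L) < 1 := by
    intro w hw
    obtain ⟨p, hp, hpw⟩ := hT w hw
    obtain ⟨h1, h2, i, h3⟩ := hFp p hp
    refine ⟨fun r hr hrw => ?_, i, val_lt_one hpw h3⟩
    have h4 : ¬ (p : ℤ) ∣ (r : ℤ) := by
      intro hd
      have := (Nat.prime_dvd_prime_iff_eq h1 (hS r hr)).mp (by exact_mod_cast hd)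
      rw [this] at h2
      exact h2 hr
    apply not_mem_of h1 hpw h4
    exact_mod_cast hrw
  -- the local inequality
  have hloc : ∀ w ∈ T, Real.log (Ideal.absNorm w.asIdeal : ℝ) ≤
      (if Near S P J x w then Real.log (Ideal.absNorm w.asIdeal : ℝ) else 0) +
        ∑ i ∈ Jᶜ, (1 / (e i : ℝ)) * -Real.log (fv w ((eval x (P i) : ℤ) : L)) := by
    intro w hw
    have hterm : ∀ i, ∃ m : ℕ, (1 / (e i : ℝ)) * -Real.log (fv w ((eval x (P i) : ℤ) : L)) =
        m * Real.log (Nv w) ∧ (w.valuation L ((eval x (P i) : ℤ) : L) < 1 → 1 ≤ m) := by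
      intro i
      obtain ⟨m, hm⟩ := hint w (hTout w hw).1 i
      have h1 := fv_exp w hm
      have hei : (e i : ℝ) ≠ 0 := by
        have := he i
        positivity
      refine ⟨m, ?_, fun h => ?_⟩
      · rw [h1]
        push_cast
        field_simp
      · by_contra h0
        have h2 : m = 0 := by omega
        rw [hm, h2] at h
        simp at h
    have hN := log_Nv_pos w
    have hnn : ∀ i, 0 ≤ (1 / (e i : ℝ)) * -Real.log (fv w ((eval x (P i) : ℤ) : L)) := by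
      intro i
      obtain ⟨m, hm, -⟩ := hterm i
      rw [hm]
      positivity
    by_cases hnear : Near S P J x w
    · rw [if_pos hnear]
      have := Finset.sum_nonneg fun i (_ : i ∈ Jᶜ) => hnn i
      linarith
    · rw [if_neg hnear, zero_add]
      obtain ⟨h1, i, hi⟩ := hTout w hw
      have hiJ : i ∈ Jᶜ := by
        rw [Finset.mem_compl]
        intro h
        exact hnear ⟨h1, i, h, hi⟩
      refine le_trans ?_ (Finset.single_le_sum (fun i _ => hnn i) hiJ)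
      obtain ⟨m, hm, hm1⟩ := hterm i
      rw [hm]
      have h2 : (1 : ℝ) ≤ m := by exact_mod_cast hm1 hi
      have h3 : Real.log (Ideal.absNorm w.asIdeal : ℝ) = Real.log (Nv w) := rfl
      rw [h3]
      nlinarith
  have h1 : ∑ w ∈ T, Real.log (Ideal.absNorm w.asIdeal : ℝ) ≤
      ∑ w ∈ T, (if Near S P J x w then Real.log (Ideal.absNorm w.asIdeal : ℝ) else 0) +
        ∑ i ∈ Jᶜ, (1 / (e i : ℝ)) *
          (Module.finrank ℚ L * Real.log |((eval x (P i) : ℤ) : ℝ)|) := by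
    refine (Finset.sum_le_sum hloc).trans ?_
    rw [Finset.sum_add_distrib, Finset.sum_comm]
    refine add_le_add le_rfl (Finset.sum_le_sum fun i _ => ?_)
    rw [← Finset.mul_sum]
    exact mul_le_mul_of_nonneg_left (sum_val (hx i) T) (by positivity)
  have h2 : ∑ w ∈ T, (if Near S P J x w then Real.log (Ideal.absNorm w.asIdeal : ℝ) else 0) ≤
      ∑ᶠ w : HeightOneSpectrum (𝓞 L),
        if Near S P J x w then Real.log (Ideal.absNorm w.asIdeal : ℝ) else 0 := by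
    refine sum_le_fs _ (fun w => ?_) ?_ T
    · split_ifs
      · exact (log_Nv_pos w).le
      · exact le_rfl
    · refine (supp_near S P J x hx).subset fun w hw => ?_
      rw [Function.mem_support] at hw
      by_contra h
      exact hw (if_neg h)
  have h3 : logRad S (∏ i, eval x (P i)) = ∑ p ∈ F, Real.log (p : ℝ) := by rw [hF]; rfl
  rw [h3]
  unfold trunc
  have h4 : (Module.finrank ℚ L : ℝ) * ∑ p ∈ F, Real.log (p : ℝ) ≤
      (∑ᶠ w : HeightOneSpectrum (𝓞 L),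
        if Near S P J x w then Real.log (Ideal.absNorm w.asIdeal : ℝ) else 0) +
      ∑ i ∈ Jᶜ, (1 / (e i : ℝ)) *
          (Module.finrank ℚ L * Real.log |((eval x (P i) : ℤ) : ℝ)|) +
      Real.log |(discr L : ℝ)| := by linarith
  have h5 : ∑ i ∈ Jᶜ, (1 / (e i : ℝ)) *
      (Module.finrank ℚ L * Real.log |((eval x (P i) : ℤ) : ℝ)|) =
      Module.finrank ℚ L * ∑ i ∈ Jᶜ, (1 / (e i : ℝ)) * Real.log |((eval x (P i) : ℤ) : ℝ)| := by
    rw [Finset.mul_sum]
    exact Finset.sum_congr rfl fun i _ => by ring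
  rw [h5] at h4
  obtain ⟨A, hA⟩ : ∃ A : ℝ, A = ∑ᶠ w : HeightOneSpectrum (𝓞 L),
        if Near S P J x w then Real.log (Ideal.absNorm w.asIdeal : ℝ) else 0 := ⟨_, rfl⟩
  obtain ⟨B, hB⟩ : ∃ B : ℝ, B = ∑ i ∈ Jᶜ, (1 / (e i : ℝ)) *
    Real.log |((eval x (P i) : ℤ) : ℝ)| := ⟨_, rfl⟩
  rw [← hA, ← hB] at h4 ⊢
  have h6 : A / Module.finrank ℚ L + B + Real.log |(discr L : ℝ)| / Module.finrank ℚ L =
      (A + Module.finrank ℚ L * B + Real.log |(discr L : ℝ)|) / Module.finrank ℚ L := by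
    field_simp
  rw [h6, le_div_iff₀ hd]
  linarith

/-- the failures: some field `L`, orders `e`, set `S`, and `J` -/
def Fail {n q : ℕ} (P : Fin q → MvPolynomial (Fin (n + 1)) ℤ) (k : Fin q → ℕ) (θ c : ℝ) :
    Set (Fin (n + 1) → ℤ) :=
  {x | x 0 ≠ 0 ∧ ((∃ i, eval x (P i) = 0) ∨ ∃ (L : Type) (_ : Field L) (_ : NumberField L)
    (S : Finset ℕ) (e : Fin q → ℕ) (J : Finset (Fin q)), (∀ p ∈ S, p.Prime) ∧ (∀ i, 1 ≤ e i) ∧
      Integral S P e L x ∧ trunc S P J L x + Real.log |(discr L : ℝ)| / Module.finrank ℚ L +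
        ∑ p ∈ S, Real.log (p : ℝ) + c < (θ - ∑ i ∈ Jᶜ, (k i : ℝ) / e i) * Real.log (Ht x))}

theorem trunc_nonneg {n q : ℕ} (S : Finset ℕ) (P : Fin q → MvPolynomial (Fin (n + 1)) ℤ)
    (J : Finset (Fin q)) (L : Type) [Field L] [NumberField L] (x : Fin (n + 1) → ℤ) :
    0 ≤ trunc S P J L x := by
  unfold trunc
  refine div_nonneg (finsum_nonneg fun w => ?_) (Nat.cast_nonneg _)
  split_ifs
  · exact (log_Nv_pos w).le
  · exact le_rfl

theorem disc_nonneg (L : Type) [Field L] [NumberField L] :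
    0 ≤ Real.log |(discr L : ℝ)| / Module.finrank ℚ L := by
  refine div_nonneg (Real.log_nonneg ?_) (Nat.cast_nonneg _)
  have h5 : (1 : ℤ) ≤ |discr L| := Int.one_le_abs (discr_ne_zero L)
  have h6 : |(discr L : ℝ)| = ((|discr L| : ℤ) : ℝ) := by push_cast; rfl
  rw [h6]
  exact_mod_cast h5

/-- the constant of the values -/
theorem upper {n q : ℕ} (P : Fin q → MvPolynomial (Fin (n + 1)) ℤ) (k : Fin q → ℕ)
    (hP : ∀ j, (P j).IsHomogeneous (k j)) : ∃ C : ℝ, 0 ≤ C ∧ ∀ x : Fin (n + 1) → ℤ, x 0 ≠ 0 →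
      (∀ i, eval x (P i) ≠ 0) → ∀ (L : Type) [Field L] [NumberField L] (S : Finset ℕ)
        (e : Fin q → ℕ) (J : Finset (Fin q)), (∀ p ∈ S, p.Prime) → (∀ i, 1 ≤ e i) →
        Integral S P e L x → logRad ∅ (∏ i, eval x (P i)) ≤ trunc S P J L x +
          Real.log |(discr L : ℝ)| / Module.finrank ℚ L + ∑ p ∈ S, Real.log (p : ℝ) +
            (∑ i ∈ Jᶜ, (k i : ℝ) / e i) * Real.log (Ht x) + C := by
  choose c hc hval using fun j => val_le (P j) (hP j)
  have hlc : ∀ j, 0 ≤ Real.log (c j) := fun j => Real.log_nonneg (hc j)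
  refine ⟨∑ j, Real.log (c j), Finset.sum_nonneg fun j _ => hlc j,
    fun x hx hne L _ _ S e J hS he hint => ?_⟩
  have h1 := main P x hne S hS e he hint J
  have h2 := logRad_S S (∏ i, eval x (P i))
  have h3 : ∀ i, (1 / (e i : ℝ)) * Real.log |((eval x (P i) : ℤ) : ℝ)| ≤
      (k i : ℝ) / e i * Real.log (Ht x) + Real.log (c i) := by
    intro i
    have h4 := hval i x hx
    have h5 : (0 : ℝ) < |((eval x (P i) : ℤ) : ℝ)| := by
      rw [abs_pos]
      exact_mod_cast hne i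
    have hHt : (1 : ℝ) ≤ Ht x := by exact_mod_cast Ht_pos hx
    have h6 := Real.log_le_log h5 h4
    have hc0 : 0 < c i := by linarith [hc i]
    rw [Real.log_mul hc0.ne' (by positivity), Real.log_pow] at h6
    have he1 : (1 : ℝ) ≤ e i := by exact_mod_cast he i
    have he2 : 1 / (e i : ℝ) ≤ 1 := by
      rw [div_le_one (by linarith)]
      exact he1
    calc (1 / (e i : ℝ)) * Real.log |((eval x (P i) : ℤ) : ℝ)| ≤
        (1 / (e i : ℝ)) * (Real.log (c i) + k i * Real.log (Ht x)) :=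
          mul_le_mul_of_nonneg_left h6 (by positivity)
      _ = (k i : ℝ) / e i * Real.log (Ht x) + 1 / (e i : ℝ) * Real.log (c i) := by ring
      _ ≤ _ := by
          have := mul_le_mul_of_nonneg_right he2 (hlc i)
          linarith
  have h4 : ∑ i ∈ Jᶜ, (1 / (e i : ℝ)) * Real.log |((eval x (P i) : ℤ) : ℝ)| ≤
      (∑ i ∈ Jᶜ, (k i : ℝ) / e i) * Real.log (Ht x) + ∑ i, Real.log (c i) := by
    refine (Finset.sum_le_sum fun i _ => h3 i).trans ?_
    rw [Finset.sum_add_distrib, Finset.sum_mul]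
    exact add_le_add le_rfl (Finset.sum_le_sum_of_subset_of_nonneg (Finset.subset_univ _)
      fun i _ _ => hlc i)
  linarith

theorem fail_bad {n q : ℕ} (P : Fin q → MvPolynomial (Fin (n + 1)) ℤ) (k : Fin q → ℕ)
    (hP : ∀ j, (P j).IsHomogeneous (k j)) {θ θ' : ℝ} (hθ : θ < θ') (c : ℝ) :
    ∃ T : ℕ, ∀ x ∈ Fail P k θ c, T < Ht x → x ∈ Bad P ∅ θ' := by
  obtain ⟨C, hC, hup⟩ := upper P k hP
  have hlim : Filter.Tendsto (fun B : ℕ => (θ' - θ) * Real.log (B : ℝ)) Filter.atTop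
      Filter.atTop :=
    (Real.tendsto_log_atTop.comp tendsto_natCast_atTop_atTop).const_mul_atTop (by linarith)
  obtain ⟨T, hT⟩ := Filter.eventually_atTop.mp (hlim.eventually_gt_atTop (C - c))
  refine ⟨T, fun x hxF hTx => ?_⟩
  obtain ⟨hx, h0 | ⟨L, i1, i2, S, e, J, hS, he, hint, hlt⟩⟩ := hxF
  · exact Or.inl h0
  by_cases hne : ∀ i, eval x (P i) ≠ 0
  · right
    have h1 := hup x hx hne L S e J hS he hint
    have h2 := hT _ hTx.le
    linarith
  · push Not at hne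
    exact Or.inl hne

/-- power saving -/
theorem fail_ps {n q : ℕ} (hn : 1 ≤ n) (P : Fin q → MvPolynomial (Fin (n + 1)) ℤ)
    (k : Fin q → ℕ) (h : Comps P k) {θ : ℝ} (hθ : θ < ∑ j, ((min (k j) 2 : ℕ) : ℝ)) (c : ℝ) :
    PS n (Fail P k θ c) := by
  obtain ⟨θ', h1, h2⟩ := exists_between hθ
  obtain ⟨T, hT⟩ := fail_bad P k h.1 h1 c
  refine (PS.union (bad_single hn P k h ∅ θ' h2) (PS.small hn T)).mono ?_
  intro x hx
  by_cases hTx : T < Ht x
  · exact Or.inl (hT x hx hTx)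
  · exact Or.inr (show ((Ht x : ℕ) : ℝ) ≤ (T : ℝ) by exact_mod_cast not_lt.1 hTx)

/-- **one set** -/
theorem fail_univ {n : ℕ} (hn : 1 ≤ n) :
    ∃ E₀ : Set (Fin (n + 1) → ℤ), (∀ ε : ℝ, 0 < ε → ∃ B₀ : ℕ, ∀ B : ℕ, B₀ ≤ B → ∀ M : Set ℕ,
        (Set.ncard {x | x ∈ Pts n M B ∧ x ∈ E₀} : ℝ) ≤ ε * (Pts n M B).ncard) ∧
      ∀ (q : ℕ) (P : Fin q → MvPolynomial (Fin (n + 1)) ℤ) (k : Fin q → ℕ), Comps P k →
        ∀ θ : ℝ, θ < ∑ j, ((min (k j) 2 : ℕ) : ℝ) → ∃ C : ℝ, ∀ x : Fin (n + 1) → ℤ, x 0 ≠ 0 →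
          x ∉ E₀ → (∀ i, eval x (P i) ≠ 0) →
          ∀ (L : Type) [Field L] [NumberField L] (S : Finset ℕ) (e : Fin q → ℕ)
            (J : Finset (Fin q)), (∀ p ∈ S, p.Prime) → (∀ i, 1 ≤ e i) → Integral S P e L x →
            (θ - ∑ i ∈ Jᶜ, (k i : ℝ) / e i) * Real.log (Ht x) ≤ trunc S P J L x +
              Real.log |(discr L : ℝ)| / Module.finrank ℚ L + ∑ p ∈ S, Real.log (p : ℝ) + C := by
  obtain ⟨E₀, hE₀, hall⟩ := universal hn
  refine ⟨E₀, hE₀, fun q P k h θ hθ => ?_⟩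
  obtain ⟨C, hC, hup⟩ := upper P k h.1
  obtain ⟨T, hT⟩ := hall q P k h ∅ θ hθ
  have hT0 : 0 ≤ Real.log ((T : ℝ) + 1) :=
    Real.log_nonneg (by have : (0 : ℝ) ≤ T := Nat.cast_nonneg _; linarith)
  refine ⟨C + |θ| * Real.log ((T : ℝ) + 1), fun x hx hxE hne L _ _ S e J hS he hint => ?_⟩
  have hHt : (1 : ℝ) ≤ Ht x := by exact_mod_cast Ht_pos hx
  have hlog : 0 ≤ Real.log (Ht x) := Real.log_nonneg hHt
  have h4 := trunc_nonneg S P J L x
  have h5 := disc_nonneg L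
  have h6 : 0 ≤ ∑ p ∈ S, Real.log (p : ℝ) :=
    Finset.sum_nonneg fun p _ => Real.log_natCast_nonneg p
  by_cases hTx : T < Ht x
  · have h1 := hup x hx hne L S e J hS he hint
    have h2 : θ * Real.log (Ht x) ≤ logRad ∅ (∏ i, eval x (P i)) := by
      by_contra hcon
      exact hxE (hT x (Or.inr (not_le.1 hcon)) hTx)
    have h3 : 0 ≤ |θ| * Real.log ((T : ℝ) + 1) := mul_nonneg (abs_nonneg _) hT0
    linarith
  · have h1 : Real.log (Ht x) ≤ Real.log ((T : ℝ) + 1) := by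
      refine Real.log_le_log (by linarith) ?_
      have : (Ht x : ℝ) ≤ T := by exact_mod_cast not_lt.1 hTx
      linarith
    have h2 : (θ - ∑ i ∈ Jᶜ, (k i : ℝ) / e i) * Real.log (Ht x) ≤ |θ| * Real.log (Ht x) := by
      refine mul_le_mul_of_nonneg_right ?_ hlog
      have : 0 ≤ ∑ i ∈ Jᶜ, (k i : ℝ) / e i := Finset.sum_nonneg fun i _ => by positivity
      linarith [le_abs_self θ]
    have h3 : |θ| * Real.log (Ht x) ≤ |θ| * Real.log ((T : ℝ) + 1) :=
      mul_le_mul_of_nonneg_left h1 (abs_nonneg _)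
    linarith

end Run7.h742.ST
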