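import Pool.Agent.Run7.h742.SZ.Mp
import Pool.Agent.N365.SM.E

/-!
# The Shimura maps of the newforms above integral points of affine space (helper742)
-/

set_option autoImplicit false

namespace Run7.h742.SZ

open MvPolynomial Run7.h742.VI
open Pool.Agent.TH133.SH (IsBasis CoordBound)
open Pool.Agent.H39R3 (GMin condW condW_pos)
open Pool.Agent.N365.SM (Att height_le)

/-- the bounds for the Shimura maps of all newforms attached to all curves of invariant `j`, with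
exponent `κ` and constant `C` -/
def ShC (C κ : ℝ) (j : ℚ) : Prop :=
  ∀ W : WeierstrassCurve ℤ, GMin W → (W.c₄ : ℚ) ^ 3 / (W.Δ : ℚ) = j →
    ∀ (N : ℕ) (a : ℕ → ℤ) (ρ : ℝ), 1 ≤ N → Att N a W ρ → ∀ Ω₁ Ω₂ : ℂ, IsBasis N a Ω₁ Ω₂ →
      ∀ p q r s : ℤ, p * s - q * r = 1 → (N : ℤ) ∣ r →
        (|r| ≤ (N : ℤ) ^ 2 → CoordBound a Ω₁ Ω₂ p q r s (C * ρ * (N : ℝ) ^ κ)) ∧
        (r ≠ 0 → CoordBound a Ω₁ Ω₂ p q r s
          (C * ρ * (N : ℝ) ^ (κ + 1) * (1 + Real.log |(r : ℝ)|)))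

theorem ShC.mono {C C' κ : ℝ} {j : ℚ} (h : ShC C κ j) (hC : C ≤ C') : ShC C' κ j := by
  intro W hW hj N a ρ hN hA Ω₁ Ω₂ hb p q r s hdet hr
  obtain ⟨h1, h2⟩ := h W hW hj N a ρ hN hA Ω₁ Ω₂ hb p q r s hdet hr
  have hρ := hA.pos
  have hNpos : (0 : ℝ) < N := by exact_mod_cast hN
  have hp1 : 0 ≤ (N : ℝ) ^ κ := by positivity
  have hp2 : 0 ≤ (N : ℝ) ^ (κ + 1) := by positivity
  refine ⟨fun hrN m' n' hmn => ?_, fun hr0 m' n' hmn => ?_⟩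
  · obtain ⟨a1, a2⟩ := h1 hrN m' n' hmn
    have hle : C * ρ * (N : ℝ) ^ κ ≤ C' * ρ * (N : ℝ) ^ κ :=
      mul_le_mul_of_nonneg_right (mul_le_mul_of_nonneg_right hC hρ.le) hp1
    exact ⟨a1.trans hle, a2.trans hle⟩
  · obtain ⟨a1, a2⟩ := h2 hr0 m' n' hmn
    have hlog : 0 ≤ 1 + Real.log |(r : ℝ)| := by
      have h1 : (1 : ℝ) ≤ |(r : ℝ)| := by exact_mod_cast Int.one_le_abs hr0
      have := Real.log_nonneg h1
      linarith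
    have hle : C * ρ * (N : ℝ) ^ (κ + 1) * (1 + Real.log |(r : ℝ)|) ≤
        C' * ρ * (N : ℝ) ^ (κ + 1) * (1 + Real.log |(r : ℝ)|) :=
      mul_le_mul_of_nonneg_right (mul_le_mul_of_nonneg_right
        (mul_le_mul_of_nonneg_right hC hρ.le) hp2) hlog
    exact ⟨a1.trans hle, a2.trans hle⟩

/-- the bounds from many prime poles -/
theorem shC_of {x y : ℤ} (hx0 : x ≠ 0) (hy0 : y ≠ 0) {K η : ℝ} (hη : 0 ≤ η) (hK : 0 < K)
    (h : ∀ c : ℕ, 0 < c → (∀ l : ℕ, l.Prime → 5 ≤ l → (l : ℤ) ∣ y → ¬ (l : ℤ) ∣ x → l ∣ c) →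
      |(x : ℝ)| + |(y : ℝ)| ≤ K * (c : ℝ) ^ η) :
    ShC (36 * (10 ^ 21 * K) ^ ((1 : ℝ) / 12)) (53 / 12 + η / 12) ((x : ℚ) / y) := by
  intro W hW hj N a ρ hN hA Ω₁ Ω₂ hb p q r s hdet hr
  have hjZ : W.c₄ ^ 3 * y = x * W.Δ := by
    have hΔ : (W.Δ : ℚ) ≠ 0 := by exact_mod_cast hW.1
    have hyQ : (y : ℚ) ≠ 0 := by exact_mod_cast hy0
    rw [div_eq_div_iff hΔ hyQ] at hj
    exact_mod_cast hj
  obtain ⟨hH, hdiv⟩ := height_le hW hx0 hy0 hjZ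
  have hcpos : 0 < condW W := condW_pos W
  have hxy := h (condW W) hcpos fun l h1 h2 h3 h4 => hdiv l h1 h2 h3 h4
  have hNpos : (0 : ℝ) < N := by exact_mod_cast hN
  have hN1 : (1 : ℝ) ≤ N := by exact_mod_cast hN
  have hcN : (condW W : ℝ) ≤ N := by exact_mod_cast Nat.le_of_dvd hN hA.lev
  have hc0 : (0 : ℝ) < condW W := by exact_mod_cast hcpos
  obtain ⟨E, hE⟩ : ∃ E : ℝ, E = (10 ^ 21 * K) ^ ((1 : ℝ) / 12) := ⟨_, rfl⟩
  have hKpos : 0 < 10 ^ 21 * K := by positivity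
  have hE0 : 0 < E := by rw [hE]; positivity
  obtain ⟨R, hR⟩ : ∃ R : ℝ, R = E * (N : ℝ) ^ ((η + 5) / 12) := ⟨_, rfl⟩
  have hRpos : 0 < R := by rw [hR]; positivity
  have hE12 : E ^ 12 = 10 ^ 21 * K := by
    obtain ⟨X, hX⟩ : ∃ X : ℝ, X = 10 ^ 21 * K := ⟨_, rfl⟩
    have hX0 : 0 < X := by rw [hX]; exact hKpos
    rw [hE, ← hX, ← Real.rpow_natCast, ← Real.rpow_mul hX0.le]
    have e1 : (1 : ℝ) / 12 * ((12 : ℕ) : ℝ) = 1 := by push_cast; norm_num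
    rw [e1, Real.rpow_one]
  have hN12 : ((N : ℝ) ^ ((η + 5) / 12)) ^ 12 = (N : ℝ) ^ (η + 5) := by
    rw [← Real.rpow_natCast, ← Real.rpow_mul hNpos.le]
    have e2 : (η + 5) / 12 * ((12 : ℕ) : ℝ) = η + 5 := by push_cast; ring
    rw [e2]
  have hR12 : R ^ 12 = 10 ^ 21 * K * (N : ℝ) ^ (η + 5) := by
    rw [hR, mul_pow, hE12, hN12]
  have hHR : max (|(W.c₄ : ℝ)| ^ 3) ((W.c₆ : ℝ) ^ 2) ≤ R ^ 12 := by
    refine hH.trans ?_
    rw [hR12]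
    have e : (condW W : ℝ) ^ (η + 5) = (condW W : ℝ) ^ η * (condW W : ℝ) ^ 5 := by
      rw [Real.rpow_add hc0]
      congr 1
      exact_mod_cast Real.rpow_natCast (condW W : ℝ) 5
    calc 10 ^ 21 * (|(x : ℝ)| + |(y : ℝ)|) * (condW W : ℝ) ^ 5
        ≤ 10 ^ 21 * (K * (condW W : ℝ) ^ η) * (condW W : ℝ) ^ 5 := by
          refine mul_le_mul_of_nonneg_right (mul_le_mul_of_nonneg_left hxy (by positivity))
            (by positivity)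
      _ = 10 ^ 21 * K * (condW W : ℝ) ^ (η + 5) := by rw [e]; ring
      _ ≤ _ := mul_le_mul_of_nonneg_left (Real.rpow_le_rpow hc0.le hcN (by linarith)) hKpos.le
  obtain ⟨k1, k2⟩ := hA.all hN hRpos hHR hb p q r s hdet hr
  have hρ := hA.pos
  have e5 : (N : ℝ) ^ (53 / 12 + η / 12) = (N : ℝ) ^ ((η + 5) / 12) * (N : ℝ) ^ 4 := by
    have e : 53 / 12 + η / 12 = (η + 5) / 12 + ((4 : ℕ) : ℝ) := by push_cast; ring
    rw [e, Real.rpow_add hNpos, Real.rpow_natCast]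
  have e6 : (N : ℝ) ^ (53 / 12 + η / 12 + 1) = (N : ℝ) ^ ((η + 5) / 12) * (N : ℝ) ^ 5 := by
    have e : 53 / 12 + η / 12 + 1 = (η + 5) / 12 + ((5 : ℕ) : ℝ) := by push_cast; ring
    rw [e, Real.rpow_add hNpos, Real.rpow_natCast]
  have hn0 : 0 ≤ (N : ℝ) ^ ((η + 5) / 12) := by positivity
  rw [← hE]
  refine ⟨fun hrN m' n' hmn => ?_, fun hr0 m' n' hmn => ?_⟩
  · have hle : 18 * ρ * (r : ℝ) ^ 2 * R ≤ 36 * E * ρ * (N : ℝ) ^ (53 / 12 + η / 12) := by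
      rw [e5, hR]
      have h1 : (r : ℝ) ^ 2 ≤ (N : ℝ) ^ 4 := by
        have h5 : |(r : ℝ)| ≤ (N : ℝ) ^ 2 := by exact_mod_cast hrN
        calc (r : ℝ) ^ 2 = |(r : ℝ)| ^ 2 := (sq_abs _).symm
          _ ≤ ((N : ℝ) ^ 2) ^ 2 := pow_le_pow_left₀ (abs_nonneg _) h5 2
          _ = _ := by ring
      have hρR : 0 ≤ ρ * E * (N : ℝ) ^ ((η + 5) / 12) := by positivity
      have h2 : 0 ≤ (r : ℝ) ^ 2 := sq_nonneg _
      calc 18 * ρ * (r : ℝ) ^ 2 * (E * (N : ℝ) ^ ((η + 5) / 12))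
          = ρ * E * (N : ℝ) ^ ((η + 5) / 12) * (18 * (r : ℝ) ^ 2) := by ring
        _ ≤ ρ * E * (N : ℝ) ^ ((η + 5) / 12) * (36 * (N : ℝ) ^ 4) := by
            refine mul_le_mul_of_nonneg_left ?_ hρR
            linarith
        _ = _ := by ring
    obtain ⟨a1, a2⟩ := k1 m' n' hmn
    exact ⟨a1.trans hle, a2.trans hle⟩
  · have hle : 36 * ρ * (N : ℝ) ^ 5 * R * (1 + Real.log |(r : ℝ)|) =
        36 * E * ρ * (N : ℝ) ^ (53 / 12 + η / 12 + 1) * (1 + Real.log |(r : ℝ)|) := by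
      rw [e6, hR]
      ring
    obtain ⟨a1, a2⟩ := k2 hr0 m' n' hmn
    rw [hle] at a1 a2
    exact ⟨a1, a2⟩

/-- for every constant, if the point is high -/
theorem shC_many {n D : ℕ} {F G : MvPolynomial (Fin (n + 1)) ℤ} (hF : F.IsHomogeneous D)
    (hG : G.IsHomogeneous D) {η θ : ℝ} (hη : (D : ℝ) < η * θ) (hθ : 0 < θ) {C : ℝ} (hC : 0 < C) :
    ∃ T : ℕ, ∀ x : Fin (n + 1) → ℤ, x 0 ≠ 0 → eval x G ≠ 0 → T < Ht x → ManyP F G θ x →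
      ShC C (53 / 12 + η / 12) (((eval x F : ℤ) : ℚ) / ((eval x G : ℤ) : ℚ)) := by
  obtain ⟨c1, h1, hc1⟩ := val_le F hF
  obtain ⟨c2, h2, hc2⟩ := val_le G hG
  obtain ⟨δ, hδ⟩ : ∃ δ : ℝ, δ = η * θ - D := ⟨_, rfl⟩
  have hδ0 : 0 < δ := by rw [hδ]; linarith
  have hη0 : 0 ≤ η := by
    by_contra hcon
    rw [not_le] at hcon
    have hD : (0 : ℝ) ≤ D := Nat.cast_nonneg _
    nlinarith
  obtain ⟨K, hK⟩ : ∃ K : ℝ, K = (C / 36) ^ 12 / 10 ^ 21 := ⟨_, rfl⟩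
  have hK0 : 0 < K := by rw [hK]; positivity
  have hCK : 36 * (10 ^ 21 * K) ^ ((1 : ℝ) / 12) = C := by
    have e : 10 ^ 21 * K = (C / 36) ^ 12 := by rw [hK]; field_simp
    obtain ⟨X, hX⟩ : ∃ X : ℝ, X = C / 36 := ⟨_, rfl⟩
    have hX0 : 0 < X := by rw [hX]; positivity
    rw [e, ← hX, ← Real.rpow_natCast, ← Real.rpow_mul hX0.le]
    have e1 : ((12 : ℕ) : ℝ) * ((1 : ℝ) / 12) = 1 := by push_cast; norm_num
    rw [e1, Real.rpow_one, hX]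
    ring
  have hlim : Filter.Tendsto (fun B : ℕ => (B : ℝ) ^ δ) Filter.atTop Filter.atTop :=
    (tendsto_rpow_atTop hδ0).comp tendsto_natCast_atTop_atTop
  obtain ⟨T, hT⟩ := Filter.eventually_atTop.mp (hlim.eventually_ge_atTop ((c1 + c2) / K))
  refine ⟨max T 1, fun x hx hGx hTx hM => ?_⟩
  have hTx1 : T ≤ Ht x := (le_max_left _ _).trans hTx.le
  have hTx2 : 1 < Ht x := (le_max_right _ _).trans_lt hTx
  have hHt : (1 : ℝ) < Ht x := by exact_mod_cast hTx2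
  have hHt0 : (0 : ℝ) < Ht x := by linarith
  have hlog : 0 < Real.log (Ht x) := Real.log_pos hHt
  obtain ⟨A, hA, hbig⟩ := hM
  have hF0 : eval x F ≠ 0 := by
    intro h0
    have hne : A.Nonempty := by
      rw [Finset.nonempty_iff_ne_empty]
      rintro rfl
      rw [Finset.sum_empty] at hbig
      have := mul_pos hθ hlog
      linarith
    obtain ⟨p, hp⟩ := hne
    apply (hA p hp).2.2.2
    rw [h0]
    exact dvd_zero _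
  rw [← hCK]
  refine shC_of hF0 hGx hη0 hK0 fun c hc0 hc => ?_
  have hAc : (∏ p ∈ A, p) ∣ c := by
    refine Finset.prod_primes_dvd _ (fun l hl => (hA l hl).1.prime) fun l hl => ?_
    obtain ⟨g1, g2, g3, g4⟩ := hA l hl
    exact hc l g1 (by omega) g3 g4
  have hlp : Real.log ((∏ p ∈ A, p : ℕ) : ℝ) = ∑ p ∈ A, Real.log (p : ℝ) := by
    rw [Nat.cast_prod, Real.log_prod (s := A) (f := fun p => ((p : ℕ) : ℝ)) (fun p hp => by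
      have := (hA p hp).1.pos
      positivity)]
  have hc0' : (0 : ℝ) < c := by exact_mod_cast hc0
  have hcθ : (Ht x : ℝ) ^ θ ≤ c := by
    have h3 : ((∏ p ∈ A, p : ℕ) : ℝ) ≤ c := by exact_mod_cast Nat.le_of_dvd hc0 hAc
    have hpos : (0 : ℝ) < ((∏ p ∈ A, p : ℕ) : ℝ) := by
      have : 0 < ∏ p ∈ A, p := Finset.prod_pos fun p hp => (hA p hp).1.pos
      exact_mod_cast this
    refine le_trans ?_ h3
    rw [← Real.log_le_log_iff (by positivity) hpos, Real.log_rpow hHt0, hlp]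
    exact hbig
  have h4 : (Ht x : ℝ) ^ (η * θ) ≤ (c : ℝ) ^ η := by
    rw [mul_comm, Real.rpow_mul hHt0.le]
    exact Real.rpow_le_rpow (by positivity) hcθ hη0
  have h5 : (Ht x : ℝ) ^ (η * θ) = (Ht x : ℝ) ^ D * (Ht x : ℝ) ^ δ := by
    have e : η * θ = (D : ℝ) + δ := by rw [hδ]; ring
    rw [e, Real.rpow_add hHt0, Real.rpow_natCast]
  have h6 : (c1 + c2) / K ≤ (Ht x : ℝ) ^ δ := hT _ hTx1
  rw [div_le_iff₀ hK0] at h6
  have h7 : 0 ≤ (Ht x : ℝ) ^ D := by positivity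
  calc |((eval x F : ℤ) : ℝ)| + |((eval x G : ℤ) : ℝ)|
      ≤ c1 * (Ht x : ℝ) ^ D + c2 * (Ht x : ℝ) ^ D := add_le_add (hc1 x hx) (hc2 x hx)
    _ = (Ht x : ℝ) ^ D * (c1 + c2) := by ring
    _ ≤ (Ht x : ℝ) ^ D * ((Ht x : ℝ) ^ δ * K) := mul_le_mul_of_nonneg_left h6 h7
    _ = K * (Ht x : ℝ) ^ (η * θ) := by rw [h5]; ring
    _ ≤ K * (c : ℝ) ^ η := mul_le_mul_of_nonneg_left h4 hK0.le

/-- for low points -/
theorem shC_low {n D : ℕ} {F G : MvPolynomial (Fin (n + 1)) ℤ} (hF : F.IsHomogeneous D)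
    (hG : G.IsHomogeneous D) (T : ℕ) : ∃ C : ℝ, ∀ η : ℝ, 0 ≤ η → ∀ x : Fin (n + 1) → ℤ,
      x 0 ≠ 0 → eval x F ≠ 0 → eval x G ≠ 0 → Ht x ≤ T →
      ShC C (53 / 12 + η / 12) (((eval x F : ℤ) : ℚ) / ((eval x G : ℤ) : ℚ)) := by
  obtain ⟨c1, h1, hc1⟩ := val_le F hF
  obtain ⟨c2, h2, hc2⟩ := val_le G hG
  refine ⟨36 * (10 ^ 21 * ((c1 + c2) * (max T 1 : ℝ) ^ D)) ^ ((1 : ℝ) / 12),
    fun η hη x hx hF0 hG0 hT => ?_⟩
  have hm : (1 : ℝ) ≤ max (T : ℝ) 1 := le_max_right _ _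
  refine shC_of hF0 hG0 hη (by positivity) fun c hc0 _ => ?_
  have hTx : (Ht x : ℝ) ≤ max (T : ℝ) 1 := by
    refine le_trans ?_ (le_max_left _ _)
    exact_mod_cast hT
  have hHt0 : (0 : ℝ) ≤ Ht x := Nat.cast_nonneg _
  have hp : (Ht x : ℝ) ^ D ≤ (max (T : ℝ) 1) ^ D := pow_le_pow_left₀ hHt0 hTx D
  have hc1' : (1 : ℝ) ≤ (c : ℝ) ^ η := Real.one_le_rpow (by exact_mod_cast hc0) hη
  calc |((eval x F : ℤ) : ℝ)| + |((eval x G : ℤ) : ℝ)|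
      ≤ c1 * (Ht x : ℝ) ^ D + c2 * (Ht x : ℝ) ^ D := add_le_add (hc1 x hx) (hc2 x hx)
    _ = (c1 + c2) * (Ht x : ℝ) ^ D := by ring
    _ ≤ (c1 + c2) * (max (T : ℝ) 1) ^ D := mul_le_mul_of_nonneg_left hp (by linarith)
    _ ≤ (c1 + c2) * (max (T : ℝ) 1) ^ D * (c : ℝ) ^ η :=
        le_mul_of_one_le_right (by positivity) hc1'

/-- a good `θ` -/
theorem exists_th'' {D ω η : ℝ} (hD : 0 ≤ D) (h : D < η * ω) (hω : 0 ≤ ω) :
    0 ≤ η ∧ ∃ θ : ℝ, 0 < θ ∧ θ < ω ∧ D < η * θ := by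
  have hω0 : 0 < ω := by
    rcases hω.eq_or_lt with h0 | h0
    · rw [← h0] at h
      linarith
    · exact h0
  have hc : 0 < η := by
    by_contra hcon
    rw [not_lt] at hcon
    nlinarith
  refine ⟨hc.le, (D / η + ω) / 2, by positivity, ?_, ?_⟩
  · have : D / η < ω := by rw [div_lt_iff₀ hc]; linarith
    linarith
  · have h1 : η * ((D / η + ω) / 2) = (D + η * ω) / 2 := by field_simp
    rw [h1]
    linarith

/-- power saving -/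
theorem sh_ps {n q D : ℕ} (hn : 1 ≤ n) {F G : MvPolynomial (Fin (n + 1)) ℤ}
    {P : Fin q → MvPolynomial (Fin (n + 1)) ℤ} {k : Fin q → ℕ} (h : Inv D F G P k) {η C : ℝ}
    (hη : (D : ℝ) < η * ∑ j, ((min (k j) 2 : ℕ) : ℝ)) (hC : 0 < C) :
    PS n {x | x 0 ≠ 0 ∧ eval x G ≠ 0 ∧
      ¬ ShC C (53 / 12 + η / 12) (((eval x F : ℤ) : ℚ) / ((eval x G : ℤ) : ℚ))} := by
  have hω : 0 ≤ ∑ j, ((min (k j) 2 : ℕ) : ℝ) := Finset.sum_nonneg fun j _ => Nat.cast_nonneg _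
  obtain ⟨-, θ, h1, h2, h3⟩ := exists_th'' (Nat.cast_nonneg D) hη hω
  obtain ⟨T, hT⟩ := shC_many h.hF h.hG h3 h1 hC
  refine (PS.union (many_ps hn h h2) (PS.small hn T)).mono ?_
  rintro x ⟨hx, hG, hE⟩
  by_contra hcon
  rw [Set.mem_union, not_or] at hcon
  obtain ⟨c1, c2⟩ := hcon
  have hM : ManyP F G θ x := by
    by_contra hM
    exact c1 ⟨hx, hM⟩
  have hTx : T < Ht x := by
    by_contra hT'
    exact c2 (show ((Ht x : ℕ) : ℝ) ≤ (T : ℝ) by exact_mod_cast not_lt.1 hT')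
  exact hE (hT x hx hG hTx hM)

/-- **one exceptional set** -/
theorem sh_univ {n : ℕ} (hn : 1 ≤ n) :
    ∃ E₀ : Set (Fin (n + 1) → ℤ), (∀ ε : ℝ, 0 < ε → ∃ B₀ : ℕ, ∀ B : ℕ, B₀ ≤ B → ∀ M : Set ℕ,
        (Set.ncard {x | x ∈ Pts n M B ∧ x ∈ E₀} : ℝ) ≤ ε * (Pts n M B).ncard) ∧
      ∀ (D q : ℕ) (F G : MvPolynomial (Fin (n + 1)) ℤ)
        (P : Fin q → MvPolynomial (Fin (n + 1)) ℤ) (k : Fin q → ℕ), Inv D F G P k →
        ∀ η : ℝ, (D : ℝ) < η * (∑ j, ((min (k j) 2 : ℕ) : ℝ)) → ∃ C : ℝ,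
          ∀ x : Fin (n + 1) → ℤ, x 0 ≠ 0 → x ∉ E₀ → eval x F ≠ 0 → eval x G ≠ 0 →
            ShC C (53 / 12 + η / 12) (((eval x F : ℤ) : ℚ) / ((eval x G : ℤ) : ℚ)) := by
  obtain ⟨E₀, hE₀, hall⟩ := many_univ hn
  refine ⟨E₀, hE₀, fun D q F G P k h η hη => ?_⟩
  have hω : 0 ≤ ∑ j, ((min (k j) 2 : ℕ) : ℝ) := Finset.sum_nonneg fun j _ => Nat.cast_nonneg _
  obtain ⟨hη0, θ, h1, h2, h3⟩ := exists_th'' (Nat.cast_nonneg D) hη hω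
  obtain ⟨T1, hT1⟩ := hall D q F G P k h θ h2
  obtain ⟨T2, hT2⟩ := shC_many h.hF h.hG h3 h1 (one_pos)
  obtain ⟨C, hC⟩ := shC_low h.hF h.hG (max T1 T2)
  refine ⟨max C 1, fun x hx hxE hFx hGx => ?_⟩
  by_cases hTx : Ht x ≤ max T1 T2
  · exact (hC η hη0 x hx hFx hGx hTx).mono (le_max_left _ _)
  · rw [not_le] at hTx
    exact (hT2 x hx hGx ((le_max_right _ _).trans_lt hTx)
      (hT1 x hx hxE ((le_max_left _ _).trans_lt hTx))).mono (le_max_right _ _)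

end Run7.h742.SZ
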