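import Pool.Agent.Run7.h742.SZ.Mp
import Pool.Agent.N365.HY.K3
import Pool.Agent.N365.HY.A
import Pool.Agent.N365.HY.B
import Pool.Agent.N365.HY.C
import Pool.Agent.N365.HY.D
import Pool.Agent.N365.HY.E
import Pool.Agent.N365.HY.F
import Pool.Agent.N365.HY.G

/-!
# Families of hyperelliptic curves over affine space (helper742)
-/

set_option autoImplicit false

namespace Run7.h742.SZ

open NumberField Run7.h742.VI
open Pool.Agent.W318 (IsHyp discN discNorm badNorm)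
open Pool.Agent.N365.HY

/-- the member of the family at `x` -/
noncomputable def spec {n : ℕ} (Φ : Polynomial (MvPolynomial (Fin (n + 1)) ℤ))
    (x : Fin (n + 1) → ℤ) : Polynomial ℤ := Φ.map (MvPolynomial.eval x)

theorem spec_bound {n N m : ℕ} (Φ : Polynomial (MvPolynomial (Fin (n + 1)) ℤ))
    (hΦ : ∀ i, (Φ.coeff i).IsHomogeneous N) : ∃ c : ℝ, 1 ≤ c ∧ ∀ x : Fin (n + 1) → ℤ, x 0 ≠ 0 →
      (spec Φ x).natDegree ≤ m → ∀ i, |((spec Φ x).coeff i : ℝ)| ≤ c * (Ht x : ℝ) ^ N := by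
  choose c hc h using fun i => val_le (Φ.coeff i) (hΦ i)
  have h0 : ∀ i, 0 ≤ c i := fun i => by linarith [hc i]
  refine ⟨1 + ∑ i ∈ Finset.range (m + 1), c i, ?_, fun x hx hd i => ?_⟩
  · have := Finset.sum_nonneg fun i (_ : i ∈ Finset.range (m + 1)) => h0 i
    linarith
  · unfold spec
    rw [Polynomial.coeff_map]
    by_cases hi : i < m + 1
    · refine (h i x hx).trans (mul_le_mul_of_nonneg_right ?_ (by positivity))
      have := Finset.single_le_sum (f := c) (fun j _ => h0 j) (Finset.mem_range.mpr hi)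
      linarith
    · have h1 : (spec Φ x).coeff i = 0 := Polynomial.coeff_eq_zero_of_natDegree_lt (by omega)
      unfold spec at h1
      rw [Polynomial.coeff_map] at h1
      have h2 := Finset.sum_nonneg fun i (_ : i ∈ Finset.range (m + 1)) => h0 i
      rw [h1, Int.cast_zero, abs_zero]
      positivity

theorem hy_point {n g d N : ℕ} (hg : 2 ≤ g) {Φ : Polynomial (MvPolynomial (Fin (n + 1)) ℤ)}
    (hΦ : ∀ i, (Φ.coeff i).IsHomogeneous N) {θ : ℝ} (hθ : 0 < θ) {κ : ℕ}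
    (hκ : (d : ℝ) * (N * (4 * g + 6)) < κ * θ) :
    ∃ T : ℕ, ∀ x : Fin (n + 1) → ℤ, x 0 ≠ 0 → T < Ht x →
      IsHyp g ((spec Φ x).map (Int.castRingHom ℚ)) →
      ∀ (k : ℕ) (I : MvPolynomial (Fin (2 * g + 2 + 1)) ℤ), IsInvariant g k I →
      ∀ A D : MvPolynomial (Fin (n + 1)) ℤ,
        ((MvPolynomial.eval x A : ℤ) : ℚ) *
          discN (2 * g + 2) ((spec Φ x).map (Int.castRingHom ℚ)) ^ k =
        ((MvPolynomial.eval x D : ℤ) : ℚ) *
          ev (2 * g + 2) I ((spec Φ x).map (Int.castRingHom ℚ)) ^ (4 * g + 2) →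
        ManyP A D θ x → AllForms g d (κ + beta g d) ((spec Φ x).map (Int.castRingHom ℚ)) := by
  obtain ⟨c1, hc1, hform⟩ := spec_bound (m := 2 * g + 2) Φ hΦ
  obtain ⟨c2, hc2, hdisc⟩ := t_G (2 * g + 2)
  obtain ⟨δ, hδ⟩ : ∃ δ : ℝ, δ = κ * θ - (d : ℝ) * (N * (4 * g + 6)) := ⟨_, rfl⟩
  have hδ0 : 0 < δ := by rw [hδ]; linarith
  have hlim : Filter.Tendsto (fun B : ℕ => δ * Real.log (B : ℝ)) Filter.atTop Filter.atTop :=
    (Real.tendsto_log_atTop.comp tendsto_natCast_atTop_atTop).const_mul_atTop hδ0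
  obtain ⟨T, hT⟩ := Filter.eventually_atTop.mp (hlim.eventually_ge_atTop
    (d * (Real.log c2 + (4 * g + 6) * Real.log c1) + κ * Real.log 2))
  refine ⟨T, fun x hx hTx hhyp k I hI A D hxy hM => ?_⟩
  have hTx := hT _ hTx.le
  have hHt : (1 : ℝ) ≤ Ht x := by exact_mod_cast Ht_pos hx
  intro K _ _ hdeg P hP hiso
  obtain ⟨S, hS, hbig⟩ := hM
  have hG : (spec Φ x).natDegree ≤ 2 * g + 2 := by
    have h1 := hhyp.2
    rw [Polynomial.natDegree_map_eq_of_injective (Int.castRingHom ℚ).injective_int] at h1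
    omega
  have hne : spec Φ x ≠ 0 := by
    intro h0
    rw [h0, Polynomial.map_zero] at hhyp
    exact hhyp.1.ne_zero rfl
  have hmapK : (spec Φ x).map (Int.castRingHom K) =
      ((spec Φ x).map (Int.castRingHom ℚ)).map (algebraMap ℚ K) := by
    rw [Polynomial.map_map]
    congr 1
    exact RingHom.ext_int _ _
  have hhypK : IsHyp g ((spec Φ x).map (Int.castRingHom K)) := by
    have := hhyp.good.map (algebraMap ℚ K)
    rw [hmapK]
    exact ⟨this.1, by have := this.2; omega⟩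
  obtain ⟨m, hm, hmle⟩ := hdisc (spec Φ x) (c1 * (Ht x : ℝ) ^ N)
    (by have := one_le_pow₀ hHt (n := N); nlinarith) hne hG (hform x hx hG)
  have hup := discNorm_le_of (t_D t_A) t_E g d hg hdeg P (spec Φ x) hP hhypK
    (by rw [hmapK]; exact hiso) m hm
  have hlow := prod_le_badNorm (t_C t_A t_B) t_F hg hI hhyp hxy
    (fun p hp => ⟨(hS p hp).1, (hS p hp).2.2.1, (hS p hp).2.2.2⟩) hP hiso
  -- logarithms
  have hS0 : 0 < ∏ p ∈ S, p := Finset.prod_pos fun p hp => (hS p hp).1.pos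
  have hb1 : 1 ≤ badNorm g P := by omega
  have hb : (1 : ℝ) ≤ badNorm g P := by exact_mod_cast hb1
  have hlogS : Real.log ((∏ p ∈ S, p : ℕ) : ℝ) = ∑ p ∈ S, Real.log (p : ℝ) := by
    rw [Nat.cast_prod, Real.log_prod (s := S) (f := fun p => ((p : ℕ) : ℝ)) (fun p hp => by
      have := (hS p hp).1.pos
      positivity)]
  have hlb : θ * Real.log (Ht x) - Real.log 2 ≤ Real.log (badNorm g P : ℝ) := by
    have h1 : ((∏ p ∈ S, p : ℕ) : ℝ) ≤ 2 * (badNorm g P : ℝ) := by exact_mod_cast hlow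
    have h2 := Real.log_le_log (by exact_mod_cast hS0) h1
    rw [hlogS, Real.log_mul (by norm_num) (by linarith)] at h2
    linarith
  obtain ⟨M, hMd⟩ : ∃ M : ℝ, M = c2 * (c1 * (Ht x : ℝ) ^ N) ^ (2 * (2 * g + 2) + 2) := ⟨_, rfl⟩
  rw [← hMd] at hmle
  have hc1' : 1 ≤ c1 * (Ht x : ℝ) ^ N := by have := one_le_pow₀ hHt (n := N); nlinarith
  have hM1 : 1 ≤ M := by
    rw [hMd]
    have := one_le_pow₀ hc1' (n := 2 * (2 * g + 2) + 2)
    nlinarith
  have hlM : Real.log M = Real.log c2 + (4 * g + 6) * (Real.log c1 + N * Real.log (Ht x)) := by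
    rw [hMd, Real.log_mul (by linarith) (by positivity), Real.log_pow,
      Real.log_mul (by linarith) (by positivity), Real.log_pow]
    push_cast
    ring
  have hMb : M ^ d ≤ (badNorm g P : ℝ) ^ κ := by
    rw [← Real.log_le_log_iff (by positivity) (by positivity), Real.log_pow, Real.log_pow, hlM]
    have h1 : (κ : ℝ) * (θ * Real.log (Ht x) - Real.log 2) ≤
        κ * Real.log (badNorm g P : ℝ) := mul_le_mul_of_nonneg_left hlb (Nat.cast_nonneg _)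
    have h2 : δ * Real.log (Ht x) = κ * (θ * Real.log (Ht x)) -
        d * ((4 * g + 6) * (N * Real.log (Ht x))) := by rw [hδ]; ring
    linarith
  have hmM : ((m.natAbs ^ d : ℕ) : ℝ) ≤ ((badNorm g P ^ κ : ℕ) : ℝ) := by
    push_cast
    refine le_trans (pow_le_pow_left₀ (by positivity) ?_ d) hMb
    rw [Nat.cast_natAbs, Int.cast_abs]
    exact hmle
  have hfin : m.natAbs ^ d ≤ badNorm g P ^ κ := by exact_mod_cast hmM
  rw [pow_add]
  exact hup.trans (Nat.mul_le_mul_right _ hfin)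

/-- a good `θ` -/
theorem exists_th2 {D ω c : ℝ} (hD : 0 ≤ D) (h : D < c * ω) (hω : 0 ≤ ω) :
    ∃ θ : ℝ, 0 < θ ∧ θ < ω ∧ D < c * θ := by
  have hω0 : 0 < ω := by
    rcases hω.eq_or_lt with h0 | h0
    · rw [← h0] at h
      linarith
    · exact h0
  have hc : 0 < c := by
    by_contra hcon
    rw [not_lt] at hcon
    nlinarith
  refine ⟨(D / c + ω) / 2, by positivity, ?_, ?_⟩
  · have : D / c < ω := by rw [div_lt_iff₀ hc]; linarith
    linarith
  · have h1 : c * ((D / c + ω) / 2) = (D + c * ω) / 2 := by field_simp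
    rw [h1]
    linarith

/-- `A / D` is the absolute invariant of the family -/
def AbsInv {n : ℕ} (g k : ℕ) (I : MvPolynomial (Fin (2 * g + 2 + 1)) ℤ)
    (Φ : Polynomial (MvPolynomial (Fin (n + 1)) ℤ)) (A D : MvPolynomial (Fin (n + 1)) ℤ) : Prop :=
  ∀ x : Fin (n + 1) → ℤ, IsHyp g ((spec Φ x).map (Int.castRingHom ℚ)) →
    ((MvPolynomial.eval x A : ℤ) : ℚ) *
      discN (2 * g + 2) ((spec Φ x).map (Int.castRingHom ℚ)) ^ k =
    ((MvPolynomial.eval x D : ℤ) : ℚ) *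
      ev (2 * g + 2) I ((spec Φ x).map (Int.castRingHom ℚ)) ^ (4 * g + 2)

/-- power saving -/
theorem hy_ps {n q E g d N : ℕ} (hn : 1 ≤ n) (hg : 2 ≤ g)
    {Φ : Polynomial (MvPolynomial (Fin (n + 1)) ℤ)} (hΦ : ∀ i, (Φ.coeff i).IsHomogeneous N)
    {k : ℕ} {I : MvPolynomial (Fin (2 * g + 2 + 1)) ℤ} (hI : IsInvariant g k I)
    {A D : MvPolynomial (Fin (n + 1)) ℤ} (hJ : AbsInv g k I Φ A D)
    {P : Fin q → MvPolynomial (Fin (n + 1)) ℤ} {e : Fin q → ℕ} (h : Inv E A D P e) {κ : ℕ}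
    (hκ : (d : ℝ) * (N * (4 * g + 6)) < κ * ∑ j, ((min (e j) 2 : ℕ) : ℝ)) :
    PS n {x | x 0 ≠ 0 ∧ IsHyp g ((spec Φ x).map (Int.castRingHom ℚ)) ∧
      ¬ AllForms g d (κ + beta g d) ((spec Φ x).map (Int.castRingHom ℚ))} := by
  have hω : 0 ≤ ∑ j, ((min (e j) 2 : ℕ) : ℝ) := Finset.sum_nonneg fun j _ => Nat.cast_nonneg _
  obtain ⟨θ, h1, h2, h3⟩ := exists_th2 (by positivity) hκ hω
  obtain ⟨T, hT⟩ := hy_point hg hΦ h1 h3
  refine (PS.union (many_ps hn h h2) (PS.small hn T)).mono ?_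
  rintro x ⟨hx, hh, hF⟩
  by_contra hcon
  rw [Set.mem_union, not_or] at hcon
  obtain ⟨c1, c2⟩ := hcon
  have hM : ManyP A D θ x := by
    by_contra hM
    exact c1 ⟨hx, hM⟩
  have hTx : T < Ht x := by
    by_contra hT'
    exact c2 (show ((Ht x : ℕ) : ℝ) ≤ (T : ℝ) by exact_mod_cast not_lt.1 hT')
  exact hF (hT x hx hTx hh k I hI A D (hJ x hh) hM)

/-- **one exceptional set** -/
theorem hy_univ {n : ℕ} (hn : 1 ≤ n) :
    ∃ E₀ : Set (Fin (n + 1) → ℤ), (∀ ε : ℝ, 0 < ε → ∃ B₀ : ℕ, ∀ B : ℕ, B₀ ≤ B → ∀ M : Set ℕ,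
        (Set.ncard {x | x ∈ Pts n M B ∧ x ∈ E₀} : ℝ) ≤ ε * (Pts n M B).ncard) ∧
      ∀ (q E g d N : ℕ), 2 ≤ g → ∀ (Φ : Polynomial (MvPolynomial (Fin (n + 1)) ℤ)),
        (∀ i, (Φ.coeff i).IsHomogeneous N) →
        ∀ (k : ℕ) (I : MvPolynomial (Fin (2 * g + 2 + 1)) ℤ), IsInvariant g k I →
        ∀ (A D : MvPolynomial (Fin (n + 1)) ℤ), AbsInv g k I Φ A D →
        ∀ (P : Fin q → MvPolynomial (Fin (n + 1)) ℤ) (e : Fin q → ℕ), Inv E A D P e →
        ∀ κ : ℕ, (d : ℝ) * (N * (4 * g + 6)) < κ * (∑ j, ((min (e j) 2 : ℕ) : ℝ)) → ∃ T : ℕ,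
          ∀ x : Fin (n + 1) → ℤ, x 0 ≠ 0 → x ∉ E₀ → T < Ht x →
            IsHyp g ((spec Φ x).map (Int.castRingHom ℚ)) →
            AllForms g d (κ + beta g d) ((spec Φ x).map (Int.castRingHom ℚ)) := by
  obtain ⟨E₀, hE₀, hall⟩ := many_univ hn
  refine ⟨E₀, hE₀, fun q E g d N hg Φ hΦ k I hI A D hJ P e h κ hκ => ?_⟩
  have hω : 0 ≤ ∑ j, ((min (e j) 2 : ℕ) : ℝ) := Finset.sum_nonneg fun j _ => Nat.cast_nonneg _
  obtain ⟨θ, h1, h2, h3⟩ := exists_th2 (by positivity) hκ hω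
  obtain ⟨T1, hT1⟩ := hall E q A D P e h θ h2
  obtain ⟨T2, hT2⟩ := hy_point hg hΦ h1 h3
  refine ⟨max T1 T2, fun x hx hxE hTx hh => ?_⟩
  exact hT2 x hx ((le_max_right _ _).trans_lt hTx) hh k I hI A D (hJ x hh)
    (hT1 x hx hxE ((le_max_left _ _).trans_lt hTx))

end Run7.h742.SZ
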