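import Pool.Agent.Run7.h742.VI.Univ

/-!
# One exceptional set for countably many sparse properties, in all sets of denominators (helper742)
-/

set_option autoImplicit false

namespace Run7.h742.SZ

open MvPolynomial Pool.Agent.TH910.Voj Pool.Agent.H813R3.Voj Run7.h742.VI

/-- relative density zero in the points with denominators in `M`, uniformly in `M`, with a power
saving -/
def PS (n : ℕ) (Q : Set (Fin (n + 1) → ℤ)) : Prop :=
  ∃ c : ℝ, 0 < c ∧ ∃ C : ℝ, 0 < C ∧ ∀ B : ℕ, 1 ≤ B → ∀ M : Set ℕ,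
    (Set.ncard {x | x ∈ Pts n M B ∧ x ∈ Q} : ℝ) ≤ C * (B : ℝ) ^ (-c) * (Pts n M B).ncard

theorem PS.empty (n : ℕ) : PS n ∅ := by
  refine ⟨1, one_pos, 1, one_pos, fun B hB M => ?_⟩
  simp only [Set.mem_empty_iff_false, and_false, Set.ofPred_false, Set.ncard_empty, Nat.cast_zero]
  positivity

theorem PS.union {n : ℕ} {P Q : Set (Fin (n + 1) → ℤ)} (hP : PS n P) (hQ : PS n Q) :
    PS n (P ∪ Q) := by
  obtain ⟨c, hc, C, hC, h⟩ := hP
  obtain ⟨c', hc', C', hC', h'⟩ := hQ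
  refine ⟨min c c', lt_min hc hc', C + C', by positivity, fun B hB M => ?_⟩
  have hB1 : (1 : ℝ) ≤ B := by exact_mod_cast hB
  have h1 : (Set.ncard {x | x ∈ Pts n M B ∧ x ∈ P ∪ Q} : ℝ) ≤
      Set.ncard {x | x ∈ Pts n M B ∧ x ∈ P} + Set.ncard {x | x ∈ Pts n M B ∧ x ∈ Q} := by
    have h2 : {x | x ∈ Pts n M B ∧ x ∈ P ∪ Q} =
        {x | x ∈ Pts n M B ∧ x ∈ P} ∪ {x | x ∈ Pts n M B ∧ x ∈ Q} := by
      ext x
      simp only [Set.mem_ofPred_eq, Set.mem_union]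
      tauto
    rw [h2]
    exact_mod_cast Set.ncard_union_le _ _
  refine h1.trans ?_
  rw [add_mul, add_mul]
  refine add_le_add ((h B hB M).trans ?_) ((h' B hB M).trans ?_)
  · refine mul_le_mul_of_nonneg_right (mul_le_mul_of_nonneg_left ?_ hC.le) (Nat.cast_nonneg _)
    exact Real.rpow_le_rpow_of_exponent_le hB1 (neg_le_neg (min_le_left c c'))
  · refine mul_le_mul_of_nonneg_right (mul_le_mul_of_nonneg_left ?_ hC'.le) (Nat.cast_nonneg _)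
    exact Real.rpow_le_rpow_of_exponent_le hB1 (neg_le_neg (min_le_right c c'))

theorem PS.mono {n : ℕ} {P Q : Set (Fin (n + 1) → ℤ)} (hQ : PS n Q) (h : P ⊆ Q) : PS n P := by
  obtain ⟨c, hc, C, hC, h'⟩ := hQ
  refine ⟨c, hc, C, hC, fun B hB M => le_trans ?_ (h' B hB M)⟩
  exact_mod_cast Set.ncard_le_ncard (s := {x | x ∈ Pts n M B ∧ x ∈ P})
    (t := {x | x ∈ Pts n M B ∧ x ∈ Q}) (fun x hx => ⟨hx.1, h hx.2⟩)
    ((Pts_finite n M B).subset fun x hx => hx.1)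

theorem PS.iUnion {n r : ℕ} {P : Fin r → Set (Fin (n + 1) → ℤ)} (h : ∀ j, PS n (P j)) :
    PS n (⋃ j, P j) := by
  classical
  induction r with
  | zero => exact (PS.empty n).mono (by simp)
  | succ r ih =>
    have h1 := ih (P := fun j => P (Fin.castSucc j)) (fun j => h _)
    refine (h1.union (h (Fin.last r))).mono ?_
    intro x hx
    rw [Set.mem_iUnion] at hx
    obtain ⟨j, hj⟩ := hx
    rcases Fin.eq_castSucc_or_eq_last j with ⟨i, rfl⟩ | rfl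
    · exact Or.inl (Set.mem_iUnion.2 ⟨i, hj⟩)
    · exact Or.inr hj

/-- from sparse properties to the density -/
theorem PS.of_sparse {n : ℕ} (hn : 1 ≤ n) {P : ℕ → (Fin (n + 1) → ℤ) → Prop} (hP : SSparse n P)
    (Q : Set (Fin (n + 1) → ℤ))
    (hQ : ∀ B x, 1 ≤ B → x 0 ≠ 0 → Ht x ≤ B → x ∈ Q → P B x) : PS n Q := by
  classical
  obtain ⟨c, hc, C, hC, hmain⟩ := hP
  obtain ⟨c₁, hc₁, hlow⟩ := Pts_lower hn (half_pos hc)
  refine ⟨c / 2, half_pos hc, C / c₁, by positivity, fun B hB M => ?_⟩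
  have hBr : (1 : ℝ) ≤ B := by exact_mod_cast hB
  have hB0 : (0 : ℝ) < B := by linarith
  refine count_of_single B (fun x => x ∈ Q) _ (fun m hm hmB => ?_) M
  have e1 : Set.ncard {x | x ∈ Pts n {m} B ∧ x ∈ Q} ≤
      Set.ncard {x | x ∈ box (n + 1) B ∧ x 0 = (m : ℤ) ∧ P B x} := by
    refine Set.ncard_le_ncard ?_ (finite_sub (n + 1) B _)
    rintro x ⟨⟨hx1, hx2, hx3, hx4⟩, hbad⟩
    rw [Set.mem_singleton_iff] at hx3
    exact ⟨mem_box_iff.2 hx4, by omega, hQ B x hB (by omega) hx4 hbad⟩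
  have e2 := hmain B hB m (by omega)
  have e3 := hlow B m hm hmB
  have e4 : (Set.ncard {x | x ∈ Pts n {m} B ∧ x ∈ Q} : ℝ) ≤ C * (B : ℝ) ^ ((n : ℝ) - c) :=
    le_trans (by exact_mod_cast e1) e2
  refine e4.trans ?_
  have e5 : C * (B : ℝ) ^ ((n : ℝ) - c) =
      C / c₁ * (B : ℝ) ^ (-(c / 2)) * (c₁ * (B : ℝ) ^ ((n : ℝ) - c / 2)) := by
    have e6 : (B : ℝ) ^ ((n : ℝ) - c) = (B : ℝ) ^ (-(c / 2)) * (B : ℝ) ^ ((n : ℝ) - c / 2) := by
      rw [← Real.rpow_add hB0]; congr 1; ring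
    rw [e6]
    field_simp
  rw [e5]
  exact mul_le_mul_of_nonneg_left e3 (by positivity)

/-- few points have a small height -/
theorem small_sparse {n : ℕ} (hn : 1 ≤ n) :
    SSparse n (fun B x => ((Ht x : ℕ) : ℝ) ≤ (B : ℝ) ^ ((1 : ℝ) / 2)) := by
  classical
  refine ⟨1 / 2, by norm_num, 3 ^ n, by positivity, fun B hB m hm => ?_⟩
  have hB1 : (1 : ℝ) ≤ B := by exact_mod_cast hB
  have hB0 : (0 : ℝ) < B := by linarith
  obtain ⟨L, hL⟩ : ∃ L : ℝ, L = (B : ℝ) ^ ((1 : ℝ) / 2) := ⟨_, rfl⟩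
  have hL1 : 1 ≤ L := by rw [hL]; exact Real.one_le_rpow hB1 (by norm_num)
  have h1 : Set.ncard {x | x ∈ box (n + 1) B ∧ x 0 = m ∧ ((Ht x : ℕ) : ℝ) ≤ (B : ℝ) ^ ((1 : ℝ) / 2)} ≤
      Set.ncard {x | x ∈ box (n + 1) ⌊L⌋₊ ∧ x 0 = m} := by
    refine Set.ncard_le_ncard ?_ ((box (n + 1) ⌊L⌋₊).finite_toSet.subset fun x hx => hx.1)
    rintro x ⟨-, h2, h3⟩
    refine ⟨mem_box_iff.2 ?_, h2⟩
    rw [← hL] at h3
    exact Nat.le_floor h3
  have h2 := card_slice n ⌊L⌋₊ m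
  have h3 : (⌊L⌋₊ : ℝ) ≤ L := Nat.floor_le (by linarith)
  have h4 : (Set.ncard {x | x ∈ box (n + 1) B ∧ x 0 = m ∧
      ((Ht x : ℕ) : ℝ) ≤ (B : ℝ) ^ ((1 : ℝ) / 2)} : ℝ) ≤ (2 * (⌊L⌋₊ : ℝ) + 1) ^ n :=
    (Nat.cast_le.mpr h1).trans h2
  refine h4.trans ?_
  calc (2 * (⌊L⌋₊ : ℝ) + 1) ^ n ≤ (3 * L) ^ n := by
        refine pow_le_pow_left₀ (by positivity) ?_ n
        linarith
    _ = 3 ^ n * L ^ n := mul_pow _ _ _
    _ ≤ 3 ^ n * (B : ℝ) ^ ((n : ℝ) - 1 / 2) := by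
        refine mul_le_mul_of_nonneg_left ?_ (by positivity)
        rw [hL, ← Real.rpow_natCast, ← Real.rpow_mul hB0.le]
        refine Real.rpow_le_rpow_of_exponent_le hB1 ?_
        have : (1 : ℝ) ≤ n := by exact_mod_cast hn
        linarith

/-- the points at which a form `P` and a form `F` have a large common factor -/
def GB {n : ℕ} (P F : MvPolynomial (Fin (n + 1)) ℤ) (η : ℝ) : Set (Fin (n + 1) → ℤ) :=
  {x | eval x P ≠ 0 ∧ ((Ht x : ℕ) : ℝ) ^ η < rd (Int.gcd (eval x P) (eval x F))}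

theorem gcd_single {n : ℕ} (hn : 1 ≤ n) (P F : MvPolynomial (Fin (n + 1)) ℤ) {k g : ℕ}
    (hk : P.IsHomogeneous k) (hg : F.IsHomogeneous g) (hP : Irreducible (toQ P))
    (hX : ¬ Associated (toQ P) (X 0 : MvPolynomial (Fin (n + 1)) ℚ))
    (hF : ¬ toQ P ∣ toQ F) {η : ℝ} (hη : 0 < η) : PS n (GB P F η) := by
  obtain ⟨-, a, i₀, hFa, ha, ha0⟩ := exists_direction P hk hP hX
  have h1 := sparse_gcd hn P F hk hg hP hF a i₀ hFa ha ha0 (half_pos hη)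
  refine PS.of_sparse hn ((small_sparse hn).or h1) _ ?_
  rintro B x hB hx0 hxB ⟨h2, h3⟩
  by_cases hs : ((Ht x : ℕ) : ℝ) ≤ (B : ℝ) ^ ((1 : ℝ) / 2)
  · exact Or.inl hs
  · right
    push Not at hs
    refine ⟨h2, lt_of_le_of_lt ?_ h3⟩
    have hB0 : (0 : ℝ) ≤ B := Nat.cast_nonneg _
    calc (B : ℝ) ^ (η / 2) = ((B : ℝ) ^ ((1 : ℝ) / 2)) ^ η := by
          rw [← Real.rpow_mul hB0]; congr 1; ring
      _ ≤ ((Ht x : ℕ) : ℝ) ^ η := Real.rpow_le_rpow (by positivity) hs.le hη.le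

/-- **one exceptional set for countably many sets** -/
theorem universal_of_countable {n : ℕ} {D : Type} [Countable D] [Nonempty D]
    (Es : D → Set (Fin (n + 1) → ℤ)) (h : ∀ d, PS n (Es d)) :
    ∃ E : Set (Fin (n + 1) → ℤ), (∀ ε : ℝ, 0 < ε → ∃ B₀ : ℕ, ∀ B : ℕ, B₀ ≤ B → ∀ M : Set ℕ,
        (Set.ncard {x | x ∈ Pts n M B ∧ x ∈ E} : ℝ) ≤ ε * (Pts n M B).ncard) ∧
      ∀ d, ∃ T : ℕ, ∀ x ∈ Es d, T < Ht x → x ∈ E := by
  classical
  obtain ⟨f, hf⟩ := exists_surjective_nat D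
  have hPts : ∀ (M : Set ℕ) (B : ℕ), Pts n M B =
      {x | x ∈ {x : Fin (n + 1) → ℤ | Finset.univ.gcd x = 1 ∧ 0 < x 0 ∧ (x 0).toNat ∈ M} ∧
        Ht x ≤ B} := by
    intro M B
    ext x
    simp only [Pts, Set.mem_ofPred_eq]
    tauto
  obtain ⟨E, hE1, hE2⟩ := diag_dens
    (fun M : Set ℕ => {x : Fin (n + 1) → ℤ | Finset.univ.gcd x = 1 ∧ 0 < x 0 ∧ (x 0).toNat ∈ M})
    Ht (fun M B => by rw [← hPts]; exact Pts_finite n M B) (fun i => Es (f i)) (by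
      intro i ε hε
      obtain ⟨c, hc, C, hC, hb⟩ := h (f i)
      obtain ⟨B₀, hB₀⟩ : ∃ B₀ : ℕ, ∀ B : ℕ, B₀ ≤ B → C * (B : ℝ) ^ (-c) ≤ ε := by
        have h1 : Filter.Tendsto (fun B : ℕ => C * (B : ℝ) ^ (-c)) Filter.atTop
            (nhds (C * 0)) :=
          ((tendsto_rpow_neg_atTop hc).comp tendsto_natCast_atTop_atTop).const_mul C
        rw [mul_zero] at h1
        exact Filter.eventually_atTop.mp ((h1.eventually_lt_const hε).mono fun B hB => hB.le)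
      refine ⟨max B₀ 1, fun B hB M => ?_⟩
      have h1 := hb B ((le_max_right _ _).trans hB) M
      rw [← hPts M B]
      have h2 : {x | (x ∈ {x : Fin (n + 1) → ℤ | Finset.univ.gcd x = 1 ∧ 0 < x 0 ∧
          (x 0).toNat ∈ M} ∧ Ht x ≤ B) ∧ x ∈ Es (f i)} =
          {x | x ∈ Pts n M B ∧ x ∈ Es (f i)} := by
        rw [hPts M B]; rfl
      rw [h2]
      refine h1.trans (mul_le_mul_of_nonneg_right ?_ (Nat.cast_nonneg _))
      exact hB₀ B ((le_max_left _ _).trans hB))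
  refine ⟨E, fun ε hε => ?_, fun d => ?_⟩
  · obtain ⟨B₀, hB₀⟩ := hE1 ε hε
    refine ⟨B₀, fun B hB M => ?_⟩
    have h1 := hB₀ B hB M
    rw [← hPts M B] at h1
    have h2 : {x | (x ∈ {x : Fin (n + 1) → ℤ | Finset.univ.gcd x = 1 ∧ 0 < x 0 ∧
        (x 0).toNat ∈ M} ∧ Ht x ≤ B) ∧ x ∈ E} = {x | x ∈ Pts n M B ∧ x ∈ E} := by
      rw [hPts M B]; rfl
    rw [h2] at h1
    exact h1
  · obtain ⟨i, rfl⟩ := hf d
    exact hE2 i

end Run7.h742.SZ
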