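import Pool.Agent.Run7.h742.SZ.Loc
import Pool.Agent.Run7.h742.SZ.Uni

/-!
# Elliptic curves whose invariant is a value of a rational function at an integral point (helper742)
-/

set_option autoImplicit false

namespace Run7.h742.SZ

open Pool.Agent.TH910.Voj Pool.Agent.H813R3.Voj Run7.h742.VI

theorem ht_pos {W : WeierstrassCurve ℤ} (hW : GMin W) : 0 < ht W := by
  unfold ht
  have hrel := W.c_relation
  by_cases h4 : W.c₄ = 0
  · refine lt_max_of_lt_right ?_
    have h6 : W.c₆ ≠ 0 := by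
      intro h6
      rw [h4, h6] at hrel
      apply hW.1
      omega
    have : (W.c₆ : ℝ) ≠ 0 := by exact_mod_cast h6
    positivity
  · refine lt_max_of_lt_left ?_
    have : (W.c₄ : ℝ) ≠ 0 := by exact_mod_cast h4
    positivity

/-- the logarithmic form of the local analysis -/
theorem logs {W : WeierstrassCurve ℤ} (hW : GMin W) {F G : ℤ} (hG : G ≠ 0)
    (hj : W.c₄ ^ 3 * G = F * W.Δ) : ∃ r m a : ℝ, 0 ≤ r ∧ 0 ≤ m ∧ 0 ≤ a ∧
      Real.log (ht W) ≤ Real.log (30 ^ 34 * 1729) + 6 * m + 10 * a +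
        Real.log (max |(F : ℝ)| |(G : ℝ)|) ∧
      (∀ P : Finset ℕ, (∀ p ∈ P, p.Prime ∧ 7 ≤ p ∧ (p : ℤ) ∣ G ∧ ¬ (p : ℤ) ∣ F) →
        ∑ p ∈ P, Real.log (p : ℝ) ≤ r + m) ∧
      r + 2 * m + 2 * a ≤ Real.log (condW W) ∧ (IsCoprime W.c₄ W.Δ → m = 0 ∧ a = 0) := by
  classical
  have hd0 : 0 < Int.gcd F G := Nat.pos_of_ne_zero fun h => hG (Int.gcd_eq_zero_iff.1 h).2
  obtain ⟨f, g, hcop, hf, hg⟩ := Int.exists_gcd_one hd0
  set d : ℕ := Int.gcd F G with hd
  have hfg : IsCoprime f g := Int.isCoprime_iff_gcd_eq_one.2 hcop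
  have hdZ : (d : ℤ) ≠ 0 := by exact_mod_cast hd0.ne'
  have hg0 : g ≠ 0 := by
    rintro rfl
    apply hG
    rw [hg, zero_mul]
  have hj' : W.c₄ ^ 3 * g = f * W.Δ := by
    refine mul_right_cancel₀ hdZ ?_
    calc W.c₄ ^ 3 * g * d = W.c₄ ^ 3 * (g * d) := by ring
      _ = W.c₄ ^ 3 * G := by rw [← hg]
      _ = F * W.Δ := hj
      _ = f * d * W.Δ := by rw [← hf]
      _ = f * W.Δ * d := by ring
  have h1 : (1 : ℝ) ≤ pR W := by exact_mod_cast prod_pos' _
  have h2 : (1 : ℝ) ≤ pM W g := by exact_mod_cast prod_pos' _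
  have h3 : (1 : ℝ) ≤ pA W g := by exact_mod_cast prod_pos' _
  have hmax0 : 0 < max |(F : ℝ)| |(G : ℝ)| :=
    lt_max_of_lt_right (abs_pos.2 (by exact_mod_cast hG))
  refine ⟨Real.log (pR W), Real.log (pM W g), Real.log (pA W g), Real.log_nonneg h1,
    Real.log_nonneg h2, Real.log_nonneg h3, ?_, ?_, ?_, ?_⟩
  · have h4 := ht_le hW hfg hg0 hj'
    have h5 : |(f : ℝ)| + 1728 * |(g : ℝ)| ≤ 1729 * max |(F : ℝ)| |(G : ℝ)| := by
      have hd1 : (1 : ℝ) ≤ d := by exact_mod_cast hd0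
      have h6 : |(f : ℝ)| ≤ |(F : ℝ)| := by
        have : (F : ℝ) = f * d := by exact_mod_cast congrArg (fun z : ℤ => (z : ℝ)) hf
        rw [this, abs_mul, abs_of_nonneg (by linarith : (0 : ℝ) ≤ d)]
        exact le_mul_of_one_le_right (abs_nonneg _) hd1
      have h7 : |(g : ℝ)| ≤ |(G : ℝ)| := by
        have : (G : ℝ) = g * d := by exact_mod_cast congrArg (fun z : ℤ => (z : ℝ)) hg
        rw [this, abs_mul, abs_of_nonneg (by linarith : (0 : ℝ) ≤ d)]
        exact le_mul_of_one_le_right (abs_nonneg _) hd1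
      have h8 := h6.trans (le_max_left |(F : ℝ)| |(G : ℝ)|)
      have h9 := h7.trans (le_max_right |(F : ℝ)| |(G : ℝ)|)
      linarith
    have h6 : ht W ≤ (30 ^ 34 * 1729) * (pM W g : ℝ) ^ 6 * (pA W g : ℝ) ^ 10 *
        max |(F : ℝ)| |(G : ℝ)| := by
      refine h4.trans ?_
      calc 30 ^ 34 * (pM W g : ℝ) ^ 6 * (pA W g : ℝ) ^ 10 * (|(f : ℝ)| + 1728 * |(g : ℝ)|) ≤
          30 ^ 34 * (pM W g : ℝ) ^ 6 * (pA W g : ℝ) ^ 10 * (1729 * max |(F : ℝ)| |(G : ℝ)|) :=
            mul_le_mul_of_nonneg_left h5 (by positivity)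
        _ = _ := by ring
    have h7 := Real.log_le_log (ht_pos hW) h6
    rw [Real.log_mul (by positivity) hmax0.ne', Real.log_mul (by positivity) (by positivity),
      Real.log_mul (by positivity) (by positivity), Real.log_pow, Real.log_pow] at h7
    exact_mod_cast h7
  · intro P hP
    have h4 : ∏ p ∈ P, p ≤ pR W * pM W g := by
      refine rad_le hW hfg hj' P fun p hp => ?_
      obtain ⟨hp1, hp7, hpG, hpF⟩ := hP p hp
      refine ⟨hp1, hp7, ?_⟩
      rw [hg] at hpG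
      rcases (Nat.prime_iff_prime_int.mp hp1).dvd_or_dvd hpG with h | h
      · exact h
      · exfalso
        apply hpF
        rw [hf]
        exact h.mul_left f
    have h5 : ((∏ p ∈ P, p : ℕ) : ℝ) ≤ pR W * pM W g := by exact_mod_cast h4
    have h6 : ∀ p ∈ P, (p : ℝ) ≠ 0 := fun p hp => by exact_mod_cast (hP p hp).1.ne_zero
    rw [Nat.cast_prod] at h5
    have h7 := Real.log_le_log (Finset.prod_pos fun p hp => by
      have := (hP p hp).1.pos
      exact_mod_cast this) h5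
    rw [Real.log_prod h6, Real.log_mul (by positivity) (by positivity)] at h7
    exact h7
  · have h4 : (pR W : ℝ) * (pM W g : ℝ) ^ 2 * (pA W g : ℝ) ^ 2 ≤ condW W := by
      exact_mod_cast cond_ge W g
    have h5 := Real.log_le_log (by positivity) h4
    rw [Real.log_mul (by positivity) (by positivity), Real.log_mul (by positivity) (by positivity),
      Real.log_pow, Real.log_pow] at h5
    exact_mod_cast h5
  · intro hs
    obtain ⟨h4, h5⟩ := semi hs g
    rw [h4, h5]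
    simp

/-- the data of an invariant: a quotient `F / G` of forms of degree `D` and some of the irreducible
factors `P j` of `G` which do not divide `F` and are not `x 0` -/
structure Inv {n r : ℕ} (D : ℕ) (F G : MvPolynomial (Fin (n + 1)) ℤ)
    (P : Fin r → MvPolynomial (Fin (n + 1)) ℤ) (k : Fin r → ℕ) : Prop where
  hF : F.IsHomogeneous D
  hG : G.IsHomogeneous D
  comps : Comps P k
  dvd : ∀ j, toQ (P j) ∣ toQ G
  ndvd : ∀ j, ¬ toQ (P j) ∣ toQ F

/-- integral multiples -/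
theorem exists_mul {n : ℕ} {P G : MvPolynomial (Fin (n + 1)) ℤ} (h : toQ P ∣ toQ G) :
    ∃ (c : ℤ) (Q : MvPolynomial (Fin (n + 1)) ℤ), c ≠ 0 ∧ MvPolynomial.C c * G = P * Q := by
  classical
  obtain ⟨q, hq⟩ := h
  obtain ⟨c, hc⟩ := IsLocalization.exist_integer_multiples_of_finset (nonZeroDivisors ℤ)
    (q.support.image fun m => q.coeff m)
  have hc0 : (c : ℤ) ≠ 0 := nonZeroDivisors.coe_ne_zero c
  have h1 : ∀ m, ∃ z : ℤ, (z : ℚ) = (c : ℤ) * q.coeff m := by
    intro m
    by_cases hm : m ∈ q.support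
    · obtain ⟨z, hz⟩ := hc (q.coeff m) (Finset.mem_image_of_mem _ hm)
      refine ⟨z, ?_⟩
      rw [Algebra.smul_def] at hz
      exact hz
    · refine ⟨0, ?_⟩
      rw [MvPolynomial.notMem_support_iff.1 hm]
      simp
  choose z hz using h1
  refine ⟨c, ∑ m ∈ q.support, MvPolynomial.monomial m (z m), hc0, ?_⟩
  have hinj : Function.Injective (MvPolynomial.map (σ := Fin (n + 1)) (Int.castRingHom ℚ)) :=
    MvPolynomial.map_injective _ Int.cast_injective
  apply hinj
  rw [map_mul, map_mul, MvPolynomial.map_C, map_sum]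
  have h2 : ∑ m ∈ q.support, MvPolynomial.map (Int.castRingHom ℚ) (MvPolynomial.monomial m (z m)) =
      MvPolynomial.C ((c : ℤ) : ℚ) * q := by
    conv_rhs => rw [q.as_sum, Finset.mul_sum]
    refine Finset.sum_congr rfl fun m _ => ?_
    rw [MvPolynomial.map_monomial, MvPolynomial.C_mul_monomial]
    congr 1
    exact hz m
  rw [h2]
  have h3 : MvPolynomial.map (Int.castRingHom ℚ) G = MvPolynomial.map (Int.castRingHom ℚ) P * q := hq
  rw [h3]
  simp only [eq_intCast]
  ring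

end Run7.h742.SZ
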