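import Pool.Agent.Run7.h742.SZ.Mp
import Pool.Agent.N365.FH.E

/-!
# The Faltings height and the conductor from many prime poles (helper742)
-/

set_option autoImplicit false
set_option linter.unusedSectionVars false

namespace Run7.h742.SZ

open NumberField IsDedekindDomain Height
open Pool.Agent.TH876.FH (IsPeriod arch)
open Pool.Agent.Y733.FF Pool.Agent.H691R3 Pool.Agent.W223.AK Pool.Agent.Y733.LS

/-- the height of a quotient of integers -/
theorem ht_quot_le (K : Type) [Field K] [NumberField K] {x y : ℤ} (hy : y ≠ 0) {H : ℝ}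
    (h1 : |(x : ℝ)| ≤ H) (h2 : |(y : ℝ)| ≤ H) :
    logHeight₁ ((x : K) / y) ≤ Module.finrank ℚ K * Real.log H := by
  have hyK : (y : K) ≠ 0 := by exact_mod_cast hy
  have hne : (![(x : K), (y : K)]) ≠ 0 := fun h => hyK (by simpa using congrFun h 1)
  have hH0 : 0 ≤ H := (abs_nonneg _).trans h1
  rw [logHeight₁_div_eq_logHeight, logHeight_eq_log_mulHeight, ← Real.log_pow]
  refine Real.log_le_log (mulHeight_pos _) ?_
  rw [NumberField.mulHeight_eq hne]
  have hint : ∀ (v : InfinitePlace K) (z : ℤ), v (z : K) = |(z : ℝ)| := by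
    intro v z
    rcases Int.natAbs_eq z with h | h
    · rw [h, Int.cast_natCast, InfinitePlace.map_natCast, Int.cast_natCast, abs_of_nonneg (Nat.cast_nonneg _)]
    · rw [h, Int.cast_neg, Int.cast_natCast, Int.cast_neg, Int.cast_natCast, abs_neg,
        abs_of_nonneg (Nat.cast_nonneg _)]
      have := InfinitePlace.map_natCast v z.natAbs
      rw [← this]
      exact map_neg_eq_map v.1 _
  have harch : ∏ v : InfinitePlace K, (⨆ i, v (![(x : K), (y : K)] i)) ^ v.mult ≤
      H ^ Module.finrank ℚ K := by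
    calc ∏ v : InfinitePlace K, (⨆ i, v (![(x : K), (y : K)] i)) ^ v.mult ≤
        ∏ v : InfinitePlace K, H ^ v.mult := by
          refine Finset.prod_le_prod (fun v _ => pow_nonneg (Real.iSup_nonneg fun i => apply_nonneg _ _) _)
            fun v _ => pow_le_pow_left₀ (Real.iSup_nonneg fun i => apply_nonneg _ _) ?_ _
          refine ciSup_le fun i => ?_
          fin_cases i
          · show v (x : K) ≤ H
            rw [hint]; exact h1
          · show v (y : K) ≤ H
            rw [hint]; exact h2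
      _ = H ^ Module.finrank ℚ K := by
          rw [Finset.prod_pow_eq_pow_sum, InfinitePlace.sum_mult_eq]
  have hfin : ∏ᶠ v : FinitePlace K, ⨆ i, v (![(x : K), (y : K)] i) ≤ 1 ∧
      0 ≤ ∏ᶠ v : FinitePlace K, ⨆ i, v (![(x : K), (y : K)] i) := by
    refine finprod_induction (p := fun z : ℝ => z ≤ 1 ∧ 0 ≤ z) ⟨le_rfl, zero_le_one⟩
      (fun a b ha hb => ⟨mul_le_one₀ ha.1 hb.2 hb.1, mul_nonneg ha.2 hb.2⟩) fun v => ?_
    have hz : ∀ z : ℤ, v (z : K) ≤ 1 := by
      intro z
      rcases Int.natAbs_eq z with h | h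
      · rw [h, Int.cast_natCast]; exact Pool.Agent.N365.FH.fin_nat_le v _
      · rw [h, Int.cast_neg, Int.cast_natCast]
        have := Pool.Agent.N365.FH.fin_nat_le v z.natAbs
        rwa [map_neg_eq_map]
    refine ⟨ciSup_le fun i => ?_, Real.iSup_nonneg fun i => apply_nonneg _ _⟩
    fin_cases i
    · exact hz x
    · exact hz y
  calc _ ≤ H ^ Module.finrank ℚ K * 1 := mul_le_mul harch hfin.1 hfin.2 (by positivity)
    _ = _ := mul_one _

end Run7.h742.SZ
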