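import Pool.Agent.Run7.h742.SZ.Fh2

/-!
# Frey's inequality at the values of a rational function (helper742)
-/

set_option autoImplicit false
set_option linter.unusedSectionVars false

namespace Run7.h742.SZ

open NumberField IsDedekindDomain Height MvPolynomial Run7.h742.VI
open Pool.Agent.TH876.FH (GoodAt IsPeriod arch)
open Pool.Agent.Y733.FF Pool.Agent.H691R3 Pool.Agent.W223.AK Pool.Agent.Y733.LS
open Pool.Agent.N365.FH

/-- twelve times the stable height -/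
noncomputable def stab {L : Type} [Field L] [NumberField L] (E : WeierstrassCurve L)
    (τ : InfinitePlace L → UpperHalfPlane) : ℝ :=
  ∑ᶠ v : HeightOneSpectrum (𝓞 L), Real.log (max (FinitePlace.mk v (E.c₄ ^ 3 / E.Δ)) 1) +
    ∑ w : InfinitePlace L, (w.mult : ℝ) * arch (τ w)

/-- the logarithm of the conductor -/
noncomputable def lc (K : Type) [Field K] [NumberField K] {L : Type} [Field L] [NumberField L]
    [Algebra K L] (E : WeierstrassCurve L) : ℝ :=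
  Real.log (multN E) + Real.log (addN E) + 2 * rd K L

/-- `E` has the invariant `F (x) / G (x)` and the periods `τ` -/
def Has {n : ℕ} (F G : MvPolynomial (Fin (n + 1)) ℤ) (x : Fin (n + 1) → ℤ) {L : Type} [Field L]
    [NumberField L] (E : WeierstrassCurve L) (τ : InfinitePlace L → UpperHalfPlane) : Prop :=
  eval x G ≠ 0 ∧ E.Δ ≠ 0 ∧ E.c₄ ^ 3 / E.Δ = ((eval x F : ℤ) : L) / ((eval x G : ℤ) : L) ∧
    IsPeriod (E.c₄ ^ 3 / E.Δ) τ

section
variable (K : Type) [Field K] [NumberField K] {L : Type} [Field L] [NumberField L] [Algebra K L]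

theorem signs (E : WeierstrassCurve L) (hE : E.Δ ≠ 0) : 0 ≤ Real.log (multN E) ∧
    0 ≤ ∑ᶠ v : Pr L, pw v E ∧ 2 * (∑ᶠ v : Pr L, pw v E) ≤ Real.log (addN E) ∧ 0 ≤ rd K L := by
  refine ⟨log_multN_nonneg E hE, finsum_nonneg fun v => pw_nonneg v E, ?_, rd_nonneg K L⟩
  rw [log_addN E hE]
  have := finsum_le_finsum' (supp_pw E hE) (supp_aw E hE) fun v => pw_le v E
  linarith

theorem lc_nonneg (E : WeierstrassCurve L) (hE : E.Δ ≠ 0) : 0 ≤ lc K E := by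
  obtain ⟨h1, h2, h3, h4⟩ := signs K E hE
  unfold lc
  linarith

end

theorem big_log (A : ℝ) {δ : ℝ} (hδ : 0 < δ) : ∃ T : ℕ, ∀ H : ℕ, T < H → A ≤ δ * Real.log H := by
  obtain ⟨B₀, -, h⟩ := threshold δ A hδ
  exact ⟨B₀, fun H hH => (h H hH.le).2⟩

/-- the stable height, at a point with many prime poles -/
theorem stab_point {n D : ℕ} {F G : MvPolynomial (Fin (n + 1)) ℤ} (hF : F.IsHomogeneous D)
    (hG : G.IsHomogeneous D) {κ θ : ℝ} (hκ : (D : ℝ) < 12 * κ * θ) (hθ : 0 < θ) (c₀ : ℝ) :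
    ∃ T : ℕ, ∀ x : Fin (n + 1) → ℤ, x 0 ≠ 0 → T < Ht x → ManyP F G θ x →
      ∀ (L : Type) [Field L] [NumberField L] (E : WeierstrassCurve L)
        (τ : InfinitePlace L → UpperHalfPlane), Has F G x E τ →
        stab E τ / 12 + c₀ * Module.finrank ℚ L ≤ κ * lc ℚ E := by
  obtain ⟨C, hC, h⟩ := stab_le hF hG
  obtain ⟨T, hT⟩ := big_log (C + 12 * c₀) (δ := 12 * κ * θ - D) (by linarith)
  refine ⟨T, fun x hx hTx hM L _ _ E τ hE => ?_⟩
  obtain ⟨h1, h2, h3, h4⟩ := hE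
  have h5 := h x hx h1 L E τ h2 h3 h4
  have h6 := hT _ hTx
  have h7 := many_cond h1 hM ℚ L E h2 h3
  obtain ⟨s1, s2, s3, s4⟩ := signs ℚ E h2
  have hD : (0 : ℝ) ≤ D := Nat.cast_nonneg _
  have hκ0 : 0 < κ := by
    by_contra hcon
    rw [not_lt] at hcon
    nlinarith
  have hn : (0 : ℝ) ≤ Module.finrank ℚ L := Nat.cast_nonneg _
  have hst : stab E τ ≤ Module.finrank ℚ L * (D * Real.log (Ht x) + C) := h5
  have h8 : Module.finrank ℚ L * (θ * Real.log (Ht x)) ≤ lc ℚ E := by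
    unfold lc
    linarith
  have h9 := mul_le_mul_of_nonneg_left h8 hκ0.le
  have h10 : (Module.finrank ℚ L : ℝ) * (D * Real.log (Ht x) + C + 12 * c₀) ≤
      Module.finrank ℚ L * (12 * κ * θ * Real.log (Ht x)) :=
    mul_le_mul_of_nonneg_left (by linarith) hn
  nlinarith

/-- the unstable height, at a point with many prime poles -/
theorem unst_point {n D : ℕ} {F G : MvPolynomial (Fin (n + 1)) ℤ} (hF : F.IsHomogeneous D)
    (hG : G.IsHomogeneous D) {κ θ : ℝ} (hκ : (D : ℝ) < 12 * κ * θ)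
    (hκ' : (D : ℝ) < (24 * κ - 6) * θ) (hκ5 : 5 ≤ 12 * κ) (hθ : 0 < θ) (c₀ : ℝ) :
    ∃ T : ℕ, ∀ x : Fin (n + 1) → ℤ, x 0 ≠ 0 → T < Ht x → ManyP F G θ x →
      ∀ (K L : Type) [Field K] [NumberField K] [Field L] [NumberField L] [Algebra K L]
        (E : WeierstrassCurve L) (τ : InfinitePlace L → UpperHalfPlane), Has F G x E τ →
        (discSum E + ∑ w : InfinitePlace L, (w.mult : ℝ) * arch (τ w) + 6 * rd K L) /
          (12 * Module.finrank ℚ K) + c₀ * Module.finrank K L ≤ κ * lc K E := by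
  obtain ⟨C, hC, h⟩ := unst_le hF hG
  obtain ⟨δ, hδ⟩ : ∃ δ : ℝ, δ = min (12 * κ * θ - D) ((24 * κ - 6) * θ - D) := ⟨_, rfl⟩
  have hδ0 : 0 < δ := by
    rw [hδ]
    exact lt_min (by linarith) (by linarith)
  have hδ1 : D + δ ≤ 12 * κ * θ := by
    have : δ ≤ 12 * κ * θ - D := by rw [hδ]; exact min_le_left _ _
    linarith
  have hδ2 : D + δ ≤ (24 * κ - 6) * θ := by
    have : δ ≤ (24 * κ - 6) * θ - D := by rw [hδ]; exact min_le_right _ _
    linarith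
  obtain ⟨T, hT⟩ := big_log (C + 12 * c₀) hδ0
  refine ⟨T, fun x hx hTx hM K L _ _ _ _ _ E τ hE => ?_⟩
  obtain ⟨h1, h2, h3, h4⟩ := hE
  have h5 := h x hx h1 L E τ h2 h3 h4
  have h6 := hT _ hTx
  have h7 := many_cond h1 hM K L E h2 h3
  obtain ⟨s1, s2, s3, s4⟩ := signs K E h2
  obtain ⟨a, ha⟩ : ∃ a : ℝ, a = Real.log (multN E) := ⟨_, rfl⟩
  obtain ⟨b, hb⟩ : ∃ b : ℝ, b = Real.log (addN E) := ⟨_, rfl⟩
  obtain ⟨p, hp⟩ : ∃ p : ℝ, p = ∑ᶠ v : Pr L, pw v E := ⟨_, rfl⟩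
  obtain ⟨r, hr⟩ : ∃ r : ℝ, r = rd K L := ⟨_, rfl⟩
  obtain ⟨k, hk⟩ : ∃ k : ℝ, k = Module.finrank ℚ K := ⟨_, rfl⟩
  obtain ⟨g, hg⟩ : ∃ g : ℝ, g = Module.finrank K L := ⟨_, rfl⟩
  obtain ⟨X, hX⟩ : ∃ X : ℝ, X = Real.log (Ht x) := ⟨_, rfl⟩
  obtain ⟨A, hA⟩ : ∃ A : ℝ, A = discSum E + ∑ w : InfinitePlace L, (w.mult : ℝ) * arch (τ w) :=
    ⟨_, rfl⟩
  have hn : (Module.finrank ℚ L : ℝ) = k * g := by
    rw [hk, hg, ← Nat.cast_mul, Module.finrank_mul_finrank]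
  have hk1 : 1 ≤ k := by
    rw [hk]
    exact_mod_cast Module.finrank_pos (R := ℚ) (M := K)
  have hg0 : 0 ≤ g := by rw [hg]; exact Nat.cast_nonneg _
  unfold lc
  rw [hn] at h5
  rw [← hA, ← hX, ← hb, ← hp] at h5
  rw [← hX] at h6
  rw [← hg, ← hX, ← ha, ← hp, ← hr] at h7
  rw [← ha] at s1
  rw [← hp] at s2 s3
  rw [← hb] at s3
  rw [← hr] at s4
  rw [← hA, ← ha, ← hb, ← hr, ← hk, ← hg]
  -- the arithmetic
  have hk0 : 0 < k := by linarith
  obtain ⟨s, hs⟩ : ∃ s : ℝ, s = (D + δ) / θ := ⟨_, rfl⟩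
  have hsθ : s * θ = D + δ := by rw [hs]; field_simp
  have hD : (0 : ℝ) ≤ D := Nat.cast_nonneg _
  have hs0 : 0 ≤ s := by rw [hs]; positivity
  have hs1 : s ≤ 12 * κ := by
    rw [hs, div_le_iff₀ hθ]
    exact hδ1
  have hs2 : s ≤ 24 * κ - 6 := by
    rw [hs, div_le_iff₀ hθ]
    exact hδ2
  have e1 : g * (D * X + C + 12 * c₀) ≤ s * (a + p + r) := by
    calc g * (D * X + C + 12 * c₀) ≤ g * ((D + δ) * X) :=
          mul_le_mul_of_nonneg_left (by linarith) hg0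
      _ = s * (g * (θ * X)) := by rw [← hsθ]; ring
      _ ≤ s * (a + p + r) := mul_le_mul_of_nonneg_left h7 hs0
  have e2 : s * (a + p + r) + (5 * b - 4 * p + 6 * r) ≤ 12 * (κ * (a + b + 2 * r)) := by
    have f1 : s * a ≤ 12 * κ * a := mul_le_mul_of_nonneg_right hs1 s1
    have f2 : (s + 6) * r ≤ 24 * κ * r := mul_le_mul_of_nonneg_right (by linarith) s4
    have f3 : (s - 4) * p + 5 * b ≤ 12 * κ * b := by
      have hb0 : 0 ≤ b := by linarith
      rcases le_total s 4 with h8 | h8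
      · have : (s - 4) * p ≤ 0 := mul_nonpos_of_nonpos_of_nonneg (by linarith) s2
        have := mul_le_mul_of_nonneg_right hκ5 hb0
        linarith
      · have g1 : (s - 4) * p ≤ (s - 4) * (b / 2) :=
          mul_le_mul_of_nonneg_left (by linarith) (by linarith)
        have g2 : (s / 2 + 3) * b ≤ 12 * κ * b := mul_le_mul_of_nonneg_right (by linarith) hb0
        linarith
    linarith
  have e3 : A + 6 * r + 12 * k * (c₀ * g) ≤ 12 * k * (κ * (a + b + 2 * r)) := by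
    have f0 : 0 ≤ 5 * b - 4 * p + 6 * r := by linarith
    have f1 : 5 * b - 4 * p + 6 * r ≤ k * (5 * b - 4 * p + 6 * r) := by nlinarith
    have f2 : k * (g * (D * X + C + 12 * c₀)) ≤ k * (s * (a + p + r)) :=
      mul_le_mul_of_nonneg_left e1 hk0.le
    have f3 := mul_le_mul_of_nonneg_left e2 hk0.le
    linarith
  rw [← sub_nonneg] at e3 ⊢
  have e4 : κ * (a + b + 2 * r) - ((A + 6 * r) / (12 * k) + c₀ * g) =
      (12 * k * (κ * (a + b + 2 * r)) - (A + 6 * r + 12 * k * (c₀ * g))) / (12 * k) := by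
    field_simp
  rw [e4]
  exact div_nonneg e3 (by positivity)

/-- the points of bounded height: the stable height -/
theorem stab_small {n D : ℕ} {F G : MvPolynomial (Fin (n + 1)) ℤ} (hF : F.IsHomogeneous D)
    (hG : G.IsHomogeneous D) {κ : ℝ} (hκ : 0 ≤ κ) (T : ℕ) :
    ∃ C : ℝ, 0 ≤ C ∧ ∀ x : Fin (n + 1) → ℤ, x 0 ≠ 0 → Ht x ≤ T →
      ∀ (L : Type) [Field L] [NumberField L] (E : WeierstrassCurve L)
        (τ : InfinitePlace L → UpperHalfPlane), Has F G x E τ →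
        stab E τ / 12 ≤ κ * lc ℚ E + C * Module.finrank ℚ L := by
  obtain ⟨C, hC, h⟩ := stab_le hF hG
  have hT0 : 0 ≤ Real.log (T : ℝ) := Real.log_natCast_nonneg _
  refine ⟨(D * Real.log T + C) / 12, by positivity, fun x hx hTx L _ _ E τ hE => ?_⟩
  obtain ⟨h1, h2, h3, h4⟩ := hE
  have h5 := h x hx h1 L E τ h2 h3 h4
  have hHt : (0 : ℝ) < Ht x := by exact_mod_cast Ht_pos hx
  have h6 : Real.log (Ht x) ≤ Real.log T := Real.log_le_log hHt (by exact_mod_cast hTx)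
  have h7 : stab E τ ≤ Module.finrank ℚ L * (D * Real.log (Ht x) + C) := h5
  have h8 : (Module.finrank ℚ L : ℝ) * (D * Real.log (Ht x) + C) ≤
      Module.finrank ℚ L * (D * Real.log T + C) := by gcongr
  have h9 := mul_nonneg hκ (lc_nonneg ℚ E h2)
  linarith

/-- the points of bounded height: the unstable height -/
theorem unst_small {n D : ℕ} {F G : MvPolynomial (Fin (n + 1)) ℤ} (hF : F.IsHomogeneous D)
    (hG : G.IsHomogeneous D) {κ : ℝ} (hκ : 5 ≤ 12 * κ) (T : ℕ) :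
    ∃ C : ℝ, 0 ≤ C ∧ ∀ x : Fin (n + 1) → ℤ, x 0 ≠ 0 → Ht x ≤ T →
      ∀ (K L : Type) [Field K] [NumberField K] [Field L] [NumberField L] [Algebra K L]
        (E : WeierstrassCurve L) (τ : InfinitePlace L → UpperHalfPlane), Has F G x E τ →
        (discSum E + ∑ w : InfinitePlace L, (w.mult : ℝ) * arch (τ w) + 6 * rd K L) /
          (12 * Module.finrank ℚ K) ≤ κ * lc K E + C * Module.finrank K L := by
  obtain ⟨C, hC, h⟩ := unst_le hF hG
  have hT0 : 0 ≤ Real.log (T : ℝ) := Real.log_natCast_nonneg _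
  refine ⟨(D * Real.log T + C) / 12, by positivity, fun x hx hTx K L _ _ _ _ _ E τ hE => ?_⟩
  obtain ⟨h1, h2, h3, h4⟩ := hE
  have h5 := h x hx h1 L E τ h2 h3 h4
  have hHt : (0 : ℝ) < Ht x := by exact_mod_cast Ht_pos hx
  have h6 : Real.log (Ht x) ≤ Real.log T := Real.log_le_log hHt (by exact_mod_cast hTx)
  have h8 : (Module.finrank ℚ L : ℝ) * (D * Real.log (Ht x) + C) ≤
      Module.finrank ℚ L * (D * Real.log T + C) := by gcongr
  obtain ⟨s1, s2, s3, s4⟩ := signs K E h2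
  have hn : (Module.finrank ℚ L : ℝ) = Module.finrank ℚ K * Module.finrank K L := by
    rw [← Nat.cast_mul, Module.finrank_mul_finrank]
  have hk1 : (1 : ℝ) ≤ Module.finrank ℚ K := by
    exact_mod_cast Module.finrank_pos (R := ℚ) (M := K)
  rw [hn] at h5 h8
  unfold lc
  obtain ⟨a, ha⟩ : ∃ a : ℝ, a = Real.log (multN E) := ⟨_, rfl⟩
  obtain ⟨b, hb⟩ : ∃ b : ℝ, b = Real.log (addN E) := ⟨_, rfl⟩
  obtain ⟨p, hp⟩ : ∃ p : ℝ, p = ∑ᶠ v : Pr L, pw v E := ⟨_, rfl⟩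
  obtain ⟨r, hr⟩ : ∃ r : ℝ, r = rd K L := ⟨_, rfl⟩
  obtain ⟨k, hk⟩ : ∃ k : ℝ, k = Module.finrank ℚ K := ⟨_, rfl⟩
  obtain ⟨g, hg⟩ : ∃ g : ℝ, g = Module.finrank K L := ⟨_, rfl⟩
  obtain ⟨M, hM⟩ : ∃ M : ℝ, M = D * Real.log T + C := ⟨_, rfl⟩
  obtain ⟨A, hA⟩ : ∃ A : ℝ, A = discSum E + ∑ w : InfinitePlace L, (w.mult : ℝ) * arch (τ w) :=
    ⟨_, rfl⟩
  rw [← hA, ← hb, ← hp] at h5
  rw [← hM] at h8 ⊢
  rw [← ha] at s1
  rw [← hp] at s2 s3
  rw [← hb] at s3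
  rw [← hr] at s4
  rw [← hk, ← hg] at h5 h8
  rw [← hk] at hk1
  rw [← hA, ← ha, ← hb, ← hr, ← hk, ← hg]
  have hk0 : 0 < k := by linarith
  have hb0 : 0 ≤ b := by linarith
  have e1 : A + 6 * r ≤ k * (g * M + (5 * b + 6 * r)) := by
    have f1 : 5 * b + 6 * r ≤ k * (5 * b + 6 * r) := by nlinarith
    nlinarith
  have e2 : 5 * b + 6 * r ≤ 12 * (κ * (a + b + 2 * r)) := by
    have f1 := mul_le_mul_of_nonneg_right hκ hb0
    have f2 := mul_le_mul_of_nonneg_right hκ s4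
    have f3 := mul_nonneg (by linarith : 0 ≤ 12 * κ) s1
    nlinarith
  rw [div_le_iff₀ (by positivity)]
  have e3 := mul_le_mul_of_nonneg_left e2 hk0.le
  nlinarith

end Run7.h742.SZ
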