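import Pool.Agent.Run7.h742.SZ.Asm

/-!
# The modified Szpiro inequality at integral points: the inequality off the exceptional sets
(helper742)
-/

set_option autoImplicit false

namespace Run7.h742.SZ

open MvPolynomial Pool.Agent.TH910.Voj Pool.Agent.H813R3.Voj Run7.h742.VI

theorem Ht_pos {n : ℕ} {x : Fin (n + 1) → ℤ} (hx : x 0 ≠ 0) : 1 ≤ Ht x := by
  unfold Ht
  have : (x 0).natAbs ≤ Finset.univ.sup fun j => (x j).natAbs :=
    Finset.le_sup (f := fun j => (x j).natAbs) (Finset.mem_univ 0)
  omega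

theorem val_le {n D : ℕ} (F : MvPolynomial (Fin (n + 1)) ℤ) (hF : F.IsHomogeneous D) :
    ∃ C : ℝ, 1 ≤ C ∧ ∀ x : Fin (n + 1) → ℤ, x 0 ≠ 0 →
      |((eval x F : ℤ) : ℝ)| ≤ C * (Ht x : ℝ) ^ D := by
  obtain ⟨c, hc, h⟩ := exists_eval_bound F hF.totalDegree_le
  refine ⟨c, by exact_mod_cast hc, fun x hx => ?_⟩
  have h1 := h (Ht x) (Ht_pos hx) x (mem_box_iff.2 le_rfl)
  have h2 : |((eval x F : ℤ) : ℝ)| = ((eval x F).natAbs : ℝ) := by
    rw [Nat.cast_natAbs, Int.cast_abs]
  rw [h2]
  exact_mod_cast h1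

theorem log_rd (g : ℕ) : Real.log (rd g) = ∑ p ∈ g.primeFactors, Real.log (p : ℝ) := by
  unfold rd
  rw [Nat.cast_prod, Real.log_prod]
  intro p hp
  have := (Nat.prime_of_mem_primeFactors hp).ne_zero
  exact_mod_cast this

/-- the pointwise inequality -/
theorem point {n q D : ℕ} {F G : MvPolynomial (Fin (n + 1)) ℤ}
    {P : Fin q → MvPolynomial (Fin (n + 1)) ℤ} {k : Fin q → ℕ} (h : Inv D F G P k) :
    ∃ (S : Finset ℕ) (C₀ : ℝ), 0 ≤ C₀ ∧ ∀ x : Fin (n + 1) → ℤ, x 0 ≠ 0 →
      ∀ W : WeierstrassCurve ℤ, GMin W → eval x G ≠ 0 →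
      W.c₄ ^ 3 * eval x G = eval x F * W.Δ →
      ∃ r m a : ℝ, 0 ≤ r ∧ 0 ≤ m ∧ 0 ≤ a ∧
        Real.log (ht W) ≤ C₀ + 6 * m + 10 * a + D * Real.log (Ht x) ∧
        r + 2 * m + 2 * a ≤ Real.log (condW W) ∧ (IsCoprime W.c₄ W.Δ → m = 0 ∧ a = 0) ∧
        ∀ θ η : ℝ, x ∉ Bad P S θ → (∀ j, x ∉ GB (P j) F η) →
          (θ - q * η) * Real.log (Ht x) ≤ r + m := by
  classical
  choose c Q hc0 hcQ using fun j => exists_mul (h.dvd j)
  obtain ⟨C₁, hC₁, hF⟩ := val_le F h.hF
  obtain ⟨C₂, hC₂, hG⟩ := val_le G h.hG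
  refine ⟨{2, 3, 5} ∪ Finset.univ.biUnion fun j => (c j).natAbs.primeFactors,
    Real.log (30 ^ 34 * 1729) + Real.log (max C₁ C₂), ?_, fun x hx W hW hGx hj => ?_⟩
  · have h1 : 0 ≤ Real.log (30 ^ 34 * 1729 : ℝ) := Real.log_nonneg (by norm_num)
    have h2 : 0 ≤ Real.log (max C₁ C₂) := Real.log_nonneg (le_max_of_le_left hC₁)
    linarith
  obtain ⟨r, m, a, hr, hm, ha, h1, h2, h3, h4⟩ := logs hW hGx hj
  have hHt : (1 : ℝ) ≤ Ht x := by exact_mod_cast Ht_pos hx
  have hHt0 : (0 : ℝ) < Ht x := by linarith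
  refine ⟨r, m, a, hr, hm, ha, ?_, h3, h4, ?_⟩
  · have h5 : max |((eval x F : ℤ) : ℝ)| |((eval x G : ℤ) : ℝ)| ≤
        max C₁ C₂ * (Ht x : ℝ) ^ D := by
      refine max_le ((hF x hx).trans ?_) ((hG x hx).trans ?_)
      · exact mul_le_mul_of_nonneg_right (le_max_left _ _) (by positivity)
      · exact mul_le_mul_of_nonneg_right (le_max_right _ _) (by positivity)
    have h6 : 0 < max |((eval x F : ℤ) : ℝ)| |((eval x G : ℤ) : ℝ)| :=
      lt_max_of_lt_right (abs_pos.2 (by exact_mod_cast hGx))
    have h7 := Real.log_le_log h6 h5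
    have h8 : 0 < max C₁ C₂ := lt_of_lt_of_le (by linarith) (le_max_left _ _)
    rw [Real.log_mul h8.ne' (by positivity), Real.log_pow] at h7
    linarith
  · intro θ η hbad hgb
    unfold Bad at hbad
    rw [Set.mem_ofPred_eq, not_or] at hbad
    push Not at hbad
    obtain ⟨hne, hθ⟩ := hbad
    set S : Finset ℕ := {2, 3, 5} ∪ Finset.univ.biUnion fun j => (c j).natAbs.primeFactors with hS
    obtain ⟨A, hA⟩ : ∃ A : Finset ℕ, A = (∏ j, eval x (P j)).natAbs.primeFactors \ S := ⟨_, rfl⟩
    have hlr : logRad S (∏ j, eval x (P j)) = ∑ p ∈ A, Real.log (p : ℝ) := by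
      rw [hA]; rfl
    rw [hlr, ← Finset.sum_filter_add_sum_filter_not A (fun p : ℕ => (p : ℤ) ∣ eval x F)] at hθ
    have hmem : ∀ p ∈ A, p.Prime ∧ p ∉ S ∧ ∃ j, (p : ℤ) ∣ eval x (P j) := by
      intro p hp
      rw [hA, Finset.mem_sdiff] at hp
      have hpp := Nat.prime_of_mem_primeFactors hp.1
      refine ⟨hpp, hp.2, ?_⟩
      have h5 : (p : ℤ) ∣ ∏ j, eval x (P j) := Int.natCast_dvd.2 (Nat.dvd_of_mem_primeFactors hp.1)
      obtain ⟨j, -, hj⟩ := (Prime.dvd_finset_prod_iff (Nat.prime_iff_prime_int.mp hpp) _).1 h5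
      exact ⟨j, hj⟩
    -- the primes dividing `F (x)`
    have h5 : ∑ p ∈ A.filter (fun p : ℕ => (p : ℤ) ∣ eval x F), Real.log (p : ℝ) ≤
        q * η * Real.log (Ht x) := by
      calc ∑ p ∈ A.filter (fun p : ℕ => (p : ℤ) ∣ eval x F), Real.log (p : ℝ) ≤
          ∑ p ∈ A.filter (fun p : ℕ => (p : ℤ) ∣ eval x F), ∑ j : Fin q,
            (if p ∈ (Int.gcd (eval x (P j)) (eval x F)).primeFactors then Real.log (p : ℝ)
              else 0) := by
            refine Finset.sum_le_sum fun p hp => ?_
            rw [Finset.mem_filter] at hp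
            obtain ⟨hpp, -, j, hpj⟩ := hmem p hp.1
            have h6 : p ∈ (Int.gcd (eval x (P j)) (eval x F)).primeFactors := by
              refine Nat.mem_primeFactors.2 ⟨hpp, ?_, ?_⟩
              · exact_mod_cast Int.dvd_coe_gcd hpj hp.2
              · intro h7
                exact hne j (Int.gcd_eq_zero_iff.1 h7).1
            calc Real.log (p : ℝ) = (if p ∈ (Int.gcd (eval x (P j)) (eval x F)).primeFactors then
                  Real.log (p : ℝ) else 0) := by rw [if_pos h6]
              _ ≤ _ := Finset.single_le_sum (f := fun j : Fin q =>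
                  (if p ∈ (Int.gcd (eval x (P j)) (eval x F)).primeFactors then Real.log (p : ℝ)
                  else 0)) (fun i _ => by
                    show (0 : ℝ) ≤ if _ then _ else _
                    split_ifs
                    · exact Real.log_natCast_nonneg _
                    · exact le_rfl) (Finset.mem_univ j)
        _ = ∑ j : Fin q, ∑ p ∈ A.filter (fun p : ℕ => (p : ℤ) ∣ eval x F),
            (if p ∈ (Int.gcd (eval x (P j)) (eval x F)).primeFactors then Real.log (p : ℝ)
              else 0) := Finset.sum_comm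
        _ ≤ ∑ _j : Fin q, η * Real.log (Ht x) := by
            refine Finset.sum_le_sum fun j _ => ?_
            rw [← Finset.sum_filter]
            have h6 : ∑ p ∈ (A.filter (fun p : ℕ => (p : ℤ) ∣ eval x F)).filter
                (fun p => p ∈ (Int.gcd (eval x (P j)) (eval x F)).primeFactors),
                Real.log (p : ℝ) ≤ Real.log (rd (Int.gcd (eval x (P j)) (eval x F))) := by
              rw [log_rd]
              refine Finset.sum_le_sum_of_subset_of_nonneg ?_ fun p _ _ =>
                Real.log_natCast_nonneg _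
              intro p hp
              exact (Finset.mem_filter.1 hp).2
            refine h6.trans ?_
            have h7 : ((rd (Int.gcd (eval x (P j)) (eval x F)) : ℕ) : ℝ) ≤
                ((Ht x : ℕ) : ℝ) ^ η := by
              by_contra hcon
              push Not at hcon
              exact hgb j ⟨hne j, hcon⟩
            have h8 : 0 < ((rd (Int.gcd (eval x (P j)) (eval x F)) : ℕ) : ℝ) := by
              unfold rd
              rw [Nat.cast_prod]
              refine Finset.prod_pos fun p hp => ?_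
              have := (Nat.prime_of_mem_primeFactors hp).pos
              exact_mod_cast this
            have h9 := Real.log_le_log h8 h7
            rwa [Real.log_rpow hHt0] at h9
        _ = q * η * Real.log (Ht x) := by
            rw [Finset.sum_const, Finset.card_univ, Fintype.card_fin, nsmul_eq_mul]
            ring
    -- the other primes
    have h6 : ∑ p ∈ A.filter (fun p : ℕ => ¬ (p : ℤ) ∣ eval x F), Real.log (p : ℝ) ≤ r + m := by
      refine h2 _ fun p hp => ?_
      rw [Finset.mem_filter] at hp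
      obtain ⟨hpp, hpS, j, hpj⟩ := hmem p hp.1
      rw [hS, Finset.mem_union, not_or] at hpS
      obtain ⟨hp5, hpc⟩ := hpS
      have hp7 : 7 ≤ p := by
        simp only [Finset.mem_insert, Finset.mem_singleton, not_or] at hp5
        by_contra hlt
        have h2' := hpp.two_le
        have h4' : p ≠ 4 := by
          rintro rfl
          exact absurd hpp (by decide)
        have h6' : p ≠ 6 := by
          rintro rfl
          exact absurd hpp (by decide)
        omega
      refine ⟨hpp, hp7, ?_, hp.2⟩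
      have h8 : c j * eval x G = eval x (P j) * eval x (Q j) := by
        have := congrArg (eval x) (hcQ j)
        simpa using this
      have h9 : (p : ℤ) ∣ c j * eval x G := by
        rw [h8]
        exact hpj.mul_right _
      rcases (Nat.prime_iff_prime_int.mp hpp).dvd_or_dvd h9 with h10 | h10
      · exfalso
        apply hpc
        refine Finset.mem_biUnion.2 ⟨j, Finset.mem_univ _, Nat.mem_primeFactors.2 ⟨hpp, ?_, ?_⟩⟩
        · exact Int.natCast_dvd.1 h10
        · exact Int.natAbs_ne_zero.2 (hc0 j)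
      · exact h10
    linarith

end Run7.h742.SZ
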