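import Mathlib

/-!
# Local analysis of a global minimal Weierstrass equation with a given invariant (helper742)
-/

set_option autoImplicit false

namespace Run7.h742.SZ

open Finset

/-- global minimality -/
def GMin (W : WeierstrassCurve ℤ) : Prop :=
  W.Δ ≠ 0 ∧ ∀ W' : WeierstrassCurve ℤ,
    (∃ C : WeierstrassCurve.VariableChange ℚ,
      C • W.map (Int.castRingHom ℚ) = W'.map (Int.castRingHom ℚ)) → |W.Δ| ≤ |W'.Δ|

/-- the curve `y² = x³ - a x - b` -/
def shortW (a b : ℤ) : WeierstrassCurve ℤ := ⟨0, 0, 0, -a, -b⟩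

/-- the isomorphism over `ℚ` -/
theorem iso_short (W : WeierstrassCurve ℤ) (v : ℚ) (hv : v ≠ 0) (a b : ℤ)
    (ha : 48 * (a : ℚ) = v ^ 4 * W.c₄) (hb : 864 * (b : ℚ) = v ^ 6 * W.c₆) :
    ∃ C : WeierstrassCurve.VariableChange ℚ,
      C • W.map (Int.castRingHom ℚ) = (shortW a b).map (Int.castRingHom ℚ) := by
  set V : WeierstrassCurve ℚ := W.map (Int.castRingHom ℚ) with hV
  have hc4 : V.c₄ = (W.c₄ : ℚ) := by rw [hV, WeierstrassCurve.map_c₄]; rfl
  have hc6 : V.c₆ = (W.c₆ : ℚ) := by rw [hV, WeierstrassCurve.map_c₆]; rfl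
  let u : ℚˣ := Units.mk0 v⁻¹ (inv_ne_zero hv)
  let s : ℚ := -V.a₁ / 2
  let r : ℚ := -(V.a₂ - s * V.a₁ - s ^ 2) / 3
  let t : ℚ := -(V.a₃ + r * V.a₁) / 2
  let C : WeierstrassCurve.VariableChange ℚ := ⟨u, r, s, t⟩
  have hu : ((u⁻¹ : ℚˣ) : ℚ) = v := by
    simp [u]
  have h1 : (C • V).a₁ = 0 := by
    rw [WeierstrassCurve.variableChange_a₁]
    simp only [C, s]
    ring
  have h2 : (C • V).a₂ = 0 := by
    rw [WeierstrassCurve.variableChange_a₂]
    simp only [C, r]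
    ring
  have h3 : (C • V).a₃ = 0 := by
    rw [WeierstrassCurve.variableChange_a₃]
    simp only [C, t]
    ring
  have k4 : (C • V).c₄ = 48 * (a : ℚ) := by
    rw [WeierstrassCurve.variableChange_c₄, hc4, ha]
    simp only [C]
    rw [hu]
  have k6 : (C • V).c₆ = 864 * (b : ℚ) := by
    rw [WeierstrassCurve.variableChange_c₆, hc6, hb]
    simp only [C]
    rw [hu]
  have h4 : (C • V).a₄ = -(a : ℚ) := by
    have := k4
    unfold WeierstrassCurve.c₄ WeierstrassCurve.b₂ WeierstrassCurve.b₄ at this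
    rw [h1, h2, h3] at this
    linarith
  have h6 : (C • V).a₆ = -(b : ℚ) := by
    have := k6
    unfold WeierstrassCurve.c₆ WeierstrassCurve.b₂ WeierstrassCurve.b₄ WeierstrassCurve.b₆ at this
    rw [h1, h2, h3] at this
    linarith
  refine ⟨C, ?_⟩
  refine WeierstrassCurve.ext ?_ ?_ ?_ ?_ ?_
  · rw [h1]; simp [shortW]
  · rw [h2]; simp [shortW]
  · rw [h3]; simp [shortW]
  · rw [h4]; simp [shortW]
  · rw [h6]; simp [shortW]

theorem shortW_disc (a b : ℤ) : (shortW a b).Δ = 16 * (4 * a ^ 3 - 27 * b ^ 2) := by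
  simp only [shortW, WeierstrassCurve.Δ, WeierstrassCurve.b₂, WeierstrassCurve.b₄,
    WeierstrassCurve.b₆, WeierstrassCurve.b₈]
  ring

/-- `c₄` and `c₆` of a global minimal equation have no common divisors `q⁴`, `q⁶`, `q ≥ 7` -/
theorem not_both {W : WeierstrassCurve ℤ} (hW : GMin W) (q : ℕ) (hq : 7 ≤ q)
    (h4 : (q : ℤ) ^ 4 ∣ W.c₄) (h6 : (q : ℤ) ^ 6 ∣ W.c₆) : False := by
  obtain ⟨c, hc⟩ := h4
  obtain ⟨c', hc'⟩ := h6
  have hq0 : (q : ℚ) ≠ 0 := by
    have : q ≠ 0 := by omega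
    exact_mod_cast this
  have hqQ : (7 : ℚ) ≤ q := by exact_mod_cast hq
  have h1 := hW.2 (shortW (27 * c) (54 * c')) (iso_short W (6 / q) (by positivity) (27 * c)
    (54 * c') (by rw [hc]; push_cast; field_simp; ring) (by rw [hc']; push_cast; field_simp; ring))
  rw [shortW_disc] at h1
  have hrel := W.c_relation
  have h2 : (q : ℤ) ^ 12 * (16 * (4 * (27 * c) ^ 3 - 27 * (54 * c') ^ 2)) = 6 ^ 12 * W.Δ := by
    have h3 : (1728 : ℤ) * ((q : ℤ) ^ 12 * (16 * (4 * (27 * c) ^ 3 - 27 * (54 * c') ^ 2))) =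
        1728 * (6 ^ 12 * W.Δ) := by
      have h4 : (1728 : ℤ) * (6 ^ 12 * W.Δ) = 6 ^ 12 * (1728 * W.Δ) := by ring
      rw [h4, hrel, hc, hc']
      ring
    exact mul_left_cancel₀ (by norm_num) h3
  have h3 : 0 < |W.Δ| := abs_pos.2 hW.1
  have h4 : (q : ℤ) ^ 12 * |16 * (4 * (27 * c) ^ 3 - 27 * (54 * c') ^ 2)| = 6 ^ 12 * |W.Δ| := by
    calc (q : ℤ) ^ 12 * |16 * (4 * (27 * c) ^ 3 - 27 * (54 * c') ^ 2)| =
        |(q : ℤ) ^ 12 * (16 * (4 * (27 * c) ^ 3 - 27 * (54 * c') ^ 2))| := by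
          rw [abs_mul ((q : ℤ) ^ 12), abs_of_nonneg (by positivity : (0 : ℤ) ≤ (q : ℤ) ^ 12)]
      _ = |6 ^ 12 * W.Δ| := by rw [h2]
      _ = 6 ^ 12 * |W.Δ| := by
          rw [abs_mul, abs_of_nonneg (by norm_num : (0 : ℤ) ≤ 6 ^ 12)]
  have h5 : (7 : ℤ) ^ 12 ≤ (q : ℤ) ^ 12 := pow_le_pow_left₀ (by norm_num) (by exact_mod_cast hq) 12
  have h6 : (q : ℤ) ^ 12 * |W.Δ| ≤ 6 ^ 12 * |W.Δ| := by
    rw [← h4]
    exact mul_le_mul_of_nonneg_left h1 (by positivity)
  have h7 : (q : ℤ) ^ 12 ≤ 6 ^ 12 := le_of_mul_le_mul_right h6 h3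
  norm_num at h5 h7
  linarith

/-- divisibility of powers -/
theorem pow_dvd_of_pow {p : ℕ} (hp : p.Prime) {a : ℤ} {k e m : ℕ} (he : 0 < e)
    (hm : e * m < k + e) (h : (p : ℤ) ^ k ∣ a ^ e) : (p : ℤ) ^ m ∣ a := by
  haveI : Fact p.Prime := ⟨hp⟩
  by_cases ha : a = 0
  · rw [ha]; exact dvd_zero _
  · rw [padicValInt_dvd_iff] at h ⊢
    right
    rcases h with h | h
    · exact absurd h (pow_ne_zero _ ha)
    · have h1 : padicValInt p (a ^ e) = e * padicValInt p a := by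
        unfold padicValInt
        rw [Int.natAbs_pow, padicValNat.pow]
      rw [h1] at h
      by_contra hc
      push Not at hc
      have h2 : e * padicValInt p a + e ≤ e * m := by
        have : padicValInt p a + 1 ≤ m := hc
        calc e * padicValInt p a + e = e * (padicValInt p a + 1) := by ring
          _ ≤ e * m := Nat.mul_le_mul_left _ this
      omega

/-- the set of the primes of bad reduction, at least `7` -/
def bad (W : WeierstrassCurve ℤ) : Finset ℕ := W.Δ.natAbs.primeFactors.filter fun p => 7 ≤ p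

/-- prime-to-6 part of the conductor -/
def condW (W : WeierstrassCurve ℤ) : ℕ :=
  ∏ p ∈ W.Δ.natAbs.primeFactors.filter (fun p => 5 ≤ p), if (p : ℤ) ∣ W.c₄ then p ^ 2 else p

/-- the multiplicative part -/
noncomputable def pR (W : WeierstrassCurve ℤ) : ℕ :=
  ∏ p ∈ (bad W).filter (fun p : ℕ => ¬ (p : ℤ) ∣ W.c₄), p

/-- the potentially multiplicative, additive part -/
noncomputable def pM (W : WeierstrassCurve ℤ) (g : ℤ) : ℕ :=
  ∏ p ∈ (bad W).filter (fun p : ℕ => (p : ℤ) ∣ W.c₄ ∧ (p : ℤ) ∣ g), p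

/-- the potentially good part -/
noncomputable def pA (W : WeierstrassCurve ℤ) (g : ℤ) : ℕ :=
  ∏ p ∈ (bad W).filter (fun p : ℕ => (p : ℤ) ∣ W.c₄ ∧ ¬ (p : ℤ) ∣ g), p

theorem bad_prime {W : WeierstrassCurve ℤ} {p : ℕ} (h : p ∈ bad W) : p.Prime :=
  Nat.prime_of_mem_primeFactors (mem_filter.1 h).1

theorem prod_pos' {W : WeierstrassCurve ℤ} (Q : ℕ → Prop) [DecidablePred Q] :
    1 ≤ ∏ p ∈ (bad W).filter Q, p :=
  Nat.one_le_iff_ne_zero.2 (prod_ne_zero_iff.2 fun p hp => (bad_prime (mem_filter.1 hp).1).ne_zero)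

/-- the conductor -/
theorem cond_ge (W : WeierstrassCurve ℤ) (g : ℤ) :
    pR W * pM W g ^ 2 * pA W g ^ 2 ≤ condW W := by
  classical
  have h1 : ∏ p ∈ bad W, (if (p : ℤ) ∣ W.c₄ then p ^ 2 else p) ≤ condW W := by
    unfold condW bad
    refine prod_le_prod_of_subset_of_one_le' ?_ ?_
    · intro p hp
      rw [mem_filter] at hp ⊢
      exact ⟨hp.1, by omega⟩
    · intro p hp _
      have h2 := (Nat.prime_of_mem_primeFactors (mem_filter.1 hp).1).one_le
      split_ifs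
      · exact Nat.one_le_pow _ _ h2
      · exact h2
  refine le_trans (le_of_eq ?_) h1
  rw [← prod_filter_mul_prod_filter_not (bad W) (fun p : ℕ => (p : ℤ) ∣ W.c₄)]
  have h2 : ∏ p ∈ (bad W).filter (fun p : ℕ => (p : ℤ) ∣ W.c₄),
      (if (p : ℤ) ∣ W.c₄ then p ^ 2 else p) = (pM W g) ^ 2 * (pA W g) ^ 2 := by
    rw [prod_congr rfl (fun p hp => if_pos (mem_filter.1 hp).2)]
    rw [← prod_filter_mul_prod_filter_not _ (fun p : ℕ => (p : ℤ) ∣ g), filter_filter,
      filter_filter, prod_pow, prod_pow]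
    rfl
  have h3 : ∏ p ∈ (bad W).filter (fun p : ℕ => ¬ (p : ℤ) ∣ W.c₄),
      (if (p : ℤ) ∣ W.c₄ then p ^ 2 else p) = pR W :=
    prod_congr rfl (fun p hp => if_neg (mem_filter.1 hp).2)
  rw [h2, h3]
  ring

/-- the local bound of the multiplier -/
theorem lam_dvd {W : WeierstrassCurve ℤ} (hW : GMin W) {f g l : ℤ} (hfg : IsCoprime f g)
    (hl : W.Δ = g * l) (hl4 : W.c₄ ^ 3 = f * l) :
    l.natAbs ∣ 30 ^ 34 * pM W g ^ 6 * pA W g ^ 10 := by
  classical
  have hl0 : l ≠ 0 := by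
    intro h
    exact hW.1 (by rw [hl, h, mul_zero])
  have hl6 : W.c₆ ^ 2 = (f - 1728 * g) * l := by
    have hrel := W.c_relation
    rw [hl, hl4] at hrel
    linear_combination hrel
  have hd4 : l ∣ W.c₄ ^ 3 := Dvd.intro_left f hl4.symm
  have hd6 : l ∣ W.c₆ ^ 2 := Dvd.intro_left _ hl6.symm
  rw [Nat.dvd_iff_prime_pow_dvd_dvd]
  intro p k hp hk
  haveI : Fact p.Prime := ⟨hp⟩
  have hkZ : (p : ℤ) ^ k ∣ l := by
    have : ((p ^ k : ℕ) : ℤ) ∣ l := Int.natCast_dvd.2 hk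
    exact_mod_cast this
  have hc : ∀ m m' : ℕ, 3 * m < k + 3 → 2 * m' < k + 2 →
      (p : ℤ) ^ m ∣ W.c₄ ∧ (p : ℤ) ^ m' ∣ W.c₆ := fun m m' h1 h2 =>
    ⟨pow_dvd_of_pow hp (by norm_num) h1 (hkZ.trans hd4),
      pow_dvd_of_pow hp (by norm_num) h2 (hkZ.trans hd6)⟩
  rcases Nat.eq_zero_or_pos k with hk0 | hk0
  · rw [hk0, pow_zero]; exact one_dvd _
  by_cases hp7 : 7 ≤ p
  · have hk10 : k ≤ 10 := by
      by_contra hcon
      obtain ⟨h1, h2⟩ := hc 4 6 (by omega) (by omega)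
      exact not_both hW p hp7 h1 h2
    have hpl : (p : ℤ) ∣ l := (dvd_pow_self _ (by omega)).trans hkZ
    have hpZ : Prime (p : ℤ) := Nat.prime_iff_prime_int.mp hp
    have hp4 : (p : ℤ) ∣ W.c₄ := hpZ.dvd_of_dvd_pow (hpl.trans hd4)
    have hpb : p ∈ bad W := by
      rw [bad, mem_filter]
      refine ⟨Nat.mem_primeFactors.2 ⟨hp, ?_, by simpa using hW.1⟩, hp7⟩
      rw [← Int.natCast_dvd, hl]
      exact hpl.mul_left g
    by_cases hg : (p : ℤ) ∣ g
    · have hk6 : k ≤ 6 := by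
        by_contra hcon
        have hpf : ¬ (p : ℤ) ∣ f := fun h => hpZ.not_isUnit (hfg.isUnit_of_dvd' h hg)
        have hpf' : ¬ (p : ℤ) ∣ f - 1728 * g := fun h =>
          hpf ((dvd_sub_left (hg.mul_left 1728)).1 h)
        have hf0 : f ≠ 0 := fun h => hpf (by rw [h]; exact dvd_zero _)
        have hf0' : f - 1728 * g ≠ 0 := fun h => hpf' (by rw [h]; exact dvd_zero _)
        have e4 : 3 * padicValInt p W.c₄ = padicValInt p l := by
          have h1 := congrArg (padicValInt p) hl4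
          rw [padicValInt.mul hf0 hl0, padicValInt.eq_zero_of_not_dvd hpf, zero_add] at h1
          rw [← h1]
          unfold padicValInt
          rw [Int.natAbs_pow, padicValNat.pow]
        have e6 : 2 * padicValInt p W.c₆ = padicValInt p l := by
          have h1 := congrArg (padicValInt p) hl6
          rw [padicValInt.mul hf0' hl0, padicValInt.eq_zero_of_not_dvd hpf', zero_add] at h1
          rw [← h1]
          unfold padicValInt
          rw [Int.natAbs_pow, padicValNat.pow]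
        have e7 : k ≤ padicValInt p l := by
          rcases (padicValInt_dvd_iff k l).1 hkZ with h | h
          · exact absurd h hl0
          · exact h
        refine not_both hW p hp7 ?_ ?_
        · rw [padicValInt_dvd_iff]; right; omega
        · rw [padicValInt_dvd_iff]; right; omega
      refine dvd_mul_of_dvd_left (dvd_mul_of_dvd_right ?_ _) _
      refine (pow_dvd_pow p hk6).trans (pow_dvd_pow_of_dvd ?_ 6)
      exact dvd_prod_of_mem (fun p : ℕ => p) (mem_filter.2 ⟨hpb, hp4, hg⟩)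
    · refine dvd_mul_of_dvd_right ?_ _
      refine (pow_dvd_pow p hk10).trans (pow_dvd_pow_of_dvd ?_ 10)
      exact dvd_prod_of_mem (fun p : ℕ => p) (mem_filter.2 ⟨hpb, hp4, hg⟩)
  · have hp235 : p = 2 ∨ p = 3 ∨ p = 5 := by
      have h1 := hp.two_le
      have h2 : p ≠ 4 := by rintro rfl; exact absurd hp (by decide)
      have h3 : p ≠ 6 := by rintro rfl; exact absurd hp (by decide)
      omega
    have hk34 : k ≤ 34 := by
      by_contra hcon
      obtain ⟨h1, h2⟩ := hc 12 18 (by omega) (by omega)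
      rcases hp235 with rfl | rfl | rfl
      · refine not_both hW 8 (by norm_num) ?_ ?_
        · refine dvd_trans ?_ h1; norm_num
        · refine dvd_trans ?_ h2; norm_num
      · refine not_both hW 9 (by norm_num) ?_ ?_
        · refine dvd_trans ?_ h1; norm_num
        · refine dvd_trans ?_ h2; norm_num
      · refine not_both hW 25 (by norm_num) ?_ ?_
        · refine dvd_trans ?_ h1; norm_num
        · refine dvd_trans ?_ h2; norm_num
    refine dvd_mul_of_dvd_left (dvd_mul_of_dvd_left ?_ _) _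
    refine (pow_dvd_pow p hk34).trans (pow_dvd_pow_of_dvd ?_ 34)
    rcases hp235 with rfl | rfl | rfl <;> norm_num

/-- the height `max (|c₄|³, c₆²)` -/
noncomputable def ht (W : WeierstrassCurve ℤ) : ℝ := max (|(W.c₄ : ℝ)| ^ 3) ((W.c₆ : ℝ) ^ 2)

/-- **the height of a minimal equation** with the invariant `f / g` in lowest terms -/
theorem ht_le {W : WeierstrassCurve ℤ} (hW : GMin W) {f g : ℤ} (hfg : IsCoprime f g) (hg : g ≠ 0)
    (hj : W.c₄ ^ 3 * g = f * W.Δ) :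
    ht W ≤ 30 ^ 34 * (pM W g : ℝ) ^ 6 * (pA W g : ℝ) ^ 10 * (|(f : ℝ)| + 1728 * |(g : ℝ)|) := by
  have h1 : g ∣ W.Δ := hfg.symm.dvd_of_dvd_mul_left ⟨W.c₄ ^ 3, by rw [← hj]; ring⟩
  obtain ⟨l, hl⟩ := h1
  have hl4 : W.c₄ ^ 3 = f * l := by
    rw [hl] at hj
    refine mul_right_cancel₀ hg ?_
    rw [hj]; ring
  have hl6 : W.c₆ ^ 2 = (f - 1728 * g) * l := by
    have hrel := W.c_relation
    rw [hl, hl4] at hrel
    linear_combination hrel
  have hl0 : l ≠ 0 := by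
    intro h
    exact hW.1 (by rw [hl, h, mul_zero])
  have hdvd := lam_dvd hW hfg hl hl4
  have hpos : 0 < 30 ^ 34 * pM W g ^ 6 * pA W g ^ 10 := by
    have h2 : 1 ≤ pM W g := by classical exact prod_pos' _
    have h3 : 1 ≤ pA W g := by classical exact prod_pos' _
    positivity
  have hle : (l.natAbs : ℝ) ≤ 30 ^ 34 * (pM W g : ℝ) ^ 6 * (pA W g : ℝ) ^ 10 := by
    exact_mod_cast Nat.le_of_dvd hpos hdvd
  have habs : (l.natAbs : ℝ) = |(l : ℝ)| := by rw [Nat.cast_natAbs, Int.cast_abs]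
  rw [habs] at hle
  have hf0 := abs_nonneg (f : ℝ)
  have hg0 := abs_nonneg (g : ℝ)
  have key : ht W ≤ |(l : ℝ)| * (|(f : ℝ)| + 1728 * |(g : ℝ)|) := by
    unfold ht
    refine max_le ?_ ?_
    · have h2 : |(W.c₄ : ℝ)| ^ 3 = |(f : ℝ)| * |(l : ℝ)| := by
        rw [← abs_pow, ← abs_mul]
        exact_mod_cast congrArg (fun z : ℤ => |(z : ℝ)|) hl4
      rw [h2]
      nlinarith [abs_nonneg (l : ℝ)]
    · have h2 : (W.c₆ : ℝ) ^ 2 = ((f : ℝ) - 1728 * g) * l := by exact_mod_cast hl6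
      have h3 : (W.c₆ : ℝ) ^ 2 = |(f : ℝ) - 1728 * g| * |(l : ℝ)| := by
        rw [← abs_mul, ← h2, abs_of_nonneg (by positivity)]
      rw [h3, mul_comm]
      refine mul_le_mul_of_nonneg_left ?_ (abs_nonneg _)
      refine (abs_sub _ _).trans ?_
      rw [abs_mul, abs_of_pos (by norm_num : (0 : ℝ) < 1728)]
  refine key.trans (mul_le_mul_of_nonneg_right hle (by positivity))

/-- the primes at which the invariant is not integral -/
theorem rad_le {W : WeierstrassCurve ℤ} (hW : GMin W) {f g : ℤ} (hfg : IsCoprime f g)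
    (hj : W.c₄ ^ 3 * g = f * W.Δ) (P : Finset ℕ)
    (hP : ∀ p ∈ P, p.Prime ∧ 7 ≤ p ∧ (p : ℤ) ∣ g) :
    ∏ p ∈ P, p ≤ pR W * pM W g := by
  classical
  have h1 : g ∣ W.Δ := hfg.symm.dvd_of_dvd_mul_left ⟨W.c₄ ^ 3, by rw [← hj]; ring⟩
  have h2 : pR W * pM W g = ∏ p ∈ (bad W).filter (fun p : ℕ => ¬ (p : ℤ) ∣ W.c₄) ∪
      (bad W).filter (fun p : ℕ => (p : ℤ) ∣ W.c₄ ∧ (p : ℤ) ∣ g), p := by
    unfold pR pM
    rw [prod_union]
    rw [disjoint_left]
    intro p hp hp'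
    exact (mem_filter.1 hp).2 (mem_filter.1 hp').2.1
  rw [h2]
  refine prod_le_prod_of_subset_of_one_le' ?_ ?_
  · intro p hp
    obtain ⟨hp1, hp7, hpg⟩ := hP p hp
    have hb : p ∈ bad W := by
      rw [bad, mem_filter]
      refine ⟨Nat.mem_primeFactors.2 ⟨hp1, ?_, by simpa using hW.1⟩, hp7⟩
      rw [← Int.natCast_dvd]
      exact hpg.trans h1
    rw [mem_union, mem_filter, mem_filter]
    by_cases h4 : (p : ℤ) ∣ W.c₄
    · exact Or.inr ⟨hb, h4, hpg⟩
    · exact Or.inl ⟨hb, h4⟩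
  · intro p hp _
    rw [mem_union, mem_filter, mem_filter] at hp
    rcases hp with hp | hp
    · exact (bad_prime hp.1).one_le
    · exact (bad_prime hp.1).one_le

/-- semistable curves -/
theorem semi {W : WeierstrassCurve ℤ} (hs : IsCoprime W.c₄ W.Δ) (g : ℤ) :
    pM W g = 1 ∧ pA W g = 1 := by
  classical
  have h1 : ∀ p ∈ bad W, ¬ (p : ℤ) ∣ W.c₄ := by
    intro p hp h4
    have hpp := Nat.prime_iff_prime_int.mp (bad_prime hp)
    have hd : (p : ℤ) ∣ W.Δ := Int.natCast_dvd.mpr (Nat.dvd_of_mem_primeFactors (mem_filter.1 hp).1)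
    exact hpp.not_isUnit (hs.isUnit_of_dvd' h4 hd)
  constructor
  · unfold pM
    rw [filter_false_of_mem (fun p hp h => h1 p hp h.1), prod_empty]
  · unfold pA
    rw [filter_false_of_mem (fun p hp h => h1 p hp h.1), prod_empty]

end Run7.h742.SZ
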