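import Pool.Agent.Run7.h742.SZ.Fin2

/-!
# Many prime poles of a rational function at integral points (helper742)
-/

set_option autoImplicit false

namespace Run7.h742.SZ

open MvPolynomial Pool.Agent.TH910.Voj Pool.Agent.H813R3.Voj Run7.h742.VI

/-- primes which divide the denominator and not the numerator, with a large product -/
def ManyP {n : ℕ} (F G : MvPolynomial (Fin (n + 1)) ℤ) (θ : ℝ) (x : Fin (n + 1) → ℤ) : Prop :=
  ∃ A : Finset ℕ, (∀ p ∈ A, p.Prime ∧ 7 ≤ p ∧ (p : ℤ) ∣ eval x G ∧ ¬ (p : ℤ) ∣ eval x F) ∧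
    θ * Real.log (Ht x) ≤ ∑ p ∈ A, Real.log (p : ℝ)

theorem ManyP.mono {n : ℕ} {F G : MvPolynomial (Fin (n + 1)) ℤ} {θ θ' : ℝ} {x : Fin (n + 1) → ℤ}
    (h : ManyP F G θ x) (hθ : θ' ≤ θ) : ManyP F G θ' x := by
  obtain ⟨A, h1, h2⟩ := h
  exact ⟨A, h1, (mul_le_mul_of_nonneg_right hθ (Real.log_natCast_nonneg _)).trans h2⟩

theorem many_point {n q D : ℕ} {F G : MvPolynomial (Fin (n + 1)) ℤ}
    {P : Fin q → MvPolynomial (Fin (n + 1)) ℤ} {k : Fin q → ℕ} (h : Inv D F G P k) :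
    ∃ S : Finset ℕ, ∀ x : Fin (n + 1) → ℤ, x 0 ≠ 0 → ∀ θ η : ℝ, x ∉ Bad P S θ →
      (∀ j, x ∉ GB (P j) F η) → ManyP F G (θ - q * η) x := by
  classical
  choose c Q hc0 hcQ using fun j => exists_mul (h.dvd j)
  refine ⟨{2, 3, 5} ∪ Finset.univ.biUnion fun j => (c j).natAbs.primeFactors,
    fun x hx θ η hbad hgb => ?_⟩
  have hHt : (1 : ℝ) ≤ Ht x := by exact_mod_cast Ht_pos hx
  have hHt0 : (0 : ℝ) < Ht x := by linarith
  unfold Bad at hbad
  rw [Set.mem_ofPred_eq, not_or] at hbad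
  push Not at hbad
  obtain ⟨hne, hθ⟩ := hbad
  set S : Finset ℕ := {2, 3, 5} ∪ Finset.univ.biUnion fun j => (c j).natAbs.primeFactors with hS
  obtain ⟨A, hA⟩ : ∃ A : Finset ℕ, A = (∏ j, eval x (P j)).natAbs.primeFactors \ S := ⟨_, rfl⟩
  have hlr : logRad S (∏ j, eval x (P j)) = ∑ p ∈ A, Real.log (p : ℝ) := by
    rw [hA]; rfl
  rw [hlr, ← Finset.sum_filter_add_sum_filter_not A (fun p : ℕ => (p : ℤ) ∣ eval x F)] at hθ
  have hmem : ∀ p ∈ A, p.Prime ∧ p ∉ S ∧ ∃ j, (p : ℤ) ∣ eval x (P j) := by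
    intro p hp
    rw [hA, Finset.mem_sdiff] at hp
    have hpp := Nat.prime_of_mem_primeFactors hp.1
    refine ⟨hpp, hp.2, ?_⟩
    have h5 : (p : ℤ) ∣ ∏ j, eval x (P j) := Int.natCast_dvd.2 (Nat.dvd_of_mem_primeFactors hp.1)
    obtain ⟨j, -, hj⟩ := (Prime.dvd_finset_prod_iff (Nat.prime_iff_prime_int.mp hpp) _).1 h5
    exact ⟨j, hj⟩
  have h5 : ∑ p ∈ A.filter (fun p : ℕ => (p : ℤ) ∣ eval x F), Real.log (p : ℝ) ≤
      q * η * Real.log (Ht x) := by
    calc ∑ p ∈ A.filter (fun p : ℕ => (p : ℤ) ∣ eval x F), Real.log (p : ℝ) ≤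
        ∑ p ∈ A.filter (fun p : ℕ => (p : ℤ) ∣ eval x F), ∑ j : Fin q,
          (if p ∈ (Int.gcd (eval x (P j)) (eval x F)).primeFactors then Real.log (p : ℝ)
            else 0) := by
          refine Finset.sum_le_sum fun p hp => ?_
          rw [Finset.mem_filter] at hp
          obtain ⟨hpp, -, j, hpj⟩ := hmem p hp.1
          have h6 : p ∈ (Int.gcd (eval x (P j)) (eval x F)).primeFactors := by
            refine Nat.mem_primeFactors.2 ⟨hpp, ?_, ?_⟩
            · exact_mod_cast Int.dvd_coe_gcd hpj hp.2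
            · intro h7
              exact hne j (Int.gcd_eq_zero_iff.1 h7).1
          calc Real.log (p : ℝ) = (if p ∈ (Int.gcd (eval x (P j)) (eval x F)).primeFactors then
                Real.log (p : ℝ) else 0) := by rw [if_pos h6]
            _ ≤ _ := Finset.single_le_sum (f := fun j : Fin q =>
                (if p ∈ (Int.gcd (eval x (P j)) (eval x F)).primeFactors then Real.log (p : ℝ)
                else 0)) (fun i _ => by
                  show (0 : ℝ) ≤ if _ then _ else _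
                  split_ifs
                  · exact Real.log_natCast_nonneg _
                  · exact le_rfl) (Finset.mem_univ j)
      _ = ∑ j : Fin q, ∑ p ∈ A.filter (fun p : ℕ => (p : ℤ) ∣ eval x F),
          (if p ∈ (Int.gcd (eval x (P j)) (eval x F)).primeFactors then Real.log (p : ℝ)
            else 0) := Finset.sum_comm
      _ ≤ ∑ _j : Fin q, η * Real.log (Ht x) := by
          refine Finset.sum_le_sum fun j _ => ?_
          rw [← Finset.sum_filter]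
          have h6 : ∑ p ∈ (A.filter (fun p : ℕ => (p : ℤ) ∣ eval x F)).filter
              (fun p => p ∈ (Int.gcd (eval x (P j)) (eval x F)).primeFactors),
              Real.log (p : ℝ) ≤ Real.log (rd (Int.gcd (eval x (P j)) (eval x F))) := by
            rw [log_rd]
            refine Finset.sum_le_sum_of_subset_of_nonneg ?_ fun p _ _ =>
              Real.log_natCast_nonneg _
            intro p hp
            exact (Finset.mem_filter.1 hp).2
          refine h6.trans ?_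
          have h7 : ((rd (Int.gcd (eval x (P j)) (eval x F)) : ℕ) : ℝ) ≤
              ((Ht x : ℕ) : ℝ) ^ η := by
            by_contra hcon
            push Not at hcon
            exact hgb j ⟨hne j, hcon⟩
          have h8 : 0 < ((rd (Int.gcd (eval x (P j)) (eval x F)) : ℕ) : ℝ) := by
            unfold rd
            rw [Nat.cast_prod]
            refine Finset.prod_pos fun p hp => ?_
            have := (Nat.prime_of_mem_primeFactors hp).pos
            exact_mod_cast this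
          have h9 := Real.log_le_log h8 h7
          rwa [Real.log_rpow hHt0] at h9
      _ = q * η * Real.log (Ht x) := by
          rw [Finset.sum_const, Finset.card_univ, Fintype.card_fin, nsmul_eq_mul]
          ring
  refine ⟨A.filter (fun p : ℕ => ¬ (p : ℤ) ∣ eval x F), fun p hp => ?_, by linarith⟩
  rw [Finset.mem_filter] at hp
  obtain ⟨hpp, hpS, j, hpj⟩ := hmem p hp.1
  rw [hS, Finset.mem_union, not_or] at hpS
  obtain ⟨hp5, hpc⟩ := hpS
  have hp7 : 7 ≤ p := by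
    simp only [Finset.mem_insert, Finset.mem_singleton, not_or] at hp5
    by_contra hlt
    have h2' := hpp.two_le
    have h4' : p ≠ 4 := by
      rintro rfl
      exact absurd hpp (by decide)
    have h6' : p ≠ 6 := by
      rintro rfl
      exact absurd hpp (by decide)
    omega
  refine ⟨hpp, hp7, ?_, hp.2⟩
  have h8 : c j * eval x G = eval x (P j) * eval x (Q j) := by
    have := congrArg (eval x) (hcQ j)
    simpa using this
  have h9 : (p : ℤ) ∣ c j * eval x G := by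
    rw [h8]
    exact hpj.mul_right _
  rcases (Nat.prime_iff_prime_int.mp hpp).dvd_or_dvd h9 with h10 | h10
  · exfalso
    apply hpc
    refine Finset.mem_biUnion.2 ⟨j, Finset.mem_univ _, Nat.mem_primeFactors.2 ⟨hpp, ?_, ?_⟩⟩
    · exact Int.natCast_dvd.1 h10
    · exact Int.natAbs_ne_zero.2 (hc0 j)
  · exact h10

/-- power saving -/
theorem many_ps {n q D : ℕ} (hn : 1 ≤ n) {F G : MvPolynomial (Fin (n + 1)) ℤ}
    {P : Fin q → MvPolynomial (Fin (n + 1)) ℤ} {k : Fin q → ℕ} (h : Inv D F G P k) {θ : ℝ}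
    (hθ : θ < ∑ j, ((min (k j) 2 : ℕ) : ℝ)) : PS n {x | x 0 ≠ 0 ∧ ¬ ManyP F G θ x} := by
  obtain ⟨ω, hωd⟩ : ∃ ω : ℝ, ω = ∑ j, ((min (k j) 2 : ℕ) : ℝ) := ⟨_, rfl⟩
  rw [← hωd] at hθ
  have hq : (0 : ℝ) < (q : ℝ) + 2 := by positivity
  obtain ⟨δ, hδ⟩ : ∃ δ : ℝ, δ = (ω - θ) / ((q : ℝ) + 2) := ⟨_, rfl⟩
  have hδ0 : 0 < δ := by
    rw [hδ]
    exact div_pos (by linarith) hq
  have hδe : ω - δ - q * δ = θ + δ := by
    have : ((q : ℝ) + 2) * δ = ω - θ := by rw [hδ]; field_simp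
    linarith
  obtain ⟨S, hp⟩ := many_point h
  obtain ⟨hc1, hc2, hc3, hc4⟩ := h.comps
  have h1 : PS n (Bad P S (ω - δ) ∪ ⋃ j, GB (P j) F δ) := by
    refine PS.union (bad_single hn P k h.comps S (ω - δ) (by rw [← hωd]; linarith)) ?_
    exact PS.iUnion fun j => gcd_single hn (P j) F (hc1 j) h.hF (hc2 j) (hc4 j) (h.ndvd j) hδ0
  refine h1.mono ?_
  rintro x ⟨hx, hM⟩
  by_contra hcon
  rw [Set.mem_union, not_or, Set.mem_iUnion] at hcon
  push Not at hcon
  refine hM ((hp x hx (ω - δ) δ hcon.1 hcon.2).mono ?_)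
  rw [hδe]
  linarith

/-- **one exceptional set** -/
theorem many_univ {n : ℕ} (hn : 1 ≤ n) :
    ∃ E : Set (Fin (n + 1) → ℤ), (∀ ε : ℝ, 0 < ε → ∃ B₀ : ℕ, ∀ B : ℕ, B₀ ≤ B → ∀ M : Set ℕ,
        (Set.ncard {x | x ∈ Pts n M B ∧ x ∈ E} : ℝ) ≤ ε * (Pts n M B).ncard) ∧
      ∀ (D q : ℕ) (F G : MvPolynomial (Fin (n + 1)) ℤ)
        (P : Fin q → MvPolynomial (Fin (n + 1)) ℤ) (k : Fin q → ℕ), Inv D F G P k →
        ∀ θ : ℝ, θ < ∑ j, ((min (k j) 2 : ℕ) : ℝ) → ∃ T : ℕ,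
          ∀ x : Fin (n + 1) → ℤ, x 0 ≠ 0 → x ∉ E → T < Ht x → ManyP F G θ x := by
  classical
  have hcount : Countable (MvPolynomial (Fin (n + 1)) ℤ) := countable_polyZ (n + 1)
  let J := ((q : ℕ) × ((Fin q → MvPolynomial (Fin (n + 1)) ℤ) × (Fin q → ℕ))) ×
    (ℕ × MvPolynomial (Fin (n + 1)) ℤ × MvPolynomial (Fin (n + 1)) ℤ) × ℚ
  have hJ : Countable J := by infer_instance
  have hJne : Nonempty J := ⟨(⟨0, Fin.elim0, Fin.elim0⟩, (0, 0, 0), 0)⟩
  let om : J → ℝ := fun d => ∑ j, ((min (d.1.2.2 j) 2 : ℕ) : ℝ)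
  let Es : J → Set (Fin (n + 1) → ℤ) := fun d =>
    if Inv d.2.1.1 d.2.1.2.1 d.2.1.2.2 d.1.2.1 d.1.2.2 ∧ (d.2.2 : ℝ) < om d then
      {x | x 0 ≠ 0 ∧ ¬ ManyP d.2.1.2.1 d.2.1.2.2 (d.2.2 : ℝ) x} else ∅
  obtain ⟨E, hE1, hE2⟩ := universal_of_countable Es (by
    intro d
    show PS n (if _ then _ else _)
    split_ifs with hd
    · exact many_ps hn hd.1 hd.2
    · exact PS.empty n)
  refine ⟨E, hE1, fun D q F G P k h θ hθ => ?_⟩
  obtain ⟨θ', h1, h2⟩ := exists_rat_btwn hθ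
  obtain ⟨T, hT⟩ := hE2 (⟨q, P, k⟩, (D, F, G), θ')
  refine ⟨T, fun x hx hxE hTx => ?_⟩
  by_contra hcon
  refine hxE (hT x ?_ hTx)
  have hcond : Inv D F G P k ∧ (θ' : ℝ) < om (⟨q, P, k⟩, (D, F, G), θ') := ⟨h, h2⟩
  have he : (if Inv D F G P k ∧ (θ' : ℝ) < om (⟨q, P, k⟩, (D, F, G), θ') then
      {x | x 0 ≠ 0 ∧ ¬ ManyP F G (θ' : ℝ) x} else ∅) =
      {x | x 0 ≠ 0 ∧ ¬ ManyP F G (θ' : ℝ) x} := if_pos hcond
  show x ∈ (if Inv D F G P k ∧ (θ' : ℝ) < om (⟨q, P, k⟩, (D, F, G), θ') then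
      {x | x 0 ≠ 0 ∧ ¬ ManyP F G (θ' : ℝ) x} else ∅)
  rw [he]
  exact ⟨hx, fun hM => hcon (hM.mono h1.le)⟩

end Run7.h742.SZ
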